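import Pool.Agent.Lib.MP_776403_ag.SD.E2.Spec
import Pool.Agent.Lib.MP_776403_ag.SD.UN.SpecT

/-!
# Case `deg X = 5`, `n = 6`, codimension `3`: `X` is the Grassmannian `G(1,4)` (helper43)

`X ⊆ ℙ^9` smooth, nondegenerate, of codimension `3`, with at least `5` independent quadrics in its ideal `I`.  Then `X` is
projectively equivalent to the Grassmannian of the lines of `ℙ^4` in its Pluecker embedding (`S_GR3`): there is an
injective linear map `P` from `ℂ^10` to the skew symmetric `5 × 5` matrices (so it is onto them) such that the cone of `X`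
is the set of the `y` for which `P y` is a decomposable bivector `a ∧ b = a bᵀ - b aᵀ`.

METHOD (note 4803, parts (4)-(6), simplified).  Every quadric of `I`, not `0`, has rank `≥ 6` (`E2.S_Rk6`).
PART 1.  (`S_GP`) There is a point `x` with three quadrics `F_k` of `I` whose gradients `z_k` at `x` are independent and two
independent quadrics `G_a` of `I` singular at `x`.  (`S_Vtx`) The vertices of `G_0`, `G_1` meet only in `ℂ x`.  So (`S_Frm`)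
`G_a = ∑_k T_(a k) z_k`, and `u` (`u(x) = 1`), the `T_(a k)` and the `z_k` are ten independent linear forms, and
`F_k = u z_k - f_k(T, z)`.
PART 2.  (`S_ArP`) Formal arcs through `x`; (`S_NF`) the normal form `f_k = c₀ (T_0 × T_1)_k + h(T, z) z_k + ∑_a w_(a k) G_a`.  So
(`S_PD`), after a change of `u` and of `z` by a constant, `I` contains the `u z_k - (T_0 × T_1)_k` and the `∑_k T_(a k) z_k`: these
are the five Pluecker quadrics.
PART 3.  `X` is contained in the set of the decomposable bivectors (`S_Dec`), and contains it (`S_Cls`).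

Statements with complete proofs in the docstrings; `S_Xyz` is proved in the file `SD/GR/Xyz.lean` (theorem `SD.GR.tXyz`, other
statements as hypotheses in the order in which they are named in the proof).  Facts on quadratic forms: `E2.S_Hsf`.
-/

set_option autoImplicit false

open MvPolynomial

noncomputable section

namespace Pool.Agent.Lib.MP_776403_ag.SD.GR

open LI E2

variable {N : ℕ}

/-! ## Part 1: the frame -/

/-- (R4) QUADRICS OF RANK `≤ 4`.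

PROOF (`E2.S_Hsf`, `E2.S_Rk6`).  `G = lf a * lf b - lf c * lf d` is a form of degree `2` in `I`.  `Hs G v = grad G v` (`S_Hsf`), and the
gradient of `lf a * lf b` at `v` is `(dp b v) • a + (dp a v) • b` (product rule; `pderiv i (lf a) = C (a i)`).  So the range of
`Hs G` is contained in `span {a, b, c, d}`, of dimension `≤ 4 < 6`: `G = 0` by `S_Rk6` (`c = 3`, `9 = 2 * 3 + 3`). -/
def S_R4 : Prop :=
  ∀ I : Ideal (Sx 9), I.IsPrime → IsHom I → (∀ F ∈ I, F.IsHomogeneous 1 → F = 0) → Smooth I 3 →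
    ∀ a b c d : Vx 9, lf a * lf b - lf c * lf d ∈ I → lf a * lf b = lf c * lf d

/-- (KT) THE VERTEX of a quadric of `I` which is singular at `x ∈ X` is contained in the tangent space at `x`.

PROOF (`LI.S_TS`, `E2.S_Hsf`, `E2.S_TQ`, `E2.S_Rk6`).  `T = TS I x`, `finrank T = 7` (`S_TS`).  `dd x G = lf (Hs G x) = 0`, so
`dp (Hs G τ) τ' = 0` for `τ, τ' ∈ T` (`S_TQ`).  So `Hs G` maps `T` into the annihilator of `T` for `dp`, of dimension `10 - 7 = 3`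
(`(bd N).orthogonal`, see `LI/TS.lean`; used in the same way in `E2/C4.lean`), and `finrank (Kq G ⊓ T) ≥ 7 - 3 = 4`.  `S_Rk6`:
`finrank (Kq G) ≤ 10 - 6 = 4`.  So `Kq G ⊓ T = Kq G`. -/
def S_KT : Prop :=
  ∀ I : Ideal (Sx 9), I.IsPrime → IsHom I → (∀ F ∈ I, F.IsHomogeneous 1 → F = 0) → Smooth I 3 →
    ∀ x ∈ zer I, x ≠ 0 → ∀ G ∈ I, G.IsHomogeneous 2 → G ≠ 0 → Hs G x = 0 → Kq G ≤ TS I x

/-- `x` is a point of `X` with three quadrics `F k` of `I` with independent gradients at `x` and two independent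
quadrics `G a` of `I` which are singular at `x`. -/
structure Gd (I : Ideal (Sx 9)) (x : Vx 9) (F : Fin 3 → Sx 9) (G : Fin 2 → Sx 9) : Prop where
  xI : x ∈ zer I
  x0 : x ≠ 0
  Fm : ∀ k, F k ∈ I ∧ (F k).IsHomogeneous 2
  Gm : ∀ a, G a ∈ I ∧ (G a).IsHomogeneous 2
  Fi : LinearIndependent ℂ fun k => Hs (F k) x
  Gx : ∀ a, Hs (G a) x = 0
  Gi : LinearIndependent ℂ G

/-- (GP) A GOOD POINT.

PROOF (`LI.S_TS`, `E2.S_Hsf`, `S_KT`; closed `tNull`, `mPerp : S_Perp`).  (1) There are `x₁, x₂ ∈ zer I - 0` with `x₂ ∉ TS I x₁`: `x₁` exists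
(otherwise `X 0 ∈ I` by `S_Null`, against the third hypothesis; `V3Aux.ex_pt` in `U/V3.lean`); `TS I x₁ ≠ ⊤` (`finrank = 7`), so
there is `α ≠ 0` with `dp α τ = 0` on `TS I x₁`, `lf α ∉ I` (`ZakAux.lf_notMem` in `U/Zak.lean`), so some `x₂ ∈ zer I` has
`dp α x₂ ≠ 0` (`S_Null`).
(2) For `x = x_i` let `φ_x : I2 I → Vx 9`, `G ↦ Hs G x` (linear by `S_Hsf`); its values `Hs G x = grad G x` are in `CN I x`, of dimension `3`
(`S_Perp`), so `rank φ_x ≤ 3`.  CLAIM: `rank φ_x = 3` for `x = x₁` or `x = x₂`.  Otherwise both kernels have dimension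
`≥ dim (I2 I) - 2`, and their intersection has dimension `≥ dim (I2 I) - 4 ≥ 1` (`I2 I` is finite-dimensional: a submodule of the
forms of degree `2`): there is `G ∈ I2 I`, `G ≠ 0`, `Hs G x₁ = 0 = Hs G x₂`.  `S_KT` for `x₁`: `x₂ ∈ Kq G ≤ TS I x₁`: contradiction.
(3) For this `x`: choose `F k ∈ I2 I` with `Hs (F k) x` independent (a basis of the range of `φ_x`), and the kernel has
dimension `dim (I2 I) - 3 ≥ 2`: choose independent `G 0, G 1` in it. -/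
def S_GP : Prop :=
  ∀ I : Ideal (Sx 9), I.IsPrime → IsHom I → (∀ F ∈ I, F.IsHomogeneous 1 → F = 0) → Smooth I 3 →
    5 ≤ Module.finrank ℂ (I2 I) → ∃ x F G, Gd I x F G

/-- (Fld) LOCAL EQUATIONS: `c` elements of `I` with independent gradients at the point `x` of `X` generate `I` near `x`, and a
vector field which preserves them is tangent to `X`.

PROOF.  First claim.  `Smooth` at `x`: `F'`, `h'` with `h'(x) ≠ 0`, `h' G ∈ span F'` for `G ∈ I`, `F' j ∈ I`.  `h' F_i = ∑_j A_(i j) F'_j`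
(`Ideal.mem_span_range_iff_exists_fun`); gradients at `x` (all `F_i`, `F'_j` vanish at `x`): `h'(x) grad F_i (x) = ∑_j A_(i j)(x) grad F'_j (x)`.
So the matrix `A(x)` is invertible: if `v A(x) = 0` then `∑_i v_i grad F_i (x) = 0`, `v = 0`
(`Matrix.exists_vecMul_eq_zero_iff`).  `D = det A`, `D(x) ≠ 0`, `D F'_j = ∑_i (adjugate A)_(j i) h' F_i ∈ span F`
(`Matrix.adjugate_mul`).  `h = D h'`: `h G = D (h' G) ∈ D span F' ≤ span F`.
Second claim.  `G ∈ I`, `h G = ∑_k A_k F_k`; apply the derivation `w = ∑ w_i ∂_i`: `w(h) G + h w(G) = ∑_k (w(A_k) F_k + A_k w(F_k)) ∈ I`, so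
`h w(G) ∈ I`; `h ∉ I` (`h(x) ≠ 0`, `x ∈ zer I`), `I` is prime: `w(G) ∈ I`. -/
def S_Fld : Prop :=
  ∀ (N c : ℕ) (I : Ideal (Sx N)), I.IsPrime → IsHom I → Smooth I c → ∀ x ∈ zer I, x ≠ 0 →
    ∀ F : Fin c → Sx N, (∀ k, F k ∈ I) → LinearIndependent ℂ (fun k => grad (F k) x) →
    (∃ h : Sx N, eval x h ≠ 0 ∧ ∀ G ∈ I, h * G ∈ Ideal.span (Set.range F)) ∧
      ∀ w : Fin (N + 1) → Sx N, (∀ k, ∑ i, pderiv i (F k) * w i ∈ I) → w ∈ TF I

/-- (Ver) `X` HAS NO VERTEX.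

PROOF (`S_Fld`, `LI.S_TS`; closed `tNull`, `mPerp`).  Suppose `y ≠ 0`.  The constant field `w i = C (y i)`: `∑ i, pderiv i (F k) * C (y i) = dd y (F k) = 0`,
so `w ∈ TF I` (`S_Fld`): `dd y G ∈ I` for all `G ∈ I`.  CLAIM: `p + t • y ∈ zer I` for `p ∈ zer I`, `t ∈ ℂ`: let `G ∈ I`,
`g = lin p y G ∈ ℂ[t]` (`G(p + t y)`); `g' = lin p y (dd y G)` (chain rule; `MvPolynomial.induction_on`), so all derivatives of `g`
are the `lin p y G'` with `G' ∈ I` and vanish at `t = 0` (`G'(p) = 0`): `g = 0` (a polynomial over `ℂ` all whose derivatives vanish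
at `0` is `0`: the constant coefficient vanishes and by strong induction on the degree `g' = 0`; or `Polynomial.taylor`).
`y ∈ zer I` (`p = 0 ∈ zer I`, `ZakAux.zero_zer`; `t = 1`).  For `p ∈ zer I` and `s ∈ ℂ`: `y + s • p ∈ zer I` (`s = 0` clear;
`s ≠ 0`: `s • p ∈ zer I` as `I` is homogeneous, and the claim).  So for `G ∈ I` the polynomial `G(y + s p)` in `s` is `0`, and its
coefficient of `s` is `dp (grad G y) p = 0`.  So `lf (grad G y)` vanishes on `zer I`, is in `I` (`S_Null`), is `0`, and `grad G y = 0` for all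
`G ∈ I` (`ZakAux.lf_notMem`).  But `CN I y` has dimension `c ≥ 1` (`S_Perp`) and is spanned by these gradients: contradiction. -/
def S_Ver : Prop :=
  ∀ (N c : ℕ) (I : Ideal (Sx N)), 1 ≤ c → I.IsPrime → IsHom I →
    (∀ F ∈ I, F.IsHomogeneous 1 → F = 0) → Smooth I c → ∀ x ∈ zer I, x ≠ 0 →
    ∀ F : Fin c → Sx N, (∀ k, F k ∈ I) → LinearIndependent ℂ (fun k => grad (F k) x) →
    ∀ y : Vx N, (∀ k, dd y (F k) = 0) → y = 0

/-- (Dom) ALGEBRA over a domain.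

PROOF.  `p = adj J z`, `p' = adj J w`, `C = L × L'` (cross product), `C ≠ 0`.  `L · p = 0 = L' · p` gives `C × p = L' (L · p) - L (L' · p) = 0`, i.e.
`C_i p_j = C_j p_i` for all `i, j`, and the same for `p'`.  Choose `i` with `C_i ≠ 0`:
`C_i^2 (p_j p'_k - p_k p'_j) = C_j p_i C_k p'_i - C_k p_i C_j p'_i = 0`, so `p_j p'_k = p_k p'_j`.  `J p = (det J) z`, `J p' = (det J) w`
(`Matrix.mul_adjugate`): `(det J)^2 (z_i w_j - z_j w_i) = ∑_(k, l) J_(i k) J_(j l) (p_k p'_l - p_l p'_k) = 0`.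
(`fin_cases` and `linear_combination` are possible: everything is explicit for `3 × 3`.) -/
def S_Dom : Prop :=
  ∀ (R : Type) [CommRing R] [IsDomain R] (J : Matrix (Fin 3) (Fin 3) R) (z w L L' : Fin 3 → R),
    J.det ≠ 0 → (∑ j, L j * (J.adjugate.mulVec z) j = 0) → (∑ j, L' j * (J.adjugate.mulVec z) j = 0) →
    (∑ j, L j * (J.adjugate.mulVec w) j = 0) → (∑ j, L' j * (J.adjugate.mulVec w) j = 0) →
    (∃ i j, L i * L' j - L j * L' i ≠ 0) → ∀ i j, z i * w j = z j * w i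

/-- (Prp) PROPORTIONAL TRIPLES of linear forms.

PROOF.  The `a j` are independent: there are `v j` with `dp (a i) (v j) = 1` for `i = j` and `0` otherwise.  Evaluate the hypothesis at
`p + q`, `p`, `q` and subtract: for all `p, q`: `a_j(p) b_k(q) + a_j(q) b_k(p) = a_k(p) b_j(q) + a_k(q) b_j(p)` (`a_j(p) = dp (a j) p`).
For `j ≠ k` and `q = v j`: `b_k(p) = a_k(p) b_j(v_j) - a_j(p) b_k(v_j)` for all `p`.  For a fixed `k` and the two `j, j' ≠ k`: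
`a_k(p) (b_j(v_j) - b_(j')(v_(j'))) = a_j(p) b_k(v_j) - a_(j')(p) b_k(v_(j'))` for all `p`; put `p = v_j`, `v_k`: `b_k(v_j) = 0` and
`b_j(v_j) = b_(j')(v_(j'))`.  So `κ = b_j(v_j)` does not depend on `j`, and `b_k(p) = κ a_k(p)` for all `p`. -/
def S_Prp : Prop :=
  ∀ (N : ℕ) (a b : Fin 3 → Vx N), LinearIndependent ℂ a →
    (∀ j k, lf (a j) * lf (b k) = lf (a k) * lf (b j)) → ∃ κ : ℂ, ∀ k, b k = κ • a k

/-- (Mnr) A MINOR WHICH IS NOT IN `I`.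

PROOF (`LI.S_TS`, `E2.S_Hsf`, `S_R4`, `S_KT`, `S_Prp`).  Suppose all these elements are in `I`; by `S_R4`:
`lf (a j) * lf (b k) = lf (a k) * lf (b j)` for `a j = Hs (G 0) (n j)`, `b k = Hs (G 1) (n k)`.  `z k = Hs (F k) x = grad (F k) x`, so `dp (z k) τ = 0` for
`τ ∈ TS I x`.  The `a j` are independent: if `∑ κ_j a_j = 0` then `v = ∑ κ_j n_j ∈ Kq (G 0) ≤ TS I x` (`S_KT`; `G 0 ≠ 0` by `Gi`), so
`κ_k = dp (z k) v = 0`.  `S_Prp`: `Hs (G 1) (n k) = κ • Hs (G 0) (n k)` for all `k`.  `G' = G 1 - κ • G 0 ∈ I` is a form of degree `2`, not `0` (`Gi`),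
`Hs G' x = 0`, `Hs G' (n k) = 0`: `n k ∈ Kq G' ≤ TS I x` (`S_KT`), so `dp (z k) (n k) = 0`, but it is `1`. -/
def S_Mnr : Prop :=
  ∀ I : Ideal (Sx 9), I.IsPrime → IsHom I → (∀ F ∈ I, F.IsHomogeneous 1 → F = 0) → Smooth I 3 →
    ∀ (x : Vx 9) (F : Fin 3 → Sx 9) (G : Fin 2 → Sx 9), Gd I x F G → ∀ n : Fin 3 → Vx 9,
    (∀ k j, dp (Hs (F k) x) (n j) = if k = j then 1 else 0) →
    ∃ j k, lf (Hs (G 0) (n j)) * lf (Hs (G 1) (n k)) - lf (Hs (G 0) (n k)) * lf (Hs (G 1) (n j)) ∉ I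

/-- (Vtx) THE VERTICES OF `G 0` AND `G 1` MEET ONLY IN `ℂ x`.

PROOF (`E2.S_Hsf`, `S_Fld`, `S_Ver`, `S_Dom`, `S_Prp`, `S_R4`, `S_Mnr`).  `z k = Hs (F k) x` are independent: choose `n j` with `dp (z k) (n j) = δ_(k j)`.
`J_(k j) = dd (n j) (F k) = lf (Hs (F k) (n j))` (linear forms).  `J_(k j)(x) = dp (Hs (F k) (n j)) x = dp (z k) (n j) = δ_(k j)`, so
`(det J)(x) = 1` and `det J ∉ I`.  For `e ∈ {x, d}` let `p^e = adj J (dd e (F k))_k` and `w^e i = det J * C (e i) - ∑_j C (n j i) * p^e_j`.  Then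
`∑_i pderiv i (F k) * w^e i = det J * dd e (F k) - ∑_j J_(k j) p^e_j = 0` (`J adj J = det J`).  `S_Fld` (`grad (F k) x = z k`): `w^e ∈ TF I`, so
`det J * dd e (G a) - ∑_j dd (n j) (G a) * p^e_j ∈ I`.  `dd e (G a) = lf (Hs (G a) e) = 0` for `e = x` and `e = d`.  So, with
`L^a_j = dd (n j) (G a) = lf (Hs (G a) (n j))`: `∑_j L^a_j p^e_j ∈ I`.  `S_Dom` in the domain `Sx 9 ⧸ I` (classes; `Matrix` maps commute
with `adjugate`: `RingHom.map_adjugate`, `RingHom.map_det`), the last hypothesis is `S_Mnr`: `z'_i w'_j - z'_j w'_i ∈ I` for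
`z'_i = dd x (F i) = lf (z i)`, `w'_j = dd d (F j) = lf (Hs (F j) d)`.  `S_R4`: equality; `S_Prp`: `Hs (F k) d = μ • z k` for all `k`.  `y = d - μ • x`:
`dd y (F k) = lf (Hs (F k) y) = 0`.  `S_Ver`: `y = 0`. -/
def S_Vtx : Prop :=
  ∀ I : Ideal (Sx 9), I.IsPrime → IsHom I → (∀ F ∈ I, F.IsHomogeneous 1 → F = 0) → Smooth I 3 →
    ∀ (x : Vx 9) (F : Fin 3 → Sx 9) (G : Fin 2 → Sx 9), Gd I x F G → ∀ d : Vx 9,
    (∀ a, Hs (G a) d = 0) → ∃ μ : ℂ, d = μ • x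

/-! ## Trilinear arrays -/

/-- Bilinear maps `ℂ^3 × ℂ^3 → ℂ^3`, in coordinates. -/
abbrev Ar : Type := Fin 3 → Fin 3 → Fin 3 → ℂ

/-- The coordinate `k` of the value of the bilinear map `β`. -/
def bl {A : Type} [CommRing A] [Algebra ℂ A] (β : Ar) (k : Fin 3) (s t : Fin 3 → A) : A :=
  ∑ i, ∑ j, β k i j • (s i * t j)

/-- The coordinate `k` of the cross product. -/
def cr3 {A : Type} [CommRing A] (s t : Fin 3 → A) (k : Fin 3) : A :=
  s (k + 1) * t (k + 2) - s (k + 2) * t (k + 1)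

/-- The quadratic form `f_k (T, z)`. -/
def fv {A : Type} [CommRing A] [Algebra ℂ A] (β : Fin 6 → Ar) (k : Fin 3)
    (T : Fin 2 → Fin 3 → A) (z : Fin 3 → A) : A :=
  bl (β 0) k (T 0) (T 0) + bl (β 1) k (T 0) (T 1) + bl (β 2) k (T 1) (T 1) +
    (bl (β 3) k (T 0) z + bl (β 4) k (T 1) z) + bl (β 5) k z z

/-- The ten linear forms `u`, `T a i`, `z k` have only the common zero `0`. -/
def Nz (u : Vx 9) (T : Fin 2 → Fin 3 → Vx 9) (z : Fin 3 → Vx 9) : Prop :=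
  ∀ v : Vx 9, dp u v = 0 → (∀ a i, dp (T a i) v = 0) → (∀ k, dp (z k) v = 0) → v = 0

/-- (Bas) They are a basis.

PROOF.  The linear map `Vx 9 → ℂ × (Fin 2 → Fin 3 → ℂ) × (Fin 3 → ℂ)`, `v ↦ (dp u v, dp (T a i) v, dp (z k) v)` is injective, and both
spaces have dimension `10`, so it is surjective (`LinearMap.injective_iff_surjective_of_finrank_eq_finrank`). -/
def S_Bas : Prop :=
  ∀ (u : Vx 9) (T : Fin 2 → Fin 3 → Vx 9) (z : Fin 3 → Vx 9), Nz u T z →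
    ∀ (r : ℂ) (A : Fin 2 → Fin 3 → ℂ) (Z : Fin 3 → ℂ), ∃ v : Vx 9, dp u v = r ∧
      (∀ a i, dp (T a i) v = A a i) ∧ ∀ k, dp (z k) v = Z k

/-- THE FRAME: `u, T, z` are coordinates, `x` is the point `u = 1`, `T = z = 0`, and `I` contains `u z_k - f_k(T, z)` and
`∑_k T_(a k) z_k`. -/
structure GD (I : Ideal (Sx 9)) (x u : Vx 9) (T : Fin 2 → Fin 3 → Vx 9) (z : Fin 3 → Vx 9)
    (β : Fin 6 → Ar) : Prop where
  xI : x ∈ zer I
  ux : dp u x = 1
  Tx : ∀ a i, dp (T a i) x = 0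
  zx : ∀ k, dp (z k) x = 0
  nz : Nz u T z
  F : ∀ k, lf u * lf (z k) - fv β k (fun a i => lf (T a i)) (fun i => lf (z i)) ∈ I
  G : ∀ a, ∑ k, lf (T a k) * lf (z k) ∈ I

/-- (Frm) THE FRAME EXISTS.

PROOF (`LI.S_TS`, `E2.S_Hsf`, `E2.S_TQ`, `S_GP`, `S_Vtx`, `S_Bas`; closed `mPerp`).  `S_GP`: `x, F, G`.  `z k = Hs (F k) x = grad (F k) x ∈ CN I x`, independent, so
a basis of `CN I x` (`finrank = 3`): `TS I x = {v | dp (z k) v = 0 for all k}`; `dp (z k) x = 0` (`x ∈ TS I x`, `S_TS`).  Choose `n j` with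
`dp (z k) (n j) = δ_(k j)` and `u` with `dp u x = 1`.
(1) `T a k = Hs (G a) (n k) - (1/2) • ∑_j dp (Hs (G a) (n k)) (n j) • z j`.  `dp (T a k) x = dp (Hs (G a) x) (n k) - 0 = 0`.  CLAIM:
`G a = ∑_k lf (T a k) * lf (z k)`.  At `v`: `m = ∑_k (dp (z k) v) • n k`, `v' = v - m ∈ TS I x`, `G(v') = 0` (`S_TQ`), so
`G(v) = G(v') + G(m) + dp (Hs G m) v' = dp (Hs G m) (v' + m/2) = dp (Hs G m) (v - m/2) = ∑_k (dp (z k) v) (dp (T k) v)`.
(2) `Nz u T z`: if all ten forms vanish at `v`, then `Hs (G a) v = ∑_k ((dp (T a k) v) • z k + (dp (z k) v) • T a k) = 0` (gradient of the formula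
in (1)), so `v = μ • x` (`S_Vtx`), `0 = dp u v = μ`, `v = 0`.
(3) `S_Bas`: the dual basis `x`, `t a i`, `n' j`: every `v` is `(dp u v) • x + ∑ (dp (T a i) v) • t a i + ∑ (dp (z j) v) • n' j` (the difference is
killed by all ten forms).  `f_k = lf u * lf (z k) - F k`, a form of degree `2`; `Hs f_k x = (dp u x) • z k + (dp (z k) x) • u - z k = 0`.  So
`2 f_k(v) = dp (Hs f_k v) v = dp (Hs f_k m) m`, `m = ∑ (dp (T a i) v) • t a i + ∑ (dp (z j) v) • n' j`.  Expand with `B_k(v, v') = dp (Hs f_k v) v'`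
(symmetric): `f_k = fv β k`, `β 0 k i j = B_k(t 0 i, t 0 j) / 2`, `β 1 k i j = B_k(t 0 i, t 1 j)`, `β 2 k i j = B_k(t 1 i, t 1 j) / 2`,
`β 3 k i j = B_k(t 0 i, n' j)`, `β 4 k i j = B_k(t 1 i, n' j)`, `β 5 k i j = B_k(n' i, n' j) / 2` (`MvPolynomial.funext`).  So
`lf u * lf (z k) - fv β k … = F k ∈ I`. -/
def S_Frm : Prop :=
  ∀ I : Ideal (Sx 9), I.IsPrime → IsHom I → (∀ F ∈ I, F.IsHomogeneous 1 → F = 0) → Smooth I 3 →
    5 ≤ Module.finrank ℂ (I2 I) → ∃ x u T z β, GD I x u T z β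

/-! ## Part 2: the normal form -/

/-- (Arc) FORMAL ARCS.

PROOF (closed `UN.tTEx : UN.S_TEx`, `eLoc`/`mLoc`).  `L : Loc I x c`: `UN.Par x L.F L.B` (`L.memF`, `L.injB`, `L.detx`); `UN.S_TEx`: `T`,
`UN.PT x L.F L.B T`.  `T F = 0` for `F ∈ I`: `L.h * F ∈ span (range L.F)` (`L.mul`), so `T (L.h) * T F = 0`, and `T (L.h) ≠ 0` (its constant
coefficient is `C (eval x L.h) ≠ 0`); `(Ay B)[[ε]]` is a domain.  `ψ = (PowerSeries.map (eval (fun j => τ j.1))) ∘ T`, an algebra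
homomorphism to `ℂ[[ε]]`.  The constant coefficient: `c0`.  `v l` = coefficient `1` of `ψ (X l)`.  The coefficient `1` of `ψ F` is
`∑_l ∂_l F (x) v l = dp (grad F x) v` (`MvPolynomial.induction_on`, product rule for the coefficient `1`).  `v j = τ j` for `j ∉ B`
(`PT.var`).  `0 = coeff 1 (ψ (L.F i)) = dp (grad (L.F i) x) v` and `dp (grad (L.F i) x) τ = 0` (`τ ∈ TS I x`), so
`∑_b ∂_(B b) F_i (x) (v - τ)(B b) = 0` for all `i`; `L.detx`: `v = τ`.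
(Another proof: `w ∈ TF I` with `w(x) = τ` (`LI.S_TS`), `D = ∑ w_i ∂_i`, `ψ F = ∑_n (D^n F)(x) / n! ε^n`.) -/
def S_Arc : Prop :=
  ∀ (N c : ℕ) (I : Ideal (Sx N)), I.IsPrime → IsHom I → Smooth I c → ∀ x ∈ zer I, x ≠ 0 →
    ∀ τ ∈ TS I x, ∃ ψ : Sx N →ₐ[ℂ] PowerSeries ℂ, (∀ F ∈ I, ψ F = 0) ∧
      ∀ F, PowerSeries.constantCoeff (ψ F) = eval x F ∧
        PowerSeries.coeff 1 (ψ F) = dp (grad F x) τ

/-- Arcs with arbitrary direction `τ`: `u = X0`, `T = ε Θ`, `z = ε^2 ζ`. -/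
def ArcP (β : Fin 6 → Ar) : Prop :=
  ∀ τ : Fin 2 → Fin 3 → ℂ, ∃ (X0 : PowerSeries ℂ) (Θ : Fin 2 → Fin 3 → PowerSeries ℂ)
    (ζ : Fin 3 → PowerSeries ℂ), PowerSeries.constantCoeff X0 = 1 ∧
    (∀ a i, PowerSeries.constantCoeff (Θ a i) = τ a i) ∧ (∀ a, ∑ k, Θ a k * ζ k = 0) ∧
    ∀ k, X0 * ζ k = bl (β 0) k (Θ 0) (Θ 0) + bl (β 1) k (Θ 0) (Θ 1) + bl (β 2) k (Θ 1) (Θ 1) +
      PowerSeries.X * (bl (β 3) k (Θ 0) ζ + bl (β 4) k (Θ 1) ζ) +
      PowerSeries.X ^ 2 * bl (β 5) k ζ ζ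

/-- (ArP) The arcs in the coordinates of the frame.

PROOF (`S_Bas`, `S_Arc`; closed `mPerp`).  `x ≠ 0` (`ux`).  `S_Bas`: `v` with `dp u v = 0`, `dp (T a i) v = τ a i`, `dp (z k) v = 0`.  `v ∈ TS I x`: the
elements `F_k = lf u * lf (z k) - fv β k …` of `I` have the gradients `z k` at `x` (product rule; `dp u x = 1`, and `T`, `z` vanish at
`x`), the `z k` are independent (`S_Bas`), so they span `CN I x` (`finrank CN I x = 3`, `S_Perp`), and `dp ξ v = 0` for `ξ ∈ CN I x`.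
`S_Arc`: `ψ`.  `X0 = ψ (lf u)`, constant coefficient `dp u x = 1`.  `ψ (lf (T a i))` has the coefficients `0`, `τ a i` in degrees `0`, `1`:
it is `X * Θ a i` (`PowerSeries.X_dvd_iff`), `constantCoeff (Θ a i) = τ a i`.  `ψ (lf (z k))` has the coefficients `0`, `0`: it is
`X^2 * ζ k` (`PowerSeries.X_pow_dvd_iff`).  `ψ (∑_k lf (T a k) * lf (z k)) = 0`: `X^3 * ∑_k Θ a k * ζ k = 0`.  `ψ (F_k) = 0`:
`X0 * X^2 * ζ k = X^2 * (bl (β 0) k Θ_0 Θ_0 + …) + X^3 * (…) + X^4 * bl (β 5) k ζ ζ` (`bl` commutes with algebra homomorphisms and is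
bilinear); cancel `X^2`. -/
def S_ArP : Prop :=
  ∀ I : Ideal (Sx 9), I.IsPrime → IsHom I → Smooth I 3 → ∀ x u T z β, GD I x u T z β → ArcP β

/-- (Q) A QUADRATIC MAP ORTHOGONAL TO `s` AND `t` is a multiple of `s × t`.

PROOF.  `Q_k(s, t) = bl q0 k s s + bl m k s t + bl q1 k t t`.  In `∑ t_k Q_k(s, t) = 0` replace `s` by `λ s`, `λ = 1, -1, 0`:
`∑ t_k (bl q0 k s s) = 0` and `∑ t_k (bl m k s t) = 0`; so `bl q0 k s s = 0` for all `s ∈ ℂ^3` (`t = e_k`).  In the same way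
`bl q1 k t t = 0` and `∑ s_k (bl m k s t) = 0`.  So `q0 k i j + q0 k j i = 0` (`s = e_i + e_j`, `e_i`, `e_j`), the same for `q1`, and
`bl q0 k s s = 0 = bl q1 k t t` over every `A` (expand; `2 • … = 0`, or `Fin.sum_univ_three`).  For `m`: `s = e_i`, `t = e_j`:
`m i i j = 0`, `m j i j = 0`; `s = e_i + e_k`, `t = e_j`: `m k i j + m i k j = 0`; `s = e_i`, `t = e_j + e_k`: `m j i k + m k i j = 0`.  So `m k i j` is
alternating in `k, i, j`, and with `c₀ = m 2 0 1`: `bl m k s t = c₀ • cr3 s t k` (`fin_cases k`, expand). -/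
def S_Q : Prop :=
  ∀ q0 m q1 : Ar, (∀ s t : Fin 3 → ℂ,
    (∑ k, s k * (bl q0 k s s + bl m k s t + bl q1 k t t) = 0) ∧
    ∑ k, t k * (bl q0 k s s + bl m k s t + bl q1 k t t) = 0) →
    ∃ c₀ : ℂ, ∀ (A : Type) [CommRing A] [Algebra ℂ A] (s t : Fin 3 → A) (k : Fin 3),
      bl q0 k s s + bl m k s t + bl q1 k t t = c₀ • cr3 s t k

/-- (Bl) A BILINEAR MAP with `β(s, z) ∥ z` for `s · z = 0`.

PROOF.  `i, j, l` different.  `s = e_i`, `z = e_j`: (a) `β k i j = 0` for `k ≠ j` (`i ≠ j`).  `s = e_i`, `z = e_j + e_l`, coordinates `j`, `l`: with (a)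
`β l i l = β j i j =: h i` (b).  `s = e_i - e_j`, `z = e_i + e_j`: (c) for `k ≠ i, j`: `β k i i = β k j j`; coordinates `i`, `j`:
`β i i i - h j - β i j j = β j i i + h i - β j j j` (d).  `s = e_i + e_j`, `z = e_i - e_j`: coordinates `i`, `j`:
`β j i i - h i - β j j j = - (β i i i + h j - β i j j)` (e).  With `A = β i i i - β i j j`, `B = β j i i - β j j j`: `A - B = h i + h j`, `A + B = h i - h j`, so
`A = h i`.  `w k = β k i i` (`i ≠ k`; it does not depend on `i` by (c)), and `β k k k = h k + w k`.  So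
`β k i j = (if k = j then h i else 0) + (if i = j then w k else 0)` for all `k, i, j`; expand. -/
def S_Bl : Prop :=
  ∀ β : Ar, (∀ s z : Fin 3 → ℂ, ∑ i, s i * z i = 0 → ∀ k l, z k * bl β l s z = z l * bl β k s z) →
    ∃ h w : Fin 3 → ℂ, ∀ (A : Type) [CommRing A] [Algebra ℂ A] (s z : Fin 3 → A) (k : Fin 3),
      bl β k s z = (∑ i, h i • s i) * z k + w k • ∑ i, s i * z i

/-- (Gm) A QUADRATIC MAP with `γ(z) ∥ z`.

PROOF.  `z = e_i`: `γ k i i = 0` for `k ≠ i`.  `i ≠ j`, `G k = γ k i j + γ k j i`.  `z = e_i + e_j`: `G k = 0` for `k ≠ i, j`, and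
`G j + γ j j j = γ i i i + G i`.  `z = e_i - e_j`: `- G j + γ j j j = - (γ i i i - G i)`.  So `G i = γ j j j`, `G j = γ i i i`.  `g i = γ i i i`; expand
(`fin_cases k`, `Fin.sum_univ_three`). -/
def S_Gm : Prop :=
  ∀ γ : Ar, (∀ z : Fin 3 → ℂ, ∀ k l, z k * bl γ l z z = z l * bl γ k z z) →
    ∃ g : Fin 3 → ℂ, ∀ (A : Type) [CommRing A] [Algebra ℂ A] (z : Fin 3 → A) (k : Fin 3),
      bl γ k z z = (∑ i, g i • z i) * z k

/-- (NF) THE NORMAL FORM (pure algebra).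

PROOF (`S_Q`, `S_Bl`, `S_Gm`).  (0) If `s ≠ 0` and `∑ s_i z_i = 0` there is `t` with `cr3 s t = z`: `s_i ≠ 0`: `t_i = 0`, `t_(i+1) = z_(i+2) / s_i`,
`t_(i+2) = - z_(i+1) / s_i`.  `∑ s_k cr3 s t k = 0 = ∑ t_k cr3 s t k` (in every ring).  If `∑ s_k v_k = 0 = ∑ t_k v_k` and `z = cr3 s t` then
`z_k v_l = z_l v_k` for all `k, l` (`z × v = t (s · v) - s (t · v)`).  `Q_k(s, t) = bl (β 0) k s s + bl (β 1) k s t + bl (β 2) k t t`.
(1) Let `τ = (s, t)` and `X0, Θ, ζ` as in `ArcP`.  `0 = X0 * ∑_k Θ a k * ζ k = ∑_k Θ a k * (X0 * ζ k)`; constant coefficients: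
`∑_k τ a k * Q_k(s, t) = 0`.  `S_Q`: `c₀`; `c₀ ≠ 0` by the second hypothesis.  Constant coefficient of `X0 * ζ k`: `ζ(0) = c₀ N`,
`N = cr3 s t`.
(2) In `ℂ[[ε]]`: `Q_k(Θ_0, Θ_1) = c₀ • cr3 Θ_0 Θ_1 k` is orthogonal to `Θ_a`, so the formula of (1) gives, after division by `X`:
(∗) `∑_k Θ a k * (bl (β 3) k Θ_0 ζ + bl (β 4) k Θ_1 ζ) + X * ∑_k Θ a k * bl (β 5) k ζ ζ = 0`.  Constant coefficient, divided by `c₀`:
(∗∗) `∑_k τ a k * (bl (β 3) k s N + bl (β 4) k t N) = 0` for `a = 0, 1` and ALL `s, t`, `N = cr3 s t`.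
(3) `β 3` satisfies the hypothesis of `S_Bl`: let `∑ s_i z_i = 0`, `s ≠ 0` (`s = 0` is clear), `t'` with `cr3 t' s = z` (by (0): `cr3 t' s = - cr3 s t'`).
(∗∗) for the pairs `(t' + λ s, s)`, whose cross product is `z` for all `λ ∈ {0, 1, -1}`.  `a = 1`: `∑ s_k (bl (β 3) k t' z + λ bl (β 3) k s z +
bl (β 4) k s z) = 0`, so `∑ s_k bl (β 3) k s z = 0` and (α) `∑ s_k (bl (β 3) k t' z + bl (β 4) k s z) = 0`.  `a = 0`:
`∑ (t' + λ s)_k (bl (β 3) k t' z + λ bl (β 3) k s z + bl (β 4) k s z) = 0`; the coefficient of `λ` is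
`∑ s_k (bl (β 3) k t' z + bl (β 4) k s z) + ∑ t'_k bl (β 3) k s z = 0`, so by (α) `∑ t'_k bl (β 3) k s z = 0`.  Now (0).  In the same way `β 4`, with
the pairs `(s, t + λ s)`, `cr3 s t = z`.  `S_Bl`: `h 0, w 0` for `β 3` and `h 1, w 1` for `β 4`.
(4) In `ℂ[[ε]]`: `bl (β 3) k Θ_0 ζ = (∑ h 0 i • Θ 0 i) * ζ k + w 0 k • ∑ Θ 0 i * ζ i`, the last sum is `0`, and `∑_k Θ a k * ζ k = 0`: the first
sum in (∗) is `0`.  So `∑_k Θ a k * bl (β 5) k ζ ζ = 0`, constant coefficient (divided by `c₀^2`): `∑_k τ a k * bl (β 5) k N N = 0`.  For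
`z ∈ ℂ^3`: there are `s ≠ 0` with `∑ s_i z_i = 0` and `t` with `cr3 s t = z` (0), so `β 5` satisfies the hypothesis of `S_Gm`: `g`.
(5) Add up. -/
def S_NF : Prop :=
  ∀ β : Fin 6 → Ar, ArcP β →
    (∃ (s t : Fin 3 → ℂ) (k : Fin 3), bl (β 0) k s s + bl (β 1) k s t + bl (β 2) k t t ≠ 0) →
    ∃ (c₀ : ℂ) (h w : Fin 2 → Fin 3 → ℂ) (g : Fin 3 → ℂ), c₀ ≠ 0 ∧
      ∀ (A : Type) [CommRing A] [Algebra ℂ A] (T : Fin 2 → Fin 3 → A) (z : Fin 3 → A) (k : Fin 3),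
        fv β k T z = c₀ • cr3 (T 0) (T 1) k +
          ((∑ a, ∑ i, h a i • T a i) + ∑ i, g i • z i) * z k + ∑ a, w a k • ∑ i, T a i * z i

/-- (Qn) THE QUADRATIC PART IS NOT `0`.

PROOF (`S_Bas`).  Otherwise `bl (β 0) k s s + bl (β 1) k s t + bl (β 2) k t t = 0` for all `s, t ∈ ℂ^3`, so (`MvPolynomial.funext`)
`F_k = lf u * lf (z k) - fv β k … = ∑_j M_(k j) * lf (z j)`, with
`M_(k j) = (if k = j then lf u else 0) - ∑_i (β 3 k i j • lf (T 0 i) + β 4 k i j • lf (T 1 i) + β 5 k i j • lf (z i))`.  `M_(k j)(x) = δ_(k j)`, so `(det M)(x) = 1`,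
`det M ∉ I` (`x ∈ zer I`).  `det M * lf (z j) = ∑_k (adj M)_(j k) F_k ∈ I` (`Matrix.adjugate_mul`), so `lf (z j) ∈ I`, `lf (z j) = 0` (third hypothesis;
`lf` is a form of degree `1`), `dp (z j) v = 0` for all `v`: contradiction to `S_Bas`. -/
def S_Qn : Prop :=
  ∀ I : Ideal (Sx 9), I.IsPrime → (∀ F ∈ I, F.IsHomogeneous 1 → F = 0) →
    ∀ x u T z β, GD I x u T z β →
    ∃ (s t : Fin 3 → ℂ) (k : Fin 3), bl (β 0) k s s + bl (β 1) k s t + bl (β 2) k t t ≠ 0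

/-- THE PLUECKER FRAME. -/
structure PD (I : Ideal (Sx 9)) (x u : Vx 9) (T : Fin 2 → Fin 3 → Vx 9) (z : Fin 3 → Vx 9) :
    Prop where
  xI : x ∈ zer I
  ux : dp u x = 1
  Tx : ∀ a i, dp (T a i) x = 0
  zx : ∀ k, dp (z k) x = 0
  nz : Nz u T z
  F : ∀ k, lf u * lf (z k) - cr3 (fun i => lf (T 0 i)) (fun i => lf (T 1 i)) k ∈ I
  G : ∀ a, ∑ k, lf (T a k) * lf (z k) ∈ I

/-- (Pd) THE PLUECKER FRAME EXISTS.

PROOF (`S_Frm`, `S_ArP`, `S_NF`, `S_Qn`).  `S_Frm`: `x, u, T, z, β`.  `S_ArP`, `S_Qn`, `S_NF`: `c₀, h, w, g`.  For `A = Sx 9`: `F_k = lf u * lf (z k) - fv β k … ∈ I`, so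
with `u' = u - ∑_(a, i) h a i • T a i - ∑_i g i • z i` and the `G a ∈ I`: `lf u' * lf (z k) - c₀ • cr3 … k = F_k + ∑_a w a k • G a ∈ I`.
`z' k = c₀⁻¹ • z k`: `lf u' * lf (z' k) - cr3 … k ∈ I`, `∑_k lf (T a k) * lf (z' k) = c₀⁻¹ • G a ∈ I`.  `dp u' x = dp u x = 1`.  `Nz u' T z'`: if all forms
vanish at `v`, then `z` and `T` vanish, so `dp u v = dp u' v = 0`. -/
def S_Pd : Prop :=
  ∀ I : Ideal (Sx 9), I.IsPrime → IsHom I → (∀ F ∈ I, F.IsHomogeneous 1 → F = 0) → Smooth I 3 →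
    5 ≤ Module.finrank ℂ (I2 I) → ∃ x u T z, PD I x u T z

/-! ## Part 3: the Grassmannian -/

/-- The skew symmetric matrix with the entries `u`, `T a i`, `± z k`. -/
def Pm (u : ℂ) (T : Fin 2 → Fin 3 → ℂ) (z : Fin 3 → ℂ) : Matrix (Fin 5) (Fin 5) ℂ :=
  !![0, u, T 0 0, T 0 1, T 0 2;
     -u, 0, T 1 0, T 1 1, T 1 2;
     -T 0 0, -T 1 0, 0, z 2, -z 1;
     -T 0 1, -T 1 1, -z 2, 0, z 0;
     -T 0 2, -T 1 2, z 1, -z 0, 0]

/-- The bivector `a ∧ b`. -/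
def wdg (a b : Fin 5 → ℂ) : Matrix (Fin 5) (Fin 5) ℂ := Matrix.of fun i j => a i * b j - a j * b i

/-- (Dec) DECOMPOSABLE BIVECTORS.

PROOF.  `M = Pm u T z`.  `⟸`: the entries of `wdg a b` are the `p i j = a i * b j - a j * b i`; read off `u = p 0 1`, `T a i = p a (i+2)`,
`z 2 = p 2 3`, `z 1 = - p 2 4`, `z 0 = p 3 4` from the matrix identity; the five identities are Pluecker's relations (`ring` for each
`k`, `a`).  `⟹`: the five relations say `M i j * M k l - M i k * M j l + M i l * M j k = 0` for the five `i < j < k < l`; for all `i, j, k, l` it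
follows, because this expression is alternating for a skew symmetric `M` and `0` if two of the indices are equal
(`fin_cases` on the four indices and `linear_combination`, or: reduce to a sorted quadruple).  If `M = 0`: `a = b = 0`.
Otherwise `M i j ≠ 0` for some `i, j`: `a = M i`, `b = (M i j)⁻¹ • M j`: `a k * b l - a l * b k = (M i j)⁻¹ (M i k * M j l - M i l * M j k) = M k l`. -/
def S_Dec : Prop :=
  ∀ (u : ℂ) (T : Fin 2 → Fin 3 → ℂ) (z : Fin 3 → ℂ),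
    ((∀ k, u * z k = cr3 (T 0) (T 1) k) ∧ ∀ a, ∑ k, T a k * z k = 0) ↔
      ∃ a b : Fin 5 → ℂ, Pm u T z = wdg a b

/-- (Cls) `X` CONTAINS ALL DECOMPOSABLE BIVECTORS.

PROOF (`S_Fld`, `S_Bas`, `S_Dec`).  `F_k = lf u * lf (z k) - cr3 … k ∈ I` has the gradient `z k` at `x` (product rule: `dp u x = 1`, `T` and `z` vanish at `x`), and
the `z k` are independent (`S_Bas`).  `S_Fld`: `h` with `h(x) ≠ 0` and `h G ∈ span F` for `G ∈ I`.  `P y` = the matrix `Pm` of the values at `y`; `P` is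
linear, injective (`Nz`), and its image is the set of all `Pm r A Z` (`S_Bas`), so it contains every `wdg a b` (which is skew
symmetric).  `P x = wdg e_0 e_1` (`e_i = Pi.single i 1`).  Let `P y = wdg a b`, `a' = a - e_0`, `b' = b - e_1`; choose `y₁`, `y₂` with
`P y₁ = wdg a' e_1 + wdg e_0 b'`, `P y₂ = wdg a' b'`.  For `t ∈ ℂ`: `y(t) = x + t y₁ + t^2 y₂` has `P y(t) = wdg (e_0 + t a') (e_1 + t b')`, so
`F_k(y(t)) = 0` (`S_Dec`, `⟸`), and `h(y(t)) G(y(t)) = 0` for all `t`.  `φ : Sx 9 → ℂ[t]`, `X i ↦ C (x i) + C (y₁ i) t + C (y₂ i) t^2`: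
`φ h * φ G = 0` (all values vanish; or `φ F_k = 0`), `φ h ≠ 0` (value `h(x)` at `t = 0`): `φ G = 0`, value at `t = 1`: `G(y(1)) = 0`, and `y(1) = y`
(`P y(1) = wdg a b = P y`). -/
def S_Cls : Prop :=
  ∀ I : Ideal (Sx 9), I.IsPrime → IsHom I → Smooth I 3 → ∀ x u T z, PD I x u T z →
    ∀ (y : Vx 9) (a b : Fin 5 → ℂ),
    Pm (dp u y) (fun a i => dp (T a i) y) (fun k => dp (z k) y) = wdg a b → y ∈ zer I

/-- (GR3) `X` IS THE GRASSMANNIAN `G(1,4)`.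

PROOF (`S_Pd`, `S_Dec`, `S_Cls`).  `S_Pd`: the frame.  `P y = Pm (dp u y) (dp (T a i) y) (dp (z k) y)`, linear in `y`, injective (`Nz`: the entries determine the ten
values), skew symmetric.  `y ∈ zer I`: the five elements of `I` vanish at `y`, `S_Dec` (`⟹`).  The converse is `S_Cls`. -/
def S_GR3 : Prop :=
  ∀ I : Ideal (Sx 9), I.IsPrime → IsHom I → (∀ F ∈ I, F.IsHomogeneous 1 → F = 0) → Smooth I 3 →
    5 ≤ Module.finrank ℂ (I2 I) →
    ∃ P : Vx 9 →ₗ[ℂ] Matrix (Fin 5) (Fin 5) ℂ, Function.Injective P ∧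
      (∀ y, (P y).transpose = - P y) ∧ ∀ y, y ∈ zer I ↔ ∃ a b : Fin 5 → ℂ, P y = wdg a b

end Pool.Agent.Lib.MP_776403_ag.SD.GR
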