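import Pool.Agent.Lib.MP_776403_ag.SD.GR.Spec
import Pool.Agent.Lib.MP_776403_ag.SD.LI.TS
import Pool.Agent.Lib.MP_776403_ag.SD.Main

/-!
# Case `deg X = 5`, `n = 6`, `c = 3`, module ArP: the arcs in the coordinates of the frame (helper27)
-/

set_option autoImplicit false

open MvPolynomial

noncomputable section

namespace Pool.Agent.Lib.MP_776403_ag.SD.GR

open LI E2 LI.TSAux

namespace ArPAux

variable {N : ℕ}

theorem ev_lf (a y : Vx N) : eval y (lf a) = dp a y := by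
  unfold lf dp
  rw [map_sum]
  refine Finset.sum_congr rfl fun i _ => ?_
  rw [map_mul, eval_C, eval_X]

theorem grad_lf (a y : Vx N) : grad (lf a) y = a := by
  unfold lf
  rw [grad_sum]
  have h : ∀ i : Fin (N + 1), grad (C (a i) * X i : Sx N) y = Pi.single i (a i) := by
    intro i
    rw [grad_C_mul]
    funext j
    simp only [grad, Pi.smul_apply, smul_eq_mul, Pi.single_apply]
    by_cases hj : j = i
    · subst hj
      simp
    · rw [pderiv_X_of_ne (Ne.symm hj), map_zero, mul_zero, if_neg hj]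
  simp only [h]
  funext j
  rw [Finset.sum_apply]
  simp [Pi.single_apply]

theorem ev_bl (β : Ar) (k : Fin 3) (s t : Fin 3 → Sx N) (y : Vx N) (hs : ∀ i, eval y (s i) = 0) :
    eval y (bl β k s t) = 0 := by
  unfold bl
  rw [map_sum]
  refine Finset.sum_eq_zero fun i _ => ?_
  rw [map_sum]
  refine Finset.sum_eq_zero fun j _ => ?_
  rw [MvPolynomial.smul_eval, map_mul, hs, zero_mul, mul_zero]

theorem grad_bl (β : Ar) (k : Fin 3) (s t : Fin 3 → Sx N) (y : Vx N) (hs : ∀ i, eval y (s i) = 0)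
    (ht : ∀ i, eval y (t i) = 0) : grad (bl β k s t) y = 0 := by
  unfold bl
  rw [grad_sum]
  refine Finset.sum_eq_zero fun i _ => ?_
  rw [grad_sum]
  refine Finset.sum_eq_zero fun j _ => ?_
  rw [MvPolynomial.smul_eq_C_mul, grad_C_mul, grad_mul, hs, ht, zero_smul, zero_smul, add_zero, smul_zero]

theorem grad_fv (β : Fin 6 → Ar) (k : Fin 3) (T : Fin 2 → Fin 3 → Sx N) (z : Fin 3 → Sx N)
    (y : Vx N) (hT : ∀ a i, eval y (T a i) = 0) (hz : ∀ i, eval y (z i) = 0) :
    grad (fv β k T z) y = 0 := by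
  unfold fv
  simp only [grad_add]
  rw [grad_bl _ _ _ _ _ (hT 0) (hT 0), grad_bl _ _ _ _ _ (hT 0) (hT 1),
    grad_bl _ _ _ _ _ (hT 1) (hT 1), grad_bl _ _ _ _ _ (hT 0) hz,
    grad_bl _ _ _ _ _ (hT 1) hz, grad_bl _ _ _ _ _ hz hz]
  simp

theorem bl_map {A B : Type} [CommRing A] [Algebra ℂ A] [CommRing B] [Algebra ℂ B]
    (φ : A →ₐ[ℂ] B) (β : Ar) (k : Fin 3) (s t : Fin 3 → A) :
    φ (bl β k s t) = bl β k (fun i => φ (s i)) (fun i => φ (t i)) := by
  unfold bl
  rw [map_sum]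
  refine Finset.sum_congr rfl fun i _ => ?_
  rw [map_sum]
  refine Finset.sum_congr rfl fun j _ => ?_
  rw [map_smul, map_mul]

theorem bl_mul {A : Type} [CommRing A] [Algebra ℂ A] (β : Ar) (k : Fin 3) (a b : A)
    (s t : Fin 3 → A) :
    bl β k (fun i => a * s i) (fun i => b * t i) = a * b * bl β k s t := by
  unfold bl
  rw [Finset.mul_sum]
  refine Finset.sum_congr rfl fun i _ => ?_
  rw [Finset.mul_sum]
  refine Finset.sum_congr rfl fun j _ => ?_
  rw [mul_smul_comm]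
  congr 1
  ring

/-- The vector `v` is tangent. -/
theorem tang {I : Ideal (Sx 9)} (hI : I.IsPrime) (hh : IsHom I) (hS : Smooth I 3)
    {x u : Vx 9} {T : Fin 2 → Fin 3 → Vx 9} {z : Fin 3 → Vx 9} {β : Fin 6 → Ar}
    (h : GD I x u T z β) (hB : S_Bas) (x0 : x ≠ 0) (v : Vx 9) (hv : ∀ k, dp (z k) v = 0) :
    v ∈ TS I x := by
  obtain ⟨h1, h2, h3, -⟩ := mPerp 9 3 I hI hh hS x h.xI x0
  have hzi : LinearIndependent ℂ z := by
    rw [Fintype.linearIndependent_iff]
    intro g hg i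
    obtain ⟨w, -, -, hw⟩ := hB u T z h.nz 0 0 (Pi.single i 1)
    have e : dp (∑ k, g k • z k) w = g i := by
      rw [sum_dp]
      simp only [smul_dp, hw]
      simp [Pi.single_apply]
    rw [← e, hg]
    simp [dp]
  have hzC : ∀ k, z k ∈ CN I x := by
    intro k
    have e := h2 _ (h.F k)
    rw [grad_sub, grad_fv _ _ _ _ _ (fun a i => by rw [ev_lf, h.Tx])
      (fun i => by rw [ev_lf, h.zx]), sub_zero, grad_mul, ev_lf, ev_lf, grad_lf, grad_lf, h.ux,
      h.zx, zero_smul, add_zero, one_smul] at e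
    exact e
  have hle : Submodule.span ℂ (Set.range z) ≤ CN I x := by
    rw [Submodule.span_le]
    rintro _ ⟨k, rfl⟩
    exact hzC k
  have heq : Submodule.span ℂ (Set.range z) = CN I x := by
    refine Submodule.eq_of_le_of_finrank_eq hle ?_
    rw [h1, finrank_span_eq_card hzi, Fintype.card_fin]
  intro F hF
  have hm := h2 F hF
  rw [← heq] at hm
  generalize grad F x = ξ₀ at hm ⊢
  induction hm using Submodule.span_induction with
  | mem ξ hξ =>
    obtain ⟨k, rfl⟩ := hξ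
    exact hv k
  | zero => simp [dp]
  | add a b _ _ ha hb => rw [add_dp, ha, hb, add_zero]
  | smul r a _ ha => rw [smul_dp, ha, mul_zero]

end ArPAux

open ArPAux

/-- (ArP) The arcs in the coordinates of the frame. -/
theorem tArP : S_Bas → S_Arc → S_ArP := by
  intro hB hA I hI hh hS x u T z β h τ
  have x0 : x ≠ 0 := by
    rintro rfl
    have e := h.ux
    simp [dp] at e
  obtain ⟨v, hu, hT, hz⟩ := hB u T z h.nz 0 τ 0
  have hv : v ∈ TS I x := tang hI hh hS h hB x0 v hz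
  obtain ⟨ψ, hψ0, hψ⟩ := hA 9 3 I hI hh hS x h.xI x0 v hv
  have hTX : ∀ a i, ∃ θ : PowerSeries ℂ, ψ (lf (T a i)) = PowerSeries.X * θ := by
    intro a i
    have e : PowerSeries.X ∣ ψ (lf (T a i)) := by
      rw [PowerSeries.X_dvd_iff, (hψ _).1, ev_lf, h.Tx]
    exact e
  choose Θ hΘ using hTX
  have hzX : ∀ k, ∃ ζ : PowerSeries ℂ, ψ (lf (z k)) = PowerSeries.X ^ 2 * ζ := by
    intro k
    have e : PowerSeries.X ^ 2 ∣ ψ (lf (z k)) := by
      rw [PowerSeries.X_pow_dvd_iff]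
      intro m hm
      interval_cases m
      · rw [PowerSeries.coeff_zero_eq_constantCoeff_apply, (hψ _).1, ev_lf, h.zx]
      · rw [(hψ _).2, grad_lf, hz]
        rfl
    exact e
  choose ζ hζ using hzX
  have hX : (PowerSeries.X : PowerSeries ℂ) ≠ 0 := PowerSeries.X_ne_zero
  refine ⟨ψ (lf u), Θ, ζ, ?_, ?_, ?_, ?_⟩
  · rw [(hψ _).1, ev_lf, h.ux]
  · intro a i
    have e := (hψ (lf (T a i))).2
    rw [hΘ, grad_lf, hT, ← zero_add 1, PowerSeries.coeff_succ_X_mul,
      PowerSeries.coeff_zero_eq_constantCoeff_apply] at e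
    exact e
  · intro a
    have e := hψ0 _ (h.G a)
    rw [map_sum] at e
    have e2 : (PowerSeries.X : PowerSeries ℂ) ^ 3 * ∑ k, Θ a k * ζ k = 0 := by
      rw [← e, Finset.mul_sum]
      refine Finset.sum_congr rfl fun k _ => ?_
      rw [map_mul, hΘ, hζ]
      ring
    exact (mul_eq_zero.mp e2).resolve_left (pow_ne_zero 3 hX)
  · intro k
    have e := hψ0 _ (h.F k)
    rw [map_sub, map_mul, sub_eq_zero, hζ] at e
    unfold fv at e
    simp only [map_add, bl_map, hΘ, hζ, bl_mul] at e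
    have e2 : (PowerSeries.X : PowerSeries ℂ) ^ 2 * (ψ (lf u) * ζ k) =
        PowerSeries.X ^ 2 * (bl (β 0) k (Θ 0) (Θ 0) + bl (β 1) k (Θ 0) (Θ 1) +
          bl (β 2) k (Θ 1) (Θ 1) +
          PowerSeries.X * (bl (β 3) k (Θ 0) ζ + bl (β 4) k (Θ 1) ζ) +
          PowerSeries.X ^ 2 * bl (β 5) k ζ ζ) := by
      linear_combination e
    exact mul_left_cancel₀ (pow_ne_zero 2 hX) e2

end Pool.Agent.Lib.MP_776403_ag.SD.GR
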