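import Pool.Agent.Lib.MP_776403_ag.SD.GR.Spec
import Pool.Agent.Lib.MP_776403_ag.SD.UN.TEx
import Pool.Agent.Lib.MP_776403_ag.SD.E.Loc

/-!
# Case `G(1,4)`, module Arc: formal arcs
-/

set_option autoImplicit false

open MvPolynomial

noncomputable section

namespace Pool.Agent.Lib.MP_776403_ag.SD.GR

open LI E2

namespace ArcAux

variable {N : ℕ}

theorem grad_add (F G : Sx N) (x : Vx N) (v : Vx N) :
    dp (grad (F + G) x) v = dp (grad F x) v + dp (grad G x) v := by
  simp only [dp, grad, map_add, add_mul, Finset.sum_add_distrib]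

theorem grad_mul_X (F : Sx N) (i : Fin (N + 1)) (x : Vx N) (v : Vx N) :
    dp (grad (F * X i) x) v = dp (grad F x) v * x i + v i * eval x F := by
  simp only [dp, grad, Derivation.leibniz, smul_eq_mul, map_add, map_mul, eval_X, pderiv_X,
    add_mul, Finset.sum_add_distrib]
  have h : ∑ j, eval x F * eval x ((Pi.single j 1 : Fin (N + 1) → Sx N) i) * v j = v i * eval x F := by
    rw [Finset.sum_eq_single i]
    · simp [mul_comm]
    · intro j _ hj
      rw [Pi.single_eq_of_ne (Ne.symm hj)]
      simp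
    · intro h
      exact absurd (Finset.mem_univ i) h
  rw [h, Finset.sum_mul, add_comm]
  congr 1
  exact Finset.sum_congr rfl fun j _ => by ring

/-- The coefficient `1` along an arc. -/
theorem coef1 (x : Vx N) (ψ : Sx N →ₐ[ℂ] PowerSeries ℂ)
    (h0 : ∀ F, PowerSeries.constantCoeff (ψ F) = eval x F) (F : Sx N) :
    PowerSeries.coeff 1 (ψ F) = dp (grad F x) fun l => PowerSeries.coeff 1 (ψ (X l)) := by
  induction F using MvPolynomial.induction_on with
  | C a =>
    have h1 : ψ (C a) = PowerSeries.C a := by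
      have := ψ.commutes a
      rw [MvPolynomial.algebraMap_eq] at this
      rw [this, PowerSeries.algebraMap_apply]
      rfl
    rw [h1, PowerSeries.coeff_C]
    simp [dp, grad]
  | add p q hp hq => rw [map_add, map_add, hp, hq, grad_add]
  | mul_X p i hp =>
    rw [map_mul, PowerSeries.coeff_one_mul, hp, h0, h0, eval_X, grad_mul_X]

end ArcAux

open ArcAux in
theorem tArc : S_Arc := by
  intro N c I hI _ hS x hx hx0 τ hτ
  obtain ⟨L⟩ := eLoc N c I hS x hx hx0
  have hP : UN.Par x L.F L.B := ⟨fun i => hx _ (L.memF i), L.injB, L.detx⟩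
  obtain ⟨T, hT⟩ := UN.tTEx N c x L.F L.B hP
  have hT0 : ∀ F ∈ I, T F = 0 := by
    intro F hF
    have h1 : T (L.h * F) = 0 := by
      have h2 : Ideal.span (Set.range L.F) ≤ RingHom.ker (T : Sx N →+* PowerSeries (UN.Ay L.B)) := by
        rw [Ideal.span_le]
        rintro _ ⟨i, rfl⟩
        exact hT.zero i
      exact h2 (L.mul F hF)
    rw [map_mul] at h1
    rcases mul_eq_zero.1 h1 with h3 | h3
    · exfalso
      have h4 := hT.c0 L.h
      rw [h3, map_zero] at h4
      exact L.hx ((C_injective (UN.Bn L.B) ℂ) (by rw [← h4, C_0]))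
    · exact h3
  let φ : PowerSeries (UN.Ay L.B) →ₐ[ℂ] PowerSeries ℂ :=
    PowerSeries.mapAlgHom (aeval (fun j : UN.Bn L.B => τ j.1))
  have hφ : ∀ (n : ℕ) (p : PowerSeries (UN.Ay L.B)), PowerSeries.coeff n (φ p) =
      aeval (fun j : UN.Bn L.B => τ j.1) (PowerSeries.coeff n p) := fun n p => by
    exact PowerSeries.coeff_map (aeval (fun j : UN.Bn L.B => τ j.1) :
      UN.Ay L.B →ₐ[ℂ] ℂ).toRingHom n p
  have h0 : ∀ F, PowerSeries.constantCoeff ((φ.comp T) F) = eval x F := by
    intro F
    rw [AlgHom.comp_apply, ← PowerSeries.coeff_zero_eq_constantCoeff_apply, hφ, hT.c0, aeval_C]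
    rfl
  refine ⟨φ.comp T, fun F hF => by rw [AlgHom.comp_apply, hT0 F hF, map_zero], fun F => ⟨h0 F, ?_⟩⟩
  rw [coef1 x (φ.comp T) h0 F]
  have hv : (fun l => PowerSeries.coeff 1 ((φ.comp T) (X l))) = τ := by
    set v : Vx N := fun l => PowerSeries.coeff 1 ((φ.comp T) (X l)) with hvdef
    have hj : ∀ j : Fin (N + 1), j ∉ Set.range L.B → v j = τ j := by
      intro j hj
      rw [hvdef]
      show PowerSeries.coeff 1 (φ (T (X j))) = τ j
      rw [hφ, hT.var ⟨j, hj⟩, map_add, PowerSeries.coeff_C, PowerSeries.coeff_C_mul,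
        PowerSeries.coeff_one_X]
      simp
    have hw : (fun b => v (L.B b) - τ (L.B b)) = (0 : Fin c → ℂ) := by
      have hdet : (Matrix.of fun i b => eval x (pderiv (L.B b) (L.F i))).det ≠ 0 := by
        have := L.detx
        rw [RingHom.map_det] at this
        exact this
      refine Matrix.eq_zero_of_mulVec_eq_zero hdet ?_
      funext i
      have h1 : dp (grad (L.F i) x) v = 0 := by
        rw [hvdef, ← coef1 x (φ.comp T) h0 (L.F i), AlgHom.comp_apply, hT.zero, map_zero, map_zero]
      have h2 : dp (grad (L.F i) x) τ = 0 := hτ _ (L.memF i)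
      have h3 : ∑ l, eval x (pderiv l (L.F i)) * (v l - τ l) = 0 := by
        simp only [dp, grad] at h1 h2
        simp only [mul_sub, Finset.sum_sub_distrib, h1, h2, sub_zero]
      have h4 : ∑ l, eval x (pderiv l (L.F i)) * (v l - τ l) =
          ∑ b, eval x (pderiv (L.B b) (L.F i)) * (v (L.B b) - τ (L.B b)) := by
        rw [← Finset.sum_subset (Finset.subset_univ (Finset.univ.image L.B)),
          Finset.sum_image fun a _ b _ h => L.injB h]
        intro l _ hl
        rw [hj l (fun ⟨b, hb⟩ => hl (Finset.mem_image.2 ⟨b, Finset.mem_univ b, hb⟩)), sub_self,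
          mul_zero]
      rw [h4] at h3
      simpa [Matrix.mulVec, dotProduct] using h3
    funext l
    by_cases hl : l ∈ Set.range L.B
    · obtain ⟨b, rfl⟩ := hl
      exact sub_eq_zero.1 (congrFun hw b)
    · exact hj l hl
  rw [hv]

end Pool.Agent.Lib.MP_776403_ag.SD.GR
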