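import Pool.Agent.Lib.MP_776403_ag.SD.GR.Spec

/-!
# Ten linear forms are a basis (`S_Bas`) (helper90)
-/

set_option autoImplicit false

open MvPolynomial

noncomputable section

namespace Pool.Agent.Lib.MP_776403_ag.SD.GR

open LI E2

namespace BasAux

/-- `dp a` as a linear map. -/
def dl (a : Vx 9) : Vx 9 →ₗ[ℂ] ℂ where
  toFun v := dp a v
  map_add' v w := by
    simp only [dp, Pi.add_apply, mul_add, Finset.sum_add_distrib]
  map_smul' c v := by
    simp only [dp, Pi.smul_apply, smul_eq_mul, Finset.mul_sum, RingHom.id_apply]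
    exact Finset.sum_congr rfl fun i _ => by ring

/-- The evaluation map. -/
def ev (u : Vx 9) (T : Fin 2 → Fin 3 → Vx 9) (z : Fin 3 → Vx 9) :
    Vx 9 →ₗ[ℂ] (ℂ × (Fin 2 → Fin 3 → ℂ) × (Fin 3 → ℂ)) :=
  (dl u).prod ((LinearMap.pi fun a => LinearMap.pi fun i => dl (T a i)).prod
    (LinearMap.pi fun k => dl (z k)))

end BasAux

open BasAux in
/-- (Bas) Ten linear forms without common zero are a basis. -/
theorem tBas : S_Bas := by
  intro u T z hN r A Z
  have hinj : Function.Injective (ev u T z) := by
    rw [injective_iff_map_eq_zero]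
    intro v hv
    have h1 := congrArg Prod.fst hv
    have h2 := congrArg (fun p => p.2.1) hv
    have h3 := congrArg (fun p => p.2.2) hv
    exact hN v h1 (fun a i => congrFun (congrFun h2 a) i) (fun k => congrFun h3 k)
  have hfr : Module.finrank ℂ (Vx 9) =
      Module.finrank ℂ (ℂ × (Fin 2 → Fin 3 → ℂ) × (Fin 3 → ℂ)) := by
    have e1 : Module.finrank ℂ (Vx 9) = 10 := by
      show Module.finrank ℂ (Fin (9 + 1) → ℂ) = 10
      rw [Module.finrank_fintype_fun_eq_card, Fintype.card_fin]
    have e2 : Module.finrank ℂ (Fin 2 → Fin 3 → ℂ) = 6 := by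
      rw [Module.finrank_pi_fintype]
      simp only [Module.finrank_fintype_fun_eq_card, Fintype.card_fin, Finset.sum_const,
        Finset.card_univ, smul_eq_mul]
    rw [e1, Module.finrank_prod, Module.finrank_prod, e2, Module.finrank_self,
      Module.finrank_fintype_fun_eq_card, Fintype.card_fin]
  have hsur := (LinearMap.injective_iff_surjective_of_finrank_eq_finrank hfr).1 hinj
  obtain ⟨v, hv⟩ := hsur (r, A, Z)
  have h1 := congrArg Prod.fst hv
  have h2 := congrArg (fun p => p.2.1) hv
  have h3 := congrArg (fun p => p.2.2) hv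
  exact ⟨v, h1, fun a i => congrFun (congrFun h2 a) i, fun k => congrFun h3 k⟩

end Pool.Agent.Lib.MP_776403_ag.SD.GR
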