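import Pool.Agent.Lib.MP_776403_ag.SD.GR.Spec

/-!
# MP_776403_ag, `SD/GR`, module `Bl`: a bilinear map with `β(s, z)` parallel to `z` (helper65)
-/

set_option autoImplicit false

open MvPolynomial

noncomputable section

namespace Pool.Agent.Lib.MP_776403_ag.SD.GR

open LI E2

namespace BlAux

/-- the expanded coordinate `k` of `β(s, z)` -/
def ex (β : Ar) (k : Fin 3) (s0 s1 s2 z0 z1 z2 : ℂ) : ℂ :=
  β k 0 0 * (s0 * z0) + β k 0 1 * (s0 * z1) + β k 0 2 * (s0 * z2) +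
  (β k 1 0 * (s1 * z0) + β k 1 1 * (s1 * z1) + β k 1 2 * (s1 * z2)) +
  (β k 2 0 * (s2 * z0) + β k 2 1 * (s2 * z1) + β k 2 2 * (s2 * z2))

theorem bl_ex (β : Ar) (k : Fin 3) (s0 s1 s2 z0 z1 z2 : ℂ) :
    bl β k ![s0, s1, s2] ![z0, z1, z2] = ex β k s0 s1 s2 z0 z1 z2 := by
  simp [bl, ex, Fin.sum_univ_three]

end BlAux

theorem tBl : S_Bl := by
  intro β hβ
  have E : ∀ (s0 s1 s2 z0 z1 z2 : ℂ), s0 * z0 + s1 * z1 + s2 * z2 = 0 → ∀ k l : Fin 3,
      (![z0, z1, z2] : Fin 3 → ℂ) k * BlAux.ex β l s0 s1 s2 z0 z1 z2 =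
        (![z0, z1, z2] : Fin 3 → ℂ) l * BlAux.ex β k s0 s1 s2 z0 z1 z2 := by
    intro s0 s1 s2 z0 z1 z2 h k l
    rw [← BlAux.bl_ex, ← BlAux.bl_ex]
    exact hβ _ _ (by simpa [Fin.sum_univ_three] using h) k l
  have a001 : β 0 0 1 = 0 := by
    have h := E (1) (0) (0) (0) (1) (0) (by norm_num) 1 0
    simpa [BlAux.ex] using h
  have a201 : β 2 0 1 = 0 := by
    have h := E (1) (0) (0) (0) (1) (0) (by norm_num) 1 2
    simpa [BlAux.ex] using h
  have a002 : β 0 0 2 = 0 := by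
    have h := E (1) (0) (0) (0) (0) (1) (by norm_num) 2 0
    simpa [BlAux.ex] using h
  have a102 : β 1 0 2 = 0 := by
    have h := E (1) (0) (0) (0) (0) (1) (by norm_num) 2 1
    simpa [BlAux.ex] using h
  have a110 : β 1 1 0 = 0 := by
    have h := E (0) (1) (0) (1) (0) (0) (by norm_num) 0 1
    simpa [BlAux.ex] using h
  have a210 : β 2 1 0 = 0 := by
    have h := E (0) (1) (0) (1) (0) (0) (by norm_num) 0 2
    simpa [BlAux.ex] using h
  have a012 : β 0 1 2 = 0 := by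
    have h := E (0) (1) (0) (0) (0) (1) (by norm_num) 2 0
    simpa [BlAux.ex] using h
  have a112 : β 1 1 2 = 0 := by
    have h := E (0) (1) (0) (0) (0) (1) (by norm_num) 2 1
    simpa [BlAux.ex] using h
  have a120 : β 1 2 0 = 0 := by
    have h := E (0) (0) (1) (1) (0) (0) (by norm_num) 0 1
    simpa [BlAux.ex] using h
  have a220 : β 2 2 0 = 0 := by
    have h := E (0) (0) (1) (1) (0) (0) (by norm_num) 0 2
    simpa [BlAux.ex] using h
  have a021 : β 0 2 1 = 0 := by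
    have h := E (0) (0) (1) (0) (1) (0) (by norm_num) 1 0
    simpa [BlAux.ex] using h
  have a221 : β 2 2 1 = 0 := by
    have h := E (0) (0) (1) (0) (1) (0) (by norm_num) 1 2
    simpa [BlAux.ex] using h
  have b0 : β 2 0 2 = β 1 0 1 := by
    have h := E (1) (0) (0) (0) (1) (1) (by norm_num) 1 2
    simp [BlAux.ex, a201, a102] at h
    linear_combination h
  have b1 : β 0 1 0 = β 2 1 2 := by
    have h := E (0) (1) (0) (1) (0) (1) (by norm_num) 2 0
    simp [BlAux.ex, a012, a210] at h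
    linear_combination h
  have b2 : β 1 2 1 = β 0 2 0 := by
    have h := E (0) (0) (1) (1) (1) (0) (by norm_num) 0 1
    simp [BlAux.ex, a120, a021] at h
    linear_combination h
  have c0 : β 0 1 1 = β 0 2 2 := by
    have h := E (0) (1) (-1) (0) (1) (1) (by norm_num) 1 0
    simp [BlAux.ex, a012, a021] at h
    linear_combination h
  have c1 : β 1 2 2 = β 1 0 0 := by
    have h := E (-1) (0) (1) (1) (0) (1) (by norm_num) 2 1
    simp [BlAux.ex, a120, a102] at h
    linear_combination h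
  have c2 : β 2 0 0 = β 2 1 1 := by
    have h := E (1) (-1) (0) (1) (1) (0) (by norm_num) 0 2
    simp [BlAux.ex, a201, a210] at h
    linear_combination h
  have d0 : β 0 0 0 - β 0 1 0 - β 0 1 1 = β 1 0 0 + β 1 0 1 - β 1 1 1 := by
    have h := E (1) (-1) (0) (1) (1) (0) (by norm_num) 0 1
    simp [BlAux.ex, a001, a110] at h
    linear_combination -h
  have e0 : β 0 0 0 + β 0 1 0 - β 0 1 1 = - (β 1 0 0 - β 1 0 1 - β 1 1 1) := by
    have h := E (1) (1) (0) (1) (-1) (0) (by norm_num) 0 1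
    simp [BlAux.ex, a001, a110] at h
    linear_combination h
  have d1 : β 1 1 1 - β 1 2 1 - β 1 2 2 = β 2 1 1 + β 2 1 2 - β 2 2 2 := by
    have h := E (0) (1) (-1) (0) (1) (1) (by norm_num) 1 2
    simp [BlAux.ex, a112, a221] at h
    linear_combination -h
  have e1 : β 1 1 1 + β 1 2 1 - β 1 2 2 = - (β 2 1 1 - β 2 1 2 - β 2 2 2) := by
    have h := E (0) (1) (1) (0) (1) (-1) (by norm_num) 1 2
    simp [BlAux.ex, a112, a221] at h
    linear_combination h
  have d2 : β 2 2 2 - β 2 0 2 - β 2 0 0 = β 0 2 2 + β 0 2 0 - β 0 0 0 := by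
    have h := E (-1) (0) (1) (1) (0) (1) (by norm_num) 2 0
    simp [BlAux.ex, a220, a002] at h
    linear_combination -h
  have e2 : β 2 2 2 + β 2 0 2 - β 2 0 0 = - (β 0 2 2 - β 0 2 0 - β 0 0 0) := by
    have h := E (1) (0) (1) (-1) (0) (1) (by norm_num) 2 0
    simp [BlAux.ex, a220, a002] at h
    linear_combination h
  refine ⟨![β 1 0 1, β 2 1 2, β 0 2 0], ![β 0 1 1, β 1 2 2, β 2 0 0], ?_⟩
  have f0 : β 0 0 0 = β 1 0 1 + β 0 1 1 := by
    linear_combination (1 / 2 : ℂ) * d0 + (1 / 2 : ℂ) * e0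
  have f1 : β 1 1 1 = β 2 1 2 + β 1 2 2 := by
    linear_combination (1 / 2 : ℂ) * d1 + (1 / 2 : ℂ) * e1
  have f2 : β 2 2 2 = β 0 2 0 + β 2 0 0 := by
    linear_combination (1 / 2 : ℂ) * d2 + (1 / 2 : ℂ) * e2
  intro A _ _ s z k
  fin_cases k
  · simp [bl, Fin.sum_univ_three, a001, a002, a012, a021, f0, b1, b2, c0, Algebra.smul_def]
    try ring
  · simp [bl, Fin.sum_univ_three, a102, a110, a112, a120, f1, b2, b0, c1, Algebra.smul_def]
    try ring
  · simp [bl, Fin.sum_univ_three, a201, a210, a220, a221, f2, b0, b1, c2, Algebra.smul_def]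
    try ring

end Pool.Agent.Lib.MP_776403_ag.SD.GR
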