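import Pool.Agent.Lib.MP_776403_ag.SD.GR.Spec
import Pool.Agent.Lib.MP_776403_ag.SD.GR.ArP

/-!
# Case `deg X = 5`, `n = 6`, `c = 3`, module Cls: `X` contains all decomposable bivectors (helper82)
-/

set_option autoImplicit false

open MvPolynomial

noncomputable section

namespace Pool.Agent.Lib.MP_776403_ag.SD.GR

open LI E2 LI.TSAux

namespace ClsAux

open ArPAux

/-- the entry `01` of `a ∧ b` -/
def rr (a b : Fin 5 → ℂ) : ℂ := a 0 * b 1 - a 1 * b 0

/-- the entries `s, i + 2` of `a ∧ b` -/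
def AA (a b : Fin 5 → ℂ) (s : Fin 2) (i : Fin 3) : ℂ :=
  a (Fin.castLE (by norm_num) s) * b (Fin.natAdd 2 i) - a (Fin.natAdd 2 i) * b (Fin.castLE (by norm_num) s)

/-- the entries `34`, `42`, `23` of `a ∧ b` -/
def ZZ (a b : Fin 5 → ℂ) : Fin 3 → ℂ :=
  ![a 3 * b 4 - a 4 * b 3, -(a 2 * b 4 - a 4 * b 2), a 2 * b 3 - a 3 * b 2]

theorem Pm_wdg (a b : Fin 5 → ℂ) : Pm (rr a b) (AA a b) (ZZ a b) = wdg a b := by
  ext i j
  fin_cases i <;> fin_cases j <;>
    simp [Pm, wdg, rr, AA, ZZ, Fin.natAdd, Fin.castLE] <;> ring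

theorem of_Pm {r : ℂ} {A : Fin 2 → Fin 3 → ℂ} {Z : Fin 3 → ℂ} {a b : Fin 5 → ℂ}
    (h : Pm r A Z = wdg a b) : r = rr a b ∧ (∀ s i, A s i = AA a b s i) ∧ ∀ k, Z k = ZZ a b k := by
  rw [← Pm_wdg] at h
  have h1 := congrFun (congrFun h 0) 1
  have h2 := congrFun (congrFun h 0) 2
  have h3 := congrFun (congrFun h 0) 3
  have h4 := congrFun (congrFun h 0) 4
  have h5 := congrFun (congrFun h 1) 2
  have h6 := congrFun (congrFun h 1) 3
  have h7 := congrFun (congrFun h 1) 4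
  have h8 := congrFun (congrFun h 2) 3
  have h9 := congrFun (congrFun h 4) 2
  have h10 := congrFun (congrFun h 3) 4
  refine ⟨h1, ?_, ?_⟩
  · intro s i
    fin_cases s <;> fin_cases i
    · exact h2
    · exact h3
    · exact h4
    · exact h5
    · exact h6
    · exact h7
  · intro k
    fin_cases k
    · exact h10
    · exact h9
    · exact h8

theorem rr_bil (p q p' q' : Fin 5 → ℂ) (t : ℂ) :
    rr (p + t • q) (p' + t • q') = rr p p' + t * (rr q p' + rr p q') + t ^ 2 * rr q q' := by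
  simp only [rr, Pi.add_apply, Pi.smul_apply, smul_eq_mul]
  ring

theorem AA_bil (p q p' q' : Fin 5 → ℂ) (t : ℂ) (s : Fin 2) (i : Fin 3) :
    AA (p + t • q) (p' + t • q') s i =
      AA p p' s i + t * (AA q p' s i + AA p q' s i) + t ^ 2 * AA q q' s i := by
  simp only [AA, Pi.add_apply, Pi.smul_apply, smul_eq_mul]
  ring

theorem ZZ_bil (p q p' q' : Fin 5 → ℂ) (t : ℂ) (k : Fin 3) :
    ZZ (p + t • q) (p' + t • q') k =
      ZZ p p' k + t * (ZZ q p' k + ZZ p q' k) + t ^ 2 * ZZ q q' k := by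
  fin_cases k <;> simp [ZZ] <;> ring

theorem ev_aeval {n : ℕ} (g : Fin n → Polynomial ℂ) (t : ℂ) (G : MvPolynomial (Fin n) ℂ) :
    (aeval g G).eval t = eval (fun i => (g i).eval t) G := by
  induction G using MvPolynomial.induction_on with
  | C a => simp
  | add p q hp hq => rw [map_add, Polynomial.eval_add, hp, hq, map_add]
  | mul_X p i hp => rw [map_mul, Polynomial.eval_mul, hp, aeval_X, map_mul, eval_X]

theorem dp_y (a x y z : Vx 9) (t : ℂ) :
    dp a (x + t • y + t ^ 2 • z) = dp a x + t * dp a y + t ^ 2 * dp a z := by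
  simp only [dp, Pi.add_apply, Pi.smul_apply, smul_eq_mul, Finset.mul_sum, ← Finset.sum_add_distrib]
  exact Finset.sum_congr rfl fun i _ => by ring

theorem ev_F (u : Vx 9) (T : Fin 2 → Fin 3 → Vx 9) (z : Fin 3 → Vx 9) (k : Fin 3) (y : Vx 9) :
    eval y (lf u * lf (z k) - cr3 (fun i => lf (T 0 i)) (fun i => lf (T 1 i)) k) =
      dp u y * dp (z k) y - cr3 (fun i => dp (T 0 i) y) (fun i => dp (T 1 i) y) k := by
  simp only [cr3, map_sub, map_mul, ev_lf]

theorem gr_F {I : Ideal (Sx 9)} {x u : Vx 9} {T : Fin 2 → Fin 3 → Vx 9} {z : Fin 3 → Vx 9}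
    (h : PD I x u T z) (k : Fin 3) :
    grad (lf u * lf (z k) - cr3 (fun i => lf (T 0 i)) (fun i => lf (T 1 i)) k) x = z k := by
  simp only [cr3]
  rw [grad_sub, grad_sub, grad_mul, grad_mul, grad_mul]
  simp only [ev_lf, grad_lf, h.ux, h.zx, h.Tx, zero_smul, one_smul, add_zero, sub_zero]

end ClsAux

open ArPAux ClsAux

theorem tCls (hF : S_Fld) (hB : S_Bas) (hD : S_Dec) : S_Cls := by
  intro I hI hh hS x u T z h y a b hy
  have x0 : x ≠ 0 := by
    rintro rfl
    have := h.ux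
    simp [dp] at this
  have hzi : LinearIndependent ℂ z := by
    rw [Fintype.linearIndependent_iff]
    intro g hg i
    obtain ⟨w, -, -, hw⟩ := hB u T z h.nz 0 0 (Pi.single i 1)
    have e : dp (∑ k, g k • z k) w = g i := by
      rw [sum_dp]
      simp only [smul_dp, hw]
      simp [Pi.single_apply]
    rw [← e, hg]
    simp [dp]
  have hgi : LinearIndependent ℂ (fun k => grad
      (lf u * lf (z k) - cr3 (fun i => lf (T 0 i)) (fun i => lf (T 1 i)) k) x) := by
    simp only [gr_F h]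
    exact hzi
  obtain ⟨⟨H, hH0, hH⟩, -⟩ := hF 9 3 I hI hh hS x h.xI x0 _ h.F hgi
  obtain ⟨ya, yA, yZ⟩ := of_Pm hy
  set e0 : Fin 5 → ℂ := Pi.single 0 1 with he0
  set e1 : Fin 5 → ℂ := Pi.single 1 1 with he1
  set a' : Fin 5 → ℂ := a - e0 with ha'
  set b' : Fin 5 → ℂ := b - e1 with hb'
  obtain ⟨y1, h1r, h1A, h1Z⟩ := hB u T z h.nz (rr a' e1 + rr e0 b')
    (fun s i => AA a' e1 s i + AA e0 b' s i) (fun k => ZZ a' e1 k + ZZ e0 b' k)
  obtain ⟨y2, h2r, h2A, h2Z⟩ := hB u T z h.nz (rr a' b') (AA a' b') (ZZ a' b')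
  have x0r : rr e0 e1 = 1 := by simp [rr, he0, he1]
  have x0A : ∀ s i, AA e0 e1 s i = 0 := by
    intro s i
    fin_cases s <;> fin_cases i <;> simp [AA, he0, he1, Fin.natAdd, Fin.castLE, Pi.single_apply]
  have x0Z : ∀ k, ZZ e0 e1 k = 0 := by
    intro k
    fin_cases k <;> simp [ZZ, he0, he1, Pi.single_apply]
  have kr : ∀ t : ℂ, dp u (x + t • y1 + t ^ 2 • y2) = rr (e0 + t • a') (e1 + t • b') := by
    intro t
    rw [dp_y, rr_bil, h.ux, h1r, h2r, x0r]
  have kA : ∀ (t : ℂ) s i, dp (T s i) (x + t • y1 + t ^ 2 • y2) =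
      AA (e0 + t • a') (e1 + t • b') s i := by
    intro t s i
    rw [dp_y, AA_bil, h.Tx, h1A, h2A, x0A]
  have kZ : ∀ (t : ℂ) k, dp (z k) (x + t • y1 + t ^ 2 • y2) =
      ZZ (e0 + t • a') (e1 + t • b') k := by
    intro t k
    rw [dp_y, ZZ_bil, h.zx, h1Z, h2Z, x0Z]
  have key : ∀ (t : ℂ), ∀ G ∈ I, eval (x + t • y1 + t ^ 2 • y2) (H * G) = 0 := by
    intro t G hG
    have hd := (hD (dp u (x + t • y1 + t ^ 2 • y2)) (fun s i => dp (T s i) (x + t • y1 + t ^ 2 • y2))
      (fun k => dp (z k) (x + t • y1 + t ^ 2 • y2))).2 ⟨e0 + t • a', e1 + t • b', by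
        rw [← Pm_wdg, kr]
        congr 1
        · funext s i
          exact kA t s i
        · funext k
          exact kZ t k⟩
    have hle : Ideal.span (Set.range fun k =>
        (lf u * lf (z k) - cr3 (fun i => lf (T 0 i)) (fun i => lf (T 1 i)) k : Sx 9)) ≤
        RingHom.ker (eval (x + t • y1 + t ^ 2 • y2)) := by
      rw [Ideal.span_le]
      rintro _ ⟨k, rfl⟩
      rw [SetLike.mem_coe, RingHom.mem_ker, ev_F]
      exact sub_eq_zero.2 (hd.1 k)
    exact hle (hH G hG)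
  set g : Fin (9 + 1) → Polynomial ℂ := fun i =>
    Polynomial.C (x i) + Polynomial.X * Polynomial.C (y1 i) + Polynomial.X ^ 2 * Polynomial.C (y2 i)
    with hg
  have hev : ∀ (t : ℂ) (G : Sx 9), (aeval g G).eval t = eval (x + t • y1 + t ^ 2 • y2) G := by
    intro t G
    rw [ev_aeval]
    congr 2
    funext i
    simp [hg]
    ring
  intro G hG
  have hz : aeval g (H * G) = (0 : Polynomial ℂ) := by
    refine Polynomial.funext fun t => ?_
    rw [hev, key t G hG, Polynomial.eval_zero]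
  rw [map_mul] at hz
  have hHn : aeval g H ≠ (0 : Polynomial ℂ) := by
    intro e
    apply hH0
    have := hev 0 H
    rw [e] at this
    simpa using this.symm
  have hG0 : aeval g G = (0 : Polynomial ℂ) := (mul_eq_zero.1 hz).resolve_left hHn
  have hfin := hev 1 G
  rw [hG0, Polynomial.eval_zero] at hfin
  have hyy : y = x + (1 : ℂ) • y1 + (1 : ℂ) ^ 2 • y2 := by
    have ea : e0 + (1 : ℂ) • a' = a := by rw [one_smul, ha']; abel
    have eb : e1 + (1 : ℂ) • b' = b := by rw [one_smul, hb']; abel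
    have sub_dp : ∀ (c v w : Vx 9), dp c (v - w) = dp c v - dp c w := by
      intro c v w
      simp only [dp, Pi.sub_apply, mul_sub, Finset.sum_sub_distrib]
    rw [← sub_eq_zero]
    apply h.nz
    · rw [sub_dp, kr, ea, eb, ya, sub_self]
    · intro s i
      rw [sub_dp, kA, ea, eb, yA, sub_self]
    · intro k
      rw [sub_dp, kZ, ea, eb, yZ, sub_self]
  rw [hyy]
  exact hfin.symm

end Pool.Agent.Lib.MP_776403_ag.SD.GR
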