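import Pool.Agent.Lib.MP_776403_ag.SD.GR.Spec

/-!
# (Dec) Decomposable bivectors and the Pluecker relations (helper22)
-/

set_option autoImplicit false

open MvPolynomial

noncomputable section

namespace Pool.Agent.Lib.MP_776403_ag.SD.GR

open LI E2

namespace DecAux

/-- Sorted quadruples are enough. -/
theorem alt (M : Fin 5 → Fin 5 → ℂ) (hs : ∀ i j, M j i = -M i j)
    (h : ∀ i j k l : Fin 5, i < j → j < k → k < l → M i j * M k l - M i k * M j l + M i l * M j k = 0)
    (i j k l : Fin 5) : M i j * M k l - M i k * M j l + M i l * M j k = 0 := by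
  have h0 : ∀ i, M i i = 0 := fun i => by
    have := hs i i
    linear_combination (1 / 2 : ℂ) * this
  -- the first two indices
  have s1 : ∀ i j k l, M i j * M k l - M i k * M j l + M i l * M j k = 0 →
      M j i * M k l - M j k * M i l + M j l * M i k = 0 := fun i j k l e => by
    rw [hs i j]
    linear_combination -e
  have s2 : ∀ i j k l, M i j * M k l - M i k * M j l + M i l * M j k = 0 →
      M i k * M j l - M i j * M k l + M i l * M k j = 0 := fun i j k l e => by
    rw [hs j k]
    linear_combination -e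
  have s3 : ∀ i j k l, M i j * M k l - M i k * M j l + M i l * M j k = 0 →
      M i j * M l k - M i l * M j k + M i k * M j l = 0 := fun i j k l e => by
    rw [hs k l]
    linear_combination -e
  -- first three sorted
  have g1 : ∀ i j k l : Fin 5, i < j → j < k → M i j * M k l - M i k * M j l + M i l * M j k = 0 := by
    intro i j k l h1 h2
    rcases lt_trichotomy k l with h3 | h3 | h3
    · exact h i j k l h1 h2 h3
    · subst h3
      rw [h0 k]
      ring
    · -- l < k
      apply s3 i j l k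
      rcases lt_trichotomy j l with h4 | h4 | h4
      · exact h i j l k h1 h4 h3
      · subst h4
        rw [h0 j]
        ring
      · apply s2 i l j k
        rcases lt_trichotomy i l with h5 | h5 | h5
        · exact h i l j k h5 h4 h2
        · subst h5
          rw [h0 i]
          ring
        · exact s1 l i j k (h l i j k h5 h1 h2)
  have g2 : ∀ i j k l : Fin 5, i < j → M i j * M k l - M i k * M j l + M i l * M j k = 0 := by
    intro i j k l h1
    rcases lt_trichotomy j k with h2 | h2 | h2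
    · exact g1 i j k l h1 h2
    · subst h2
      rw [h0 j]
      ring
    · apply s2 i k j l
      rcases lt_trichotomy i k with h3 | h3 | h3
      · exact g1 i k j l h3 h2
      · subst h3
        rw [h0 i]
        ring
      · exact s1 k i j l (g1 k i j l h3 h1)
  rcases lt_trichotomy i j with h1 | h1 | h1
  · exact g2 i j k l h1
  · subst h1
    rw [h0 i]
    ring
  · exact s1 j i k l (g2 j i k l h1)

/-- Nonzero skew matrices with Pluecker relations are decomposable. -/
theorem dec (M : Matrix (Fin 5) (Fin 5) ℂ) (hs : ∀ i j, M j i = -M i j)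
    (h : ∀ i j k l : Fin 5, i < j → j < k → k < l → M i j * M k l - M i k * M j l + M i l * M j k = 0) :
    ∃ a b : Fin 5 → ℂ, M = wdg a b := by
  by_cases hM : M = 0
  · refine ⟨0, 0, ?_⟩
    rw [hM]
    ext i j
    show (0 : ℂ) = 0 * 0 - 0 * 0
    ring
  · obtain ⟨i, j, hij⟩ : ∃ i j, M i j ≠ 0 := by
      by_contra hc
      push Not at hc
      exact hM (by ext i j; exact hc i j)
    refine ⟨M i, (M i j)⁻¹ • M j, ?_⟩
    ext k l
    show M k l = M i k * ((M i j)⁻¹ * M j l) - M i l * ((M i j)⁻¹ * M j k)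
    have e := alt M hs h i j k l
    field_simp
    linear_combination e

end DecAux

open DecAux

theorem tDec : S_Dec := by
  intro u T z
  constructor
  · rintro ⟨h1, h2⟩
    have a0 : u * z 0 = T 0 1 * T 1 2 - T 0 2 * T 1 1 := h1 0
    have a1 : u * z 1 = T 0 2 * T 1 0 - T 0 0 * T 1 2 := h1 1
    have a2 : u * z 2 = T 0 0 * T 1 1 - T 0 1 * T 1 0 := h1 2
    have b0 := h2 0
    have b1 := h2 1
    rw [Fin.sum_univ_three] at b0 b1
    refine dec _ ?_ ?_
    · intro i j
      fin_cases i <;> fin_cases j <;> simp [Pm]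
    · intro i j k l hij hjk hkl
      have hq : (i = 0 ∧ j = 1 ∧ k = 2 ∧ l = 3) ∨ (i = 0 ∧ j = 1 ∧ k = 2 ∧ l = 4) ∨
          (i = 0 ∧ j = 1 ∧ k = 3 ∧ l = 4) ∨ (i = 0 ∧ j = 2 ∧ k = 3 ∧ l = 4) ∨
          (i = 1 ∧ j = 2 ∧ k = 3 ∧ l = 4) := by
        revert i j k l
        decide
      rcases hq with ⟨rfl, rfl, rfl, rfl⟩ | ⟨rfl, rfl, rfl, rfl⟩ | ⟨rfl, rfl, rfl, rfl⟩ |
        ⟨rfl, rfl, rfl, rfl⟩ | ⟨rfl, rfl, rfl, rfl⟩
      · show u * z 2 - T 0 0 * T 1 1 + T 0 1 * T 1 0 = 0
        linear_combination a2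
      · show u * (-z 1) - T 0 0 * T 1 2 + T 0 2 * T 1 0 = 0
        linear_combination -a1
      · show u * z 0 - T 0 1 * T 1 2 + T 0 2 * T 1 1 = 0
        linear_combination a0
      · show T 0 0 * z 0 - T 0 1 * (-z 1) + T 0 2 * z 2 = 0
        linear_combination b0
      · show T 1 0 * z 0 - T 1 1 * (-z 1) + T 1 2 * z 2 = 0
        linear_combination b1
  · rintro ⟨a, b, h⟩
    have e : ∀ i j, Pm u T z i j = a i * b j - a j * b i := fun i j => by rw [h]; rfl
    have u0 : u = a 0 * b 1 - a 1 * b 0 := e 0 1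
    have t00 : T 0 0 = a 0 * b 2 - a 2 * b 0 := e 0 2
    have t01 : T 0 1 = a 0 * b 3 - a 3 * b 0 := e 0 3
    have t02 : T 0 2 = a 0 * b 4 - a 4 * b 0 := e 0 4
    have t10 : T 1 0 = a 1 * b 2 - a 2 * b 1 := e 1 2
    have t11 : T 1 1 = a 1 * b 3 - a 3 * b 1 := e 1 3
    have t12 : T 1 2 = a 1 * b 4 - a 4 * b 1 := e 1 4
    have z2 : z 2 = a 2 * b 3 - a 3 * b 2 := e 2 3
    have z1 : -z 1 = a 2 * b 4 - a 4 * b 2 := e 2 4
    have z0 : z 0 = a 3 * b 4 - a 4 * b 3 := e 3 4
    have z1' : z 1 = -(a 2 * b 4 - a 4 * b 2) := by rw [← z1, neg_neg]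
    constructor
    · intro k
      fin_cases k
      · show u * z 0 = T 0 1 * T 1 2 - T 0 2 * T 1 1
        rw [u0, z0, t01, t12, t02, t11]
        ring
      · show u * z 1 = T 0 2 * T 1 0 - T 0 0 * T 1 2
        rw [u0, z1', t02, t10, t00, t12]
        ring
      · show u * z 2 = T 0 0 * T 1 1 - T 0 1 * T 1 0
        rw [u0, z2, t00, t11, t01, t10]
        ring
    · intro c
      rw [Fin.sum_univ_three]
      fin_cases c
      · show T 0 0 * z 0 + T 0 1 * z 1 + T 0 2 * z 2 = 0
        rw [t00, t01, t02, z0, z1', z2]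
        ring
      · show T 1 0 * z 0 + T 1 1 * z 1 + T 1 2 * z 2 = 0
        rw [t10, t11, t12, z0, z1', z2]
        ring

end Pool.Agent.Lib.MP_776403_ag.SD.GR
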