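import Pool.Agent.Lib.MP_776403_ag.SD.GR.Spec

/-!
# Case `deg X = 5`, `n = 6`, codimension `3`: algebra over a domain (helper97)
-/

set_option autoImplicit false

open MvPolynomial

noncomputable section

namespace Pool.Agent.Lib.MP_776403_ag.SD.GR

open LI E2

namespace DomAux

variable {R : Type} [CommRing R]

/-- the cross product of `L` and `L'` -/
def cr (L L' : Fin 3 → R) : Fin 3 → R :=
  ![L 1 * L' 2 - L 2 * L' 1, L 2 * L' 0 - L 0 * L' 2, L 0 * L' 1 - L 1 * L' 0]

theorem cr_mul (L L' p : Fin 3 → R) (h : ∑ j, L j * p j = 0) (h' : ∑ j, L' j * p j = 0) (i j : Fin 3) :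
    cr L L' i * p j = cr L L' j * p i := by
  rw [Fin.sum_univ_three] at h h'
  have e01 : cr L L' 0 * p 1 = cr L L' 1 * p 0 := by
    simp only [cr, Matrix.cons_val_zero, Matrix.cons_val_one]
    linear_combination L' 2 * h - L 2 * h'
  have e12 : cr L L' 1 * p 2 = cr L L' 2 * p 1 := by
    simp only [cr, Matrix.cons_val_one, Matrix.cons_val]
    linear_combination L' 0 * h - L 0 * h'
  have e20 : cr L L' 2 * p 0 = cr L L' 0 * p 2 := by
    simp only [cr, Matrix.cons_val_zero, Matrix.cons_val]
    linear_combination L' 1 * h - L 1 * h'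
  fin_cases i <;> fin_cases j
  · rfl
  · exact e01
  · exact e20.symm
  · exact e01.symm
  · rfl
  · exact e12
  · exact e20
  · exact e12.symm
  · rfl

theorem exists_cr (L L' : Fin 3 → R) (h : ∃ i j, L i * L' j - L j * L' i ≠ 0) : ∃ i, cr L L' i ≠ 0 := by
  by_contra hc
  push Not at hc
  have h0 : L 1 * L' 2 - L 2 * L' 1 = 0 := hc 0
  have h1 : L 2 * L' 0 - L 0 * L' 2 = 0 := hc 1
  have h2 : L 0 * L' 1 - L 1 * L' 0 = 0 := hc 2
  obtain ⟨i, j, hij⟩ := h
  apply hij
  fin_cases i <;> fin_cases j
  · exact sub_self _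
  · exact h2
  · change L 0 * L' 2 - L 2 * L' 0 = 0
    linear_combination -h1
  · change L 1 * L' 0 - L 0 * L' 1 = 0
    linear_combination -h2
  · exact sub_self _
  · exact h0
  · exact h1
  · change L 2 * L' 1 - L 1 * L' 2 = 0
    linear_combination -h0
  · exact sub_self _

end DomAux

open DomAux in
/-- (Dom) Algebra over a domain. -/
theorem tDom : S_Dom := by
  intro R _ _ J z w L L' hJ h1 h2 h3 h4 h5 i j
  obtain ⟨m, hm⟩ := exists_cr L L' h5
  set p := J.adjugate.mulVec z with hp
  set p' := J.adjugate.mulVec w with hp'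
  have hpp : ∀ k l, p k * p' l = p l * p' k := by
    intro k l
    have e1 := cr_mul L L' p h1 h2 m k
    have e2 := cr_mul L L' p h1 h2 m l
    have e3 := cr_mul L L' p' h3 h4 m k
    have e4 := cr_mul L L' p' h3 h4 m l
    have e5 : cr L L' m * (cr L L' m * (p k * p' l - p l * p' k)) = 0 := by
      linear_combination (cr L L' m * p' l) * e1 + (cr L L' k * p m) * e4 - (cr L L' m * p' k) * e2 -
        (cr L L' l * p m) * e3
    have e6 := (mul_eq_zero.1 e5).resolve_left hm
    have e7 := (mul_eq_zero.1 e6).resolve_left hm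
    exact sub_eq_zero.1 e7
  have hz : ∀ k, ∑ l, J k l * p l = J.det * z k := by
    intro k
    have e : J.mulVec p = J.det • z := by
      rw [hp, Matrix.mulVec_mulVec, Matrix.mul_adjugate, Matrix.smul_mulVec, Matrix.one_mulVec]
    exact congrFun e k
  have hw : ∀ k, ∑ l, J k l * p' l = J.det * w k := by
    intro k
    have e : J.mulVec p' = J.det • w := by
      rw [hp', Matrix.mulVec_mulVec, Matrix.mul_adjugate, Matrix.smul_mulVec, Matrix.one_mulVec]
    exact congrFun e k
  have hmain : (J.det * z i) * (J.det * w j) = (J.det * z j) * (J.det * w i) := by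
    rw [← hz i, ← hz j, ← hw i, ← hw j, Finset.sum_mul_sum, Finset.sum_mul_sum, Finset.sum_comm]
    refine Finset.sum_congr rfl fun k _ => Finset.sum_congr rfl fun l _ => ?_
    linear_combination (J i l * J j k) * hpp l k
  have e8 : J.det * (J.det * (z i * w j - z j * w i)) = 0 := by
    linear_combination hmain
  have e9 := (mul_eq_zero.1 e8).resolve_left hJ
  have e10 := (mul_eq_zero.1 e9).resolve_left hJ
  exact sub_eq_zero.1 e10

end Pool.Agent.Lib.MP_776403_ag.SD.GR
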