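import Pool.Agent.Lib.MP_776403_ag.SD.GR.Spec

set_option autoImplicit false

open MvPolynomial

noncomputable section

namespace Pool.Agent.Lib.MP_776403_ag.SD.GR

open LI E2

variable {N : ℕ}

namespace FldAux

theorem wd_mul (w : Fin (N + 1) → Sx N) (P Q : Sx N) :
    ∑ i, pderiv i (P * Q) * w i =
      P * ∑ i, pderiv i Q * w i + Q * ∑ i, pderiv i P * w i := by
  simp only [Derivation.leibniz, smul_eq_mul, Finset.mul_sum, ← Finset.sum_add_distrib]
  exact Finset.sum_congr rfl fun i _ => by ring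

theorem wd_sum {c : ℕ} (w : Fin (N + 1) → Sx N) (P : Fin c → Sx N) :
    ∑ i, pderiv i (∑ k, P k) * w i = ∑ k, ∑ i, pderiv i (P k) * w i := by
  rw [Finset.sum_comm]
  refine Finset.sum_congr rfl fun i _ => ?_
  rw [map_sum, Finset.sum_mul]

theorem gen {c : ℕ} {I : Ideal (Sx N)} (hS : Smooth I c) {x : Vx N} (hx : x ∈ zer I)
    (hx0 : x ≠ 0) (F : Fin c → Sx N) (hF : ∀ k, F k ∈ I)
    (hLI : LinearIndependent ℂ fun k => grad (F k) x) :
    ∃ h : Sx N, eval x h ≠ 0 ∧ ∀ G ∈ I, h * G ∈ Ideal.span (Set.range F) := by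
  obtain ⟨F', f, h', e, hF', -, hhx, -, hmul⟩ := hS x hx hx0
  have hA : ∀ i, ∃ A : Fin c → Sx N, ∑ j, A j * F' j = h' * F i := fun i =>
    Ideal.mem_span_range_iff_exists_fun.1 (hmul (F i) (hF i))
  choose A hA using hA
  have hgr : ∀ i k, eval x h' * grad (F i) x k = ∑ j, eval x (A i j) * grad (F' j) x k := by
    intro i k
    have h1 := congrArg (fun P => eval x (pderiv k P)) (hA i)
    simp only [map_sum, Derivation.leibniz, smul_eq_mul, map_add, map_mul] at h1
    have h2 : eval x (F i) = 0 := hx _ (hF i)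
    have h3 : ∀ j, eval x (F' j) = 0 := fun j => hx _ (hF' j).1
    simp only [h2, h3, zero_mul, add_zero] at h1
    exact h1.symm
  let M : Matrix (Fin c) (Fin c) (Sx N) := Matrix.of A
  have hdet : eval x M.det ≠ 0 := by
    intro h0
    rw [RingHom.map_det] at h0
    obtain ⟨v, hv0, hv⟩ := Matrix.exists_vecMul_eq_zero_iff.2 h0
    apply hv0
    have hv' : ∀ j, ∑ i, v i * eval x (A i j) = 0 := by
      intro j
      have := congrFun hv j
      simpa [Matrix.vecMul, dotProduct, M] using this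
    have hz := Fintype.linearIndependent_iff.1 hLI (fun i => v i * eval x h') (by
      funext k
      simp only [Finset.sum_apply, Pi.smul_apply, smul_eq_mul, Pi.zero_apply]
      calc ∑ i, v i * eval x h' * grad (F i) x k
          = ∑ i, ∑ j, v i * (eval x (A i j) * grad (F' j) x k) := by
            refine Finset.sum_congr rfl fun i _ => ?_
            rw [mul_assoc, hgr, Finset.mul_sum]
        _ = ∑ j, (∑ i, v i * eval x (A i j)) * grad (F' j) x k := by
            rw [Finset.sum_comm]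
            refine Finset.sum_congr rfl fun j _ => ?_
            rw [Finset.sum_mul]
            exact Finset.sum_congr rfl fun i _ => by ring
        _ = 0 := by simp [hv'])
    funext i
    exact (mul_eq_zero.1 (hz i)).resolve_right hhx
  have hDF : ∀ j, M.det * F' j ∈ Ideal.span (Set.range F) := by
    intro j
    have h1 : M.mulVec F' = fun i => h' * F i := by
      funext i
      simp only [Matrix.mulVec, dotProduct]
      exact hA i
    have h2 : M.adjugate.mulVec (M.mulVec F') = M.det • F' := by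
      rw [Matrix.mulVec_mulVec, Matrix.adjugate_mul, Matrix.smul_mulVec, Matrix.one_mulVec]
    have h3 := congrFun h2 j
    rw [h1] at h3
    simp only [Matrix.mulVec, dotProduct, Pi.smul_apply, smul_eq_mul] at h3
    rw [← h3]
    refine Ideal.sum_mem _ fun i _ => ?_
    exact Ideal.mul_mem_left _ _ (Ideal.mul_mem_left _ _ (Ideal.subset_span ⟨i, rfl⟩))
  refine ⟨M.det * h', ?_, ?_⟩
  · rw [map_mul]
    exact mul_ne_zero hdet hhx
  · intro G hG
    obtain ⟨B, hB⟩ := Ideal.mem_span_range_iff_exists_fun.1 (hmul G hG)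
    rw [mul_assoc, ← hB, Finset.mul_sum]
    refine Ideal.sum_mem _ fun j _ => ?_
    rw [mul_left_comm]
    exact Ideal.mul_mem_left _ _ (hDF j)

end FldAux

theorem tFld : S_Fld := by
  intro N c I hI _ hS x hx hx0 F hF hLI
  obtain ⟨h, hh, hgen⟩ := FldAux.gen hS hx hx0 F hF hLI
  refine ⟨⟨h, hh, hgen⟩, ?_⟩
  intro w hw G hG
  obtain ⟨A, hA⟩ := Ideal.mem_span_range_iff_exists_fun.1 (hgen G hG)
  have hhI : h ∉ I := fun hm => hh (hx _ hm)
  have h1 : ∑ i, pderiv i (h * G) * w i ∈ I := by
    rw [← hA, FldAux.wd_sum]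
    refine Ideal.sum_mem _ fun k _ => ?_
    rw [FldAux.wd_mul]
    exact I.add_mem (I.mul_mem_left _ (hw k)) (I.mul_mem_right _ (hF k))
  rw [FldAux.wd_mul] at h1
  have h2 : h * ∑ i, pderiv i G * w i ∈ I :=
    (I.add_mem_iff_left (I.mul_mem_right _ hG)).1 h1
  exact (hI.mem_or_mem h2).resolve_left hhI

end Pool.Agent.Lib.MP_776403_ag.SD.GR
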