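import Pool.Agent.Lib.MP_776403_ag.SD.GR.Spec
import Pool.Agent.Lib.MP_776403_ag.SD.LI.TS
import Pool.Agent.Lib.MP_776403_ag.SD.Main

/-!
# Case `deg X = 5`, `n = 6`, `c = 3`, module GP: a good point
-/

set_option autoImplicit false

open MvPolynomial

noncomputable section

namespace Pool.Agent.Lib.MP_776403_ag.SD.GR

open LI E2

namespace GPAux

open LI.TSAux

variable {N : ℕ}

theorem eval_lf (a y : Vx N) : eval y (lf a) = dp a y := by
  unfold lf dp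
  rw [map_sum]
  refine Finset.sum_congr rfl fun i _ => ?_
  rw [map_mul, eval_C, eval_X]

theorem lf_hom (a : Vx N) : (lf a).IsHomogeneous 1 := by
  unfold lf
  refine (homogeneousSubmodule (Fin (N + 1)) ℂ 1).sum_mem fun i _ => ?_
  have h := (isHomogeneous_C (Fin (N + 1)) (a i)).mul (isHomogeneous_X ℂ i)
  rwa [zero_add] at h

theorem lf_notMem {I : Ideal (Sx N)} (hnd : ∀ F ∈ I, F.IsHomogeneous 1 → F = 0) {a : Vx N}
    (ha : a ≠ 0) : lf a ∉ I := by
  intro h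
  have h1 := hnd _ h (lf_hom a)
  refine ha (funext fun i => ?_)
  have h2 := eval_lf a (Pi.single i 1)
  rw [dp_single, h1, map_zero] at h2
  exact h2.symm

theorem ex_pt {I : Ideal (Sx N)} (hp : I.IsPrime) (hh : IsHom I)
    (hnd : ∀ F ∈ I, F.IsHomogeneous 1 → F = 0) : ∃ y ∈ zer I, y ≠ 0 := by
  by_contra hcon
  push Not at hcon
  have h1 : (X 0 : Sx N) ∈ I := by
    refine (tNull N I hp hh).1 _ fun z hz => ?_
    rw [hcon z hz, eval_X]
    rfl
  exact X_ne_zero (R := ℂ) (0 : Fin (N + 1)) (hnd _ h1 (isHomogeneous_X ℂ 0))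

/-- Two points, the second one not in the tangent space of the first one. -/
theorem ex_two (hTS : S_TS) {I : Ideal (Sx 9)} (hI : I.IsPrime) (hh : IsHom I)
    (hnd : ∀ F ∈ I, F.IsHomogeneous 1 → F = 0) (hs : Smooth I 3) :
    ∃ x₁ x₂ : Vx 9, x₁ ∈ zer I ∧ x₁ ≠ 0 ∧ x₂ ∈ zer I ∧ x₂ ≠ 0 ∧ x₂ ∉ TS I x₁ := by
  obtain ⟨x₁, h1, h10⟩ := ex_pt hI hh hnd
  obtain ⟨hfr, -⟩ := hTS 9 3 I hI hh hs x₁ h1 h10
  have ho := LinearMap.BilinForm.finrank_orthogonal (B := bd 9) bd_nd (TS I x₁)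
  rw [Module.finrank_fin_fun] at ho
  have hne : (bd 9).orthogonal (TS I x₁) ≠ ⊥ := by
    intro h
    rw [h, finrank_bot] at ho
    omega
  obtain ⟨α, hα, hα0⟩ := Submodule.exists_mem_ne_zero_of_ne_bot hne
  rw [mem_orth] at hα
  have hnm := lf_notMem hnd hα0
  have hex : ∃ x₂ ∈ zer I, eval x₂ (lf α) ≠ 0 := by
    by_contra hcon
    push Not at hcon
    exact hnm ((tNull 9 I hI hh).1 _ hcon)
  obtain ⟨x₂, h2, h2α⟩ := hex
  rw [eval_lf] at h2α
  refine ⟨x₁, x₂, h1, h10, h2, ?_, ?_⟩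
  · rintro rfl
    exact h2α (by simp [dp])
  · intro h
    have := hα x₂ h
    rw [dp_comm] at this
    exact h2α this

/-- The map `G ↦ Hs G x`. -/
def phi (hH : S_Hsf) (I : Ideal (Sx 9)) (x : Vx 9) (h : ∀ F ∈ I, grad F x ∈ CN I x) :
    I2 I →ₗ[ℂ] CN I x where
  toFun G := ⟨Hs G.1 x, by
    rw [← ((hH 9).2.2.2 G.1 G.2.2).1 x]
    exact h _ G.2.1⟩
  map_add' G G' := Subtype.ext (by
    change Hs (G.1 + G'.1) x = Hs G.1 x + Hs G'.1 x
    rw [(hH 9).1]
    rfl)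
  map_smul' r G := Subtype.ext (by
    change Hs (r • G.1) x = r • Hs G.1 x
    rw [(hH 9).2.1]
    rfl)

/-- Linear algebra for step (3). -/
theorem abs_lin {V W : Type} [AddCommGroup V] [Module ℂ V] [AddCommGroup W] [Module ℂ W]
    [Module.Finite ℂ V] [Module.Finite ℂ W] (φ : V →ₗ[ℂ] W) (hW : Module.finrank ℂ W = 3)
    (h5 : 5 ≤ Module.finrank ℂ V) (hr : 3 ≤ Module.finrank ℂ (LinearMap.range φ)) :
    (∃ F : Fin 3 → V, LinearIndependent ℂ fun k => φ (F k)) ∧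
      ∃ G : Fin 2 → V, (∀ a, φ (G a) = 0) ∧ LinearIndependent ℂ G := by
  have htop : LinearMap.range φ = ⊤ :=
    Submodule.eq_top_of_finrank_eq (le_antisymm (Submodule.finrank_le _) (by omega))
  have hrk := LinearMap.finrank_range_add_finrank_ker φ
  rw [htop, finrank_top, hW] at hrk
  have hk : 2 ≤ Module.finrank ℂ (LinearMap.ker φ) := by omega
  have hsurj : Function.Surjective φ := LinearMap.range_eq_top.1 htop
  obtain ⟨b⟩ : Nonempty (Module.Basis (Fin 3) ℂ W) :=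
    ⟨Module.finBasisOfFinrankEq ℂ W hW⟩
  choose F hF using fun k => hsurj (b k)
  refine ⟨⟨F, ?_⟩, fun a => (Module.finBasis ℂ (LinearMap.ker φ) (Fin.castLE hk a)).1,
    fun a => (Module.finBasis ℂ (LinearMap.ker φ) (Fin.castLE hk a)).2, ?_⟩
  · simp only [hF]
    exact b.linearIndependent
  · have h1 : LinearIndependent ℂ fun a : Fin 2 =>
        Module.finBasis ℂ (LinearMap.ker φ) (Fin.castLE hk a) :=
      (Module.finBasis ℂ (LinearMap.ker φ)).linearIndependent.comp _ (Fin.castLE_injective hk)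
    exact h1.map' (LinearMap.ker φ).subtype (Submodule.ker_subtype _)

/-- Step (3). -/
theorem finish (hH : S_Hsf) {I : Ideal (Sx 9)} [Module.Finite ℂ (I2 I)]
    (h5 : 5 ≤ Module.finrank ℂ (I2 I)) {x : Vx 9} (hx : x ∈ zer I) (hx0 : x ≠ 0)
    (h : ∀ F ∈ I, grad F x ∈ CN I x) (hc : Module.finrank ℂ (CN I x) = 3)
    (hr : 3 ≤ Module.finrank ℂ (LinearMap.range (phi hH I x h))) : ∃ x F G, Gd I x F G := by
  obtain ⟨⟨F, hF⟩, G, hG, hGi⟩ := abs_lin (phi hH I x h) hc h5 hr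
  refine ⟨x, fun k => (F k).1, fun a => (G a).1,
    ⟨hx, hx0, fun k => (F k).2, fun a => (G a).2, ?_, fun a => congrArg Subtype.val (hG a), ?_⟩⟩
  · exact hF.map' (CN I x).subtype (Submodule.ker_subtype _)
  · exact hGi.map' (I2 I).subtype (Submodule.ker_subtype _)

end GPAux

open GPAux

theorem tGP : S_TS → S_Hsf → S_KT → S_GP := by
  intro hTS hH hKT I hI hh hnd hs h5
  haveI : Module.Finite ℂ (I2 I) := Module.finite_of_finrank_pos (by omega)
  obtain ⟨x₁, x₂, h1, h10, h2, h20, hnot⟩ := ex_two hTS hI hh hnd hs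
  obtain ⟨c1, p1, -⟩ := mPerp 9 3 I hI hh hs x₁ h1 h10
  obtain ⟨c2, p2, -⟩ := mPerp 9 3 I hI hh hs x₂ h2 h20
  by_cases hr1 : 3 ≤ Module.finrank ℂ (LinearMap.range (phi hH I x₁ p1))
  · exact finish hH h5 h1 h10 p1 c1 hr1
  by_cases hr2 : 3 ≤ Module.finrank ℂ (LinearMap.range (phi hH I x₂ p2))
  · exact finish hH h5 h2 h20 p2 c2 hr2
  exfalso
  have k1 := LinearMap.finrank_range_add_finrank_ker (phi hH I x₁ p1)
  have k2 := LinearMap.finrank_range_add_finrank_ker (phi hH I x₂ p2)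
  have k3 := Submodule.finrank_sup_add_finrank_inf_eq (LinearMap.ker (phi hH I x₁ p1))
    (LinearMap.ker (phi hH I x₂ p2))
  have k4 := Submodule.finrank_le (LinearMap.ker (phi hH I x₁ p1) ⊔ LinearMap.ker (phi hH I x₂ p2))
  have hne : LinearMap.ker (phi hH I x₁ p1) ⊓ LinearMap.ker (phi hH I x₂ p2) ≠ ⊥ := by
    intro h
    rw [h, finrank_bot] at k3
    omega
  obtain ⟨G, hG, hG0⟩ := Submodule.exists_mem_ne_zero_of_ne_bot hne
  have g1 : Hs G.1 x₁ = 0 := congrArg Subtype.val (LinearMap.mem_ker.1 hG.1)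
  have g2 : Hs G.1 x₂ = 0 := congrArg Subtype.val (LinearMap.mem_ker.1 hG.2)
  have hle := hKT I hI hh hnd hs x₁ h1 h10 G.1 G.2.1 G.2.2 (fun h => hG0 (Subtype.ext h)) g1
  exact hnot (hle (LinearMap.mem_ker.2 g2))

end Pool.Agent.Lib.MP_776403_ag.SD.GR
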