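import Pool.Agent.Lib.MP_776403_ag.SD.GR.Spec

/-!
# (Gm) A quadratic map with `γ(z)` parallel to `z`
-/

set_option autoImplicit false

open MvPolynomial

noncomputable section

namespace Pool.Agent.Lib.MP_776403_ag.SD.GR

open LI E2

namespace GmAux

/-- the three relations from `e_i + e_j`, `e_i - e_j` -/
private theorem two {a b c d : ℂ} (h1 : c + d = a + b) (h2 : -c + d = -(a - b)) : b = d ∧ c = a := by
  constructor
  · linear_combination (-1 / 2 : ℂ) * h1 - (1 / 2 : ℂ) * h2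
  · linear_combination (1 / 2 : ℂ) * h1 - (1 / 2 : ℂ) * h2

end GmAux

open GmAux in
theorem tGm : S_Gm := by
  intro γ h
  have e0 : ∀ a b c : ℂ, (![a, b, c] : Fin 3 → ℂ) 0 = a := fun _ _ _ => rfl
  have e1 : ∀ a b c : ℂ, (![a, b, c] : Fin 3 → ℂ) 1 = b := fun _ _ _ => rfl
  have e2 : ∀ a b c : ℂ, (![a, b, c] : Fin 3 → ℂ) 2 = c := fun _ _ _ => rfl
  have g100 := h ![1, 0, 0] 0 1
  have g200 := h ![1, 0, 0] 0 2
  have g011 := h ![0, 1, 0] 1 0
  have g211 := h ![0, 1, 0] 1 2
  have g022 := h ![0, 0, 1] 2 0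
  have g122 := h ![0, 0, 1] 2 1
  have x2 := h ![1, 1, 0] 0 2
  have x1 := h ![1, 0, 1] 0 1
  have x0 := h ![0, 1, 1] 1 0
  have y01 := h ![1, 1, 0] 0 1
  have y02 := h ![1, 0, 1] 0 2
  have y12 := h ![0, 1, 1] 1 2
  have z01 := h ![1, -1, 0] 0 1
  have z02 := h ![1, 0, -1] 0 2
  have z12 := h ![0, 1, -1] 1 2
  simp only [bl, Fin.sum_univ_three, smul_eq_mul, e0, e1, e2] at g100 g200 g011 g211 g022 g122 x2 x1 x0 y01 y02 y12 z01 z02 z12
  ring_nf at g100 g200 g011 g211 g022 g122 x2 x1 x0 y01 y02 y12 z01 z02 z12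
  have t01 := two (a := γ 0 0 0) (b := γ 0 0 1 + γ 0 1 0) (c := γ 1 0 1 + γ 1 1 0) (d := γ 1 1 1)
    (by linear_combination y01 - g100 + g011) (by linear_combination z01 - g100 - g011)
  have t02 := two (a := γ 0 0 0) (b := γ 0 0 2 + γ 0 2 0) (c := γ 2 0 2 + γ 2 2 0) (d := γ 2 2 2)
    (by linear_combination y02 - g200 + g022) (by linear_combination z02 - g200 - g022)
  have t12 := two (a := γ 1 1 1) (b := γ 1 1 2 + γ 1 2 1) (c := γ 2 1 2 + γ 2 2 1) (d := γ 2 2 2)
    (by linear_combination y12 - g211 + g122) (by linear_combination z12 - g211 - g122)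
  have u2 : γ 2 0 1 + γ 2 1 0 = 0 := by linear_combination x2 - g200 - g211
  have u1 : γ 1 0 2 + γ 1 2 0 = 0 := by linear_combination x1 - g100 - g122
  have u0 : γ 0 1 2 + γ 0 2 1 = 0 := by linear_combination x0 - g011 - g022
  refine ⟨fun i => γ i i i, fun A _ _ z k => ?_⟩
  have am : ∀ {x y : ℂ}, x = y → algebraMap ℂ A x = algebraMap ℂ A y := fun h => congrArg _ h
  have G100 := am g100
  have G200 := am g200
  have G011 := am g011
  have G211 := am g211
  have G022 := am g022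
  have G122 := am g122
  have T01a := am t01.1
  have T01b := am t01.2
  have T02a := am t02.1
  have T02b := am t02.2
  have T12a := am t12.1
  have T12b := am t12.2
  have U0 := am u0
  have U1 := am u1
  have U2 := am u2
  simp only [map_add, map_zero] at G100 G200 G011 G211 G022 G122 T01a T01b T02a T02b T12a T12b U0 U1 U2
  have c0 : bl γ 0 z z = (∑ i, γ i i i • z i) * z 0 := by
    simp only [bl, Fin.sum_univ_three, Algebra.smul_def]
    linear_combination (z 0 * z 1) * T01a + (z 0 * z 2) * T02a + (z 1 * z 1) * G011 + (z 2 * z 2) * G022 +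
      (z 1 * z 2) * U0
  have c1 : bl γ 1 z z = (∑ i, γ i i i • z i) * z 1 := by
    simp only [bl, Fin.sum_univ_three, Algebra.smul_def]
    linear_combination (z 0 * z 1) * T01b + (z 1 * z 2) * T12a + (z 0 * z 0) * G100 + (z 2 * z 2) * G122 +
      (z 0 * z 2) * U1
  have c2 : bl γ 2 z z = (∑ i, γ i i i • z i) * z 2 := by
    simp only [bl, Fin.sum_univ_three, Algebra.smul_def]
    linear_combination (z 0 * z 2) * T02b + (z 1 * z 2) * T12b + (z 0 * z 0) * G200 + (z 1 * z 1) * G211 +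
      (z 0 * z 1) * U2
  fin_cases k
  · exact c0
  · exact c1
  · exact c2

end Pool.Agent.Lib.MP_776403_ag.SD.GR
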