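import Pool.Agent.Lib.MP_776403_ag.SD.GR.Spec
import Pool.Agent.Lib.MP_776403_ag.SD.LI.TS

/-!
# Module KT: the vertex of a quadric of `I` singular at `x` is in the tangent space at `x`
-/

set_option autoImplicit false

open MvPolynomial

noncomputable section

namespace Pool.Agent.Lib.MP_776403_ag.SD.GR

open LI E2 LI.TSAux

theorem tKT : S_TS → S_Hsf → S_TQ → S_Rk6 → S_KT := by
  intro hTS hH hTQ hRk I hI hh hnd hs x hx hx0 G hGI hG2 hG0 hHs
  have hdd : dd x G = 0 := by
    rw [((hH 9).2.2.2 G hG2).2.2.2.1 x, hHs]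
    simp [lf]
  have hfr := (hTS 9 3 I hI hh hs x hx hx0).1
  have hK := (hRk 9 3 I (by norm_num) hI hh hnd hs G hGI hG2 hG0).2
  set T := TS I x with hTdef
  have h1 := LinearMap.BilinForm.finrank_orthogonal bd_nd T
  rw [Module.finrank_fin_fun] at h1
  have hle := Submodule.finrank_le T
  rw [Module.finrank_fin_fun] at hle
  set f : T →ₗ[ℂ] Vx 9 := (Hs G).domRestrict T with hf
  have hr : LinearMap.range f ≤ (bd 9).orthogonal T := by
    rintro _ ⟨t, rfl⟩
    rw [mem_orth]
    intro u hu
    rw [dp_comm]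
    exact (hTQ 9 3 I hI hh hs x hx hx0 G hGI hG2 hdd t.1 t.2).2 u hu
  have hrk := LinearMap.finrank_range_add_finrank_ker f
  have hmap : (LinearMap.ker f).map T.subtype ≤ Kq G := by
    rintro _ ⟨t, ht, rfl⟩
    exact ht
  have hmapT : (LinearMap.ker f).map T.subtype ≤ T := by
    rintro _ ⟨t, -, rfl⟩
    exact t.2
  have hfm : Module.finrank ℂ ((LinearMap.ker f).map T.subtype) =
      Module.finrank ℂ (LinearMap.ker f) :=
    Submodule.finrank_map_subtype_eq T _
  have h2 := Submodule.finrank_mono hmap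
  have h3 := Submodule.finrank_mono hr
  have h4 : (LinearMap.ker f).map T.subtype = Kq G :=
    Submodule.eq_of_le_of_finrank_le hmap (by omega)
  exact h4 ▸ hmapT

end Pool.Agent.Lib.MP_776403_ag.SD.GR
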