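import Pool.Agent.Lib.MP_776403_ag.SD.GR.Spec

/-!
# (Mnr) A minor which is not in `I`
-/

set_option autoImplicit false

open MvPolynomial

noncomputable section

namespace Pool.Agent.Lib.MP_776403_ag.SD.GR

open LI E2

namespace MnrAux

variable {N : ℕ}

/-- pairing with a fixed covector -/
def dpL (a : Vx N) : Vx N →ₗ[ℂ] ℂ where
  toFun y := dp a y
  map_add' y z := by
    simp only [dp, Pi.add_apply, mul_add, Finset.sum_add_distrib]
  map_smul' r y := by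
    simp only [dp, Pi.smul_apply, smul_eq_mul, Finset.mul_sum, RingHom.id_apply]
    exact Finset.sum_congr rfl fun i _ => by ring

theorem dpL_apply (a y : Vx N) : dpL a y = dp a y := rfl

end MnrAux

open MnrAux

/-- (Mnr) A MINOR WHICH IS NOT IN `I`. -/
theorem tMnr (h2 : E2.S_Hsf) (h3 : S_R4) (h4 : S_KT) (h5 : S_Prp) : S_Mnr := by
  intro I hp hh hnd hs x F G gd n hn
  by_contra hno
  push Not at hno
  obtain ⟨hadd, hsm, -, hq⟩ := h2 9
  have hprop : ∀ j k, lf (Hs (G 0) (n j)) * lf (Hs (G 1) (n k)) =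
      lf (Hs (G 0) (n k)) * lf (Hs (G 1) (n j)) :=
    fun j k => h3 I hp hh hnd hs _ _ _ _ (hno j k)
  have hz : ∀ k, ∀ τ ∈ TS I x, dp (Hs (F k) x) τ = 0 := by
    intro k τ hτ
    rw [← (hq (F k) (gd.Fm k).2).1 x]
    exact hτ (F k) (gd.Fm k).1
  have hG0 : Kq (G 0) ≤ TS I x :=
    h4 I hp hh hnd hs x gd.xI gd.x0 (G 0) (gd.Gm 0).1 (gd.Gm 0).2 (gd.Gi.ne_zero 0) (gd.Gx 0)
  have hind : LinearIndependent ℂ fun j => Hs (G 0) (n j) := by
    rw [Fintype.linearIndependent_iff]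
    intro κ hκ k
    have hv : ∑ j, κ j • n j ∈ Kq (G 0) := by
      change Hs (G 0) (∑ j, κ j • n j) = 0
      rw [map_sum, ← hκ]
      exact Finset.sum_congr rfl fun j _ => map_smul _ _ _
    have h6 := hz k _ (hG0 hv)
    rw [← dpL_apply, map_sum] at h6
    simp only [map_smul, dpL_apply, hn, smul_eq_mul] at h6
    simpa using h6
  obtain ⟨κ, hκ⟩ := h5 9 (fun j => Hs (G 0) (n j)) (fun j => Hs (G 1) (n j)) hind hprop
  have hG' : G 1 + (-κ) • G 0 ∈ I2 I :=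
    (I2 I).add_mem (gd.Gm 1) ((I2 I).smul_mem _ (gd.Gm 0))
  have hne : G 1 + (-κ) • G 0 ≠ 0 := by
    intro h0
    have h7 := Fintype.linearIndependent_iff.1 gd.Gi ![-κ, 1] (by
      rw [Fin.sum_univ_two]
      simp only [Matrix.cons_val_zero, Matrix.cons_val_one, one_smul]
      rw [add_comm]
      exact h0) 1
    simp at h7
  have hHs : ∀ v, Hs (G 1 + (-κ) • G 0) v = Hs (G 1) v + (-κ) • Hs (G 0) v := by
    intro v
    rw [hadd, hsm]
    rfl
  have hx : Hs (G 1 + (-κ) • G 0) x = 0 := by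
    rw [hHs, gd.Gx, gd.Gx, smul_zero, add_zero]
  have hK := h4 I hp hh hnd hs x gd.xI gd.x0 _ hG'.1 hG'.2 hne hx
  have hn0 : n 0 ∈ Kq (G 1 + (-κ) • G 0) := by
    change Hs (G 1 + (-κ) • G 0) (n 0) = 0
    have h8 : Hs (G 1) (n 0) = κ • Hs (G 0) (n 0) := hκ 0
    rw [hHs, h8, neg_smul, add_neg_cancel]
  have h9 := hz 0 _ (hK hn0)
  rw [hn 0 0, if_pos rfl] at h9
  exact one_ne_zero h9

end Pool.Agent.Lib.MP_776403_ag.SD.GR
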