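import Pool.Agent.Lib.MP_776403_ag.SD.GR.Spec

/-!
# The normal form
-/

set_option autoImplicit false

open MvPolynomial

noncomputable section

namespace Pool.Agent.Lib.MP_776403_ag.SD.GR

open LI E2

namespace NFAux

section Ring

variable {A : Type} [CommRing A]

lemma cr0 (s t : Fin 3 → A) : cr3 s t 0 = s 1 * t 2 - s 2 * t 1 := rfl

lemma cr1 (s t : Fin 3 → A) : cr3 s t 1 = s 2 * t 0 - s 0 * t 2 := rfl

lemma cr2 (s t : Fin 3 → A) : cr3 s t 2 = s 0 * t 1 - s 1 * t 0 := rfl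

lemma dot_left (s t : Fin 3 → A) : ∑ k, s k * cr3 s t k = 0 := by
  rw [Fin.sum_univ_three, cr0, cr1, cr2]
  ring

lemma dot_right (s t : Fin 3 → A) : ∑ k, t k * cr3 s t k = 0 := by
  rw [Fin.sum_univ_three, cr0, cr1, cr2]
  ring

lemma par (s t v : Fin 3 → A) (hs : ∑ k, s k * v k = 0) (ht : ∑ k, t k * v k = 0) :
    ∀ k l, cr3 s t k * v l = cr3 s t l * v k := by
  rw [Fin.sum_univ_three] at hs ht
  have h01 : cr3 s t 0 * v 1 = cr3 s t 1 * v 0 := by
    rw [cr0, cr1]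
    linear_combination t 2 * hs - s 2 * ht
  have h12 : cr3 s t 1 * v 2 = cr3 s t 2 * v 1 := by
    rw [cr1, cr2]
    linear_combination t 0 * hs - s 0 * ht
  have h20 : cr3 s t 2 * v 0 = cr3 s t 0 * v 2 := by
    rw [cr0, cr2]
    linear_combination t 1 * hs - s 1 * ht
  intro k l
  fin_cases k <;> fin_cases l
  · rfl
  · exact h01
  · exact h20.symm
  · exact h01.symm
  · rfl
  · exact h12
  · exact h20
  · exact h12.symm
  · rfl

end Ring

lemma ex_cr (s z : Fin 3 → ℂ) (hs : s ≠ 0) (h : ∑ k, s k * z k = 0) :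
    ∃ t : Fin 3 → ℂ, cr3 s t = z := by
  rw [Fin.sum_univ_three] at h
  obtain ⟨i, hi⟩ := Function.ne_iff.1 hs
  rw [Pi.zero_apply] at hi
  fin_cases i
  · change s 0 ≠ 0 at hi
    refine ⟨![0, z 2 / s 0, - z 1 / s 0], ?_⟩
    funext k
    fin_cases k
    · change s 1 * (- z 1 / s 0) - s 2 * (z 2 / s 0) = z 0
      field_simp
      linear_combination -h
    · change s 2 * 0 - s 0 * (- z 1 / s 0) = z 1
      field_simp
      ring
    · change s 0 * (z 2 / s 0) - s 1 * 0 = z 2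
      field_simp
      ring
  · change s 1 ≠ 0 at hi
    refine ⟨![- z 2 / s 1, 0, z 0 / s 1], ?_⟩
    funext k
    fin_cases k
    · change s 1 * (z 0 / s 1) - s 2 * 0 = z 0
      field_simp
      ring
    · change s 2 * (- z 2 / s 1) - s 0 * (z 0 / s 1) = z 1
      field_simp
      linear_combination -h
    · change s 0 * 0 - s 1 * (- z 2 / s 1) = z 2
      field_simp
      ring
  · change s 2 ≠ 0 at hi
    refine ⟨![z 1 / s 2, - z 0 / s 2, 0], ?_⟩
    funext k
    fin_cases k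
    · change s 1 * 0 - s 2 * (- z 0 / s 2) = z 0
      field_simp
      ring
    · change s 2 * (z 1 / s 2) - s 0 * 0 = z 1
      field_simp
      ring
    · change s 0 * (- z 0 / s 2) - s 1 * (z 1 / s 2) = z 2
      field_simp
      linear_combination -h

/-- a vector `s ≠ 0` orthogonal to `z` -/
lemma ex_orth (z : Fin 3 → ℂ) (hz : z ≠ 0) : ∃ s : Fin 3 → ℂ, s ≠ 0 ∧ ∑ k, s k * z k = 0 := by
  obtain ⟨i, hi⟩ := Function.ne_iff.1 hz
  rw [Pi.zero_apply] at hi
  fin_cases i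
  · refine ⟨![- z 1, z 0, 0], fun h => hi (congrFun h 1), ?_⟩
    rw [Fin.sum_univ_three]
    change - z 1 * z 0 + z 0 * z 1 + 0 * z 2 = 0
    ring
  · refine ⟨![z 1, - z 0, 0], fun h => hi (congrFun h 0), ?_⟩
    rw [Fin.sum_univ_three]
    change z 1 * z 0 + - z 0 * z 1 + 0 * z 2 = 0
    ring
  · refine ⟨![z 2, 0, - z 0], fun h => hi (congrFun h 0), ?_⟩
    rw [Fin.sum_univ_three]
    change z 2 * z 0 + 0 * z 1 + - z 0 * z 2 = 0
    ring

lemma bl_add (β : Ar) (k : Fin 3) (s t z : Fin 3 → ℂ) : bl β k (s + t) z = bl β k s z + bl β k t z := by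
  simp only [bl, Pi.add_apply, add_mul, smul_add, Finset.sum_add_distrib]

lemma bl_zero (β : Ar) (k : Fin 3) (z : Fin 3 → ℂ) : bl β k 0 z = 0 := by
  simp only [bl, Pi.zero_apply, zero_mul, smul_zero, Finset.sum_const_zero]

lemma bl_smul (β : Ar) (k : Fin 3) (s z : Fin 3 → ℂ) (c : ℂ) :
    bl β k s (fun i => c * z i) = c * bl β k s z := by
  simp only [bl, Finset.mul_sum, smul_eq_mul]
  exact Finset.sum_congr rfl fun i _ => Finset.sum_congr rfl fun j _ => by ring

lemma bl_smul2 (β : Ar) (k : Fin 3) (z : Fin 3 → ℂ) (c : ℂ) :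
    bl β k (fun i => c * z i) (fun i => c * z i) = c ^ 2 * bl β k z z := by
  simp only [bl, Finset.mul_sum, smul_eq_mul]
  exact Finset.sum_congr rfl fun i _ => Finset.sum_congr rfl fun j _ => by ring

lemma cc_smul (r : ℂ) (f : PowerSeries ℂ) :
    PowerSeries.constantCoeff (r • f) = r * PowerSeries.constantCoeff f := by
  rw [PowerSeries.smul_eq_C_mul, map_mul, PowerSeries.constantCoeff_C]

lemma cc_bl (β : Ar) (k : Fin 3) (s t : Fin 3 → PowerSeries ℂ) :
    PowerSeries.constantCoeff (bl β k s t) =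
      bl β k (fun i => PowerSeries.constantCoeff (s i)) (fun i => PowerSeries.constantCoeff (t i)) := by
  simp only [bl, map_sum, cc_smul, map_mul, smul_eq_mul]

/-- the first step -/
lemma step1 {β : Fin 6 → Ar} (h : ArcP β) (s t : Fin 3 → ℂ) :
    (∑ k, s k * (bl (β 0) k s s + bl (β 1) k s t + bl (β 2) k t t) = 0) ∧
      ∑ k, t k * (bl (β 0) k s s + bl (β 1) k s t + bl (β 2) k t t) = 0 := by
  obtain ⟨X0, Θ, ζ, hX, hΘ, hd, hk⟩ := h ![s, t]
  have h0 : (fun i => PowerSeries.constantCoeff (Θ 0 i)) = s := funext fun i => hΘ 0 i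
  have h1 : (fun i => PowerSeries.constantCoeff (Θ 1 i)) = t := funext fun i => hΘ 1 i
  have hc : ∀ k, PowerSeries.constantCoeff (X0 * ζ k) =
      bl (β 0) k s s + bl (β 1) k s t + bl (β 2) k t t := by
    intro k
    rw [hk k]
    simp only [map_add, map_mul, map_pow, PowerSeries.constantCoeff_X, cc_bl, h0, h1]
    ring
  have ha : ∀ a, ∑ k, PowerSeries.constantCoeff (Θ a k) *
      (bl (β 0) k s s + bl (β 1) k s t + bl (β 2) k t t) = 0 := by
    intro a
    have h2 : ∑ k, Θ a k * (X0 * ζ k) = 0 := by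
      have h3 : ∑ k, Θ a k * (X0 * ζ k) = X0 * ∑ k, Θ a k * ζ k := by
        rw [Finset.mul_sum]
        exact Finset.sum_congr rfl fun k _ => by ring
      rw [h3, hd a, mul_zero]
    have h4 := congrArg PowerSeries.constantCoeff h2
    rw [map_sum, map_zero] at h4
    rw [← h4]
    exact Finset.sum_congr rfl fun k _ => by rw [map_mul, hc]
  refine ⟨?_, ?_⟩
  · have h5 := ha 0
    simp only [hΘ] at h5
    exact h5
  · have h5 := ha 1
    simp only [hΘ] at h5
    exact h5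

/-- the second step -/
lemma step2 {β : Fin 6 → Ar} (h : ArcP β) {c₀ : ℂ}
    (hc : ∀ (A : Type) [CommRing A] [Algebra ℂ A] (s t : Fin 3 → A) (k : Fin 3),
      bl (β 0) k s s + bl (β 1) k s t + bl (β 2) k t t = c₀ • cr3 s t k) (s t : Fin 3 → ℂ) :
    ∃ (Θ : Fin 2 → Fin 3 → PowerSeries ℂ) (ζ : Fin 3 → PowerSeries ℂ),
      (∀ i, PowerSeries.constantCoeff (Θ 0 i) = s i) ∧ (∀ i, PowerSeries.constantCoeff (Θ 1 i) = t i) ∧
      (∀ k, PowerSeries.constantCoeff (ζ k) = c₀ * cr3 s t k) ∧ (∀ a, ∑ k, Θ a k * ζ k = 0) ∧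
      ∀ a, ∑ k, Θ a k * (bl (β 3) k (Θ 0) ζ + bl (β 4) k (Θ 1) ζ) +
        PowerSeries.X * ∑ k, Θ a k * bl (β 5) k ζ ζ = 0 := by
  obtain ⟨X0, Θ, ζ, hX, hΘ, hd, hk⟩ := h ![s, t]
  have h0 : ∀ i, PowerSeries.constantCoeff (Θ 0 i) = s i := fun i => hΘ 0 i
  have h1 : ∀ i, PowerSeries.constantCoeff (Θ 1 i) = t i := fun i => hΘ 1 i
  have h0' : (fun i => PowerSeries.constantCoeff (Θ 0 i)) = s := funext h0
  have h1' : (fun i => PowerSeries.constantCoeff (Θ 1 i)) = t := funext h1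
  refine ⟨Θ, ζ, h0, h1, ?_, hd, ?_⟩
  · intro k
    have h2 := congrArg PowerSeries.constantCoeff (hk k)
    simp only [map_add, map_mul, map_pow, PowerSeries.constantCoeff_X, cc_bl, h0', h1', hX] at h2
    have h3 := hc ℂ s t k
    rw [smul_eq_mul] at h3
    rw [← h3]
    linear_combination h2
  · intro a
    apply mul_left_cancel₀ (PowerSeries.X_ne_zero (R := ℂ))
    rw [mul_zero]
    have h2 : ∑ k, Θ a k * (X0 * ζ k) = 0 := by
      have h3 : ∑ k, Θ a k * (X0 * ζ k) = X0 * ∑ k, Θ a k * ζ k := by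
        rw [Finset.mul_sum]
        exact Finset.sum_congr rfl fun k _ => by ring
      rw [h3, hd a, mul_zero]
    have h4 : ∑ k, Θ a k * cr3 (Θ 0) (Θ 1) k = 0 := by
      fin_cases a
      · exact dot_left _ _
      · exact dot_right _ _
    have h5 : ∀ k, Θ a k * (X0 * ζ k) = PowerSeries.C c₀ * (Θ a k * cr3 (Θ 0) (Θ 1) k) +
        PowerSeries.X * (Θ a k * (bl (β 3) k (Θ 0) ζ + bl (β 4) k (Θ 1) ζ) +
          PowerSeries.X * (Θ a k * bl (β 5) k ζ ζ)) := by
      intro k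
      rw [hk k, hc, PowerSeries.smul_eq_C_mul]
      ring
    rw [Finset.sum_congr rfl fun k _ => h5 k, Finset.sum_add_distrib, ← Finset.mul_sum, ← Finset.mul_sum, h4,
      mul_zero, zero_add, Finset.sum_add_distrib, ← Finset.mul_sum] at h2
    exact h2

/-- the third step -/
lemma step3 {β : Fin 6 → Ar} (h : ArcP β) {c₀ : ℂ} (h0 : c₀ ≠ 0)
    (hc : ∀ (A : Type) [CommRing A] [Algebra ℂ A] (s t : Fin 3 → A) (k : Fin 3),
      bl (β 0) k s s + bl (β 1) k s t + bl (β 2) k t t = c₀ • cr3 s t k) (s t : Fin 3 → ℂ) :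
    (∑ k, s k * (bl (β 3) k s (cr3 s t) + bl (β 4) k t (cr3 s t)) = 0) ∧
      ∑ k, t k * (bl (β 3) k s (cr3 s t) + bl (β 4) k t (cr3 s t)) = 0 := by
  obtain ⟨Θ, ζ, hs, ht, hζ, -, hh⟩ := step2 h hc s t
  have hs' : (fun i => PowerSeries.constantCoeff (Θ 0 i)) = s := funext hs
  have ht' : (fun i => PowerSeries.constantCoeff (Θ 1 i)) = t := funext ht
  have hζ' : (fun i => PowerSeries.constantCoeff (ζ i)) = fun i => c₀ * cr3 s t i := funext hζ
  have ha : ∀ a, ∑ k, PowerSeries.constantCoeff (Θ a k) *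
      (bl (β 3) k s (cr3 s t) + bl (β 4) k t (cr3 s t)) = 0 := by
    intro a
    have h1 := congrArg PowerSeries.constantCoeff (hh a)
    simp only [map_add, map_mul, map_sum, map_zero, PowerSeries.constantCoeff_X, cc_bl, hs', ht', hζ',
      bl_smul, zero_mul, add_zero] at h1
    apply mul_left_cancel₀ h0
    rw [mul_zero, ← h1, Finset.mul_sum]
    exact Finset.sum_congr rfl fun k _ => by ring
  refine ⟨?_, ?_⟩
  · have h5 := ha 0
    simp only [hs] at h5
    exact h5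
  · have h5 := ha 1
    simp only [ht] at h5
    exact h5

lemma cr_anti (s t : Fin 3 → ℂ) : cr3 t s = - cr3 s t := by
  funext k
  fin_cases k
  · change t 1 * s 2 - t 2 * s 1 = - (s 1 * t 2 - s 2 * t 1)
    ring
  · change t 2 * s 0 - t 0 * s 2 = - (s 2 * t 0 - s 0 * t 2)
    ring
  · change t 0 * s 1 - t 1 * s 0 = - (s 0 * t 1 - s 1 * t 0)
    ring

lemma cr_add_left (s t : Fin 3 → ℂ) : cr3 (t + s) s = cr3 t s := by
  funext k
  fin_cases k
  · change (t 1 + s 1) * s 2 - (t 2 + s 2) * s 1 = t 1 * s 2 - t 2 * s 1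
    ring
  · change (t 2 + s 2) * s 0 - (t 0 + s 0) * s 2 = t 2 * s 0 - t 0 * s 2
    ring
  · change (t 0 + s 0) * s 1 - (t 1 + s 1) * s 0 = t 0 * s 1 - t 1 * s 0
    ring

lemma cr_add_right (s t : Fin 3 → ℂ) : cr3 s (t + s) = cr3 s t := by
  rw [cr_anti, cr_add_left, ← cr_anti]

/-- the bilinear maps `β 3` and `β 4` -/
lemma step4 {b b' : Ar} (hR : ∀ s t : Fin 3 → ℂ,
    (∑ k, s k * (bl b k s (cr3 s t) + bl b' k t (cr3 s t)) = 0) ∧
      ∑ k, t k * (bl b k s (cr3 s t) + bl b' k t (cr3 s t)) = 0) :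
    (∀ s z : Fin 3 → ℂ, ∑ i, s i * z i = 0 → ∀ k l, z k * bl b l s z = z l * bl b k s z) ∧
      ∀ s z : Fin 3 → ℂ, ∑ i, s i * z i = 0 → ∀ k l, z k * bl b' l s z = z l * bl b' k s z := by
  refine ⟨?_, ?_⟩
  · intro s z hz
    rcases eq_or_ne s 0 with rfl | hs
    · intro k l
      rw [bl_zero, bl_zero, mul_zero, mul_zero]
    have hz' : ∑ k, s k * (-z) k = 0 := by
      simp only [Pi.neg_apply, mul_neg, Finset.sum_neg_distrib, hz, neg_zero]
    obtain ⟨t, ht⟩ := ex_cr s (-z) hs hz'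
    have ht' : cr3 t s = z := by rw [cr_anti, ht, neg_neg]
    have h1 := hR t s
    have h2 := hR (t + s) s
    rw [cr_add_left] at h2
    rw [ht'] at h1 h2
    simp only [bl_add, Fin.sum_univ_three, Pi.add_apply] at h1 h2
    rw [← ht']
    apply par t s
    · rw [ht', Fin.sum_univ_three]
      linear_combination h2.1 - h1.1 - h2.2
    · rw [ht', Fin.sum_univ_three]
      linear_combination h2.2 - h1.2
  · intro s z hz
    rcases eq_or_ne s 0 with rfl | hs
    · intro k l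
      rw [bl_zero, bl_zero, mul_zero, mul_zero]
    obtain ⟨t, ht⟩ := ex_cr s z hs hz
    have h1 := hR s t
    have h2 := hR s (t + s)
    rw [cr_add_right] at h2
    rw [ht] at h1 h2
    simp only [bl_add, Fin.sum_univ_three, Pi.add_apply] at h1 h2
    rw [← ht]
    apply par s t
    · rw [ht, Fin.sum_univ_three]
      linear_combination h2.1 - h1.1
    · rw [ht, Fin.sum_univ_three]
      linear_combination h2.2 - h1.2 - h2.1

end NFAux

open NFAux

/-- the normal form -/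
theorem tNF : S_Q → S_Bl → S_Gm → S_NF := by
  intro hQ hBl hGm β hA hne
  obtain ⟨c₀, hc⟩ := hQ (β 0) (β 1) (β 2) (step1 hA)
  have h0 : c₀ ≠ 0 := by
    obtain ⟨s, t, k, hk⟩ := hne
    rintro rfl
    exact hk (by rw [hc, zero_smul])
  obtain ⟨h3, h4⟩ := step4 (step3 hA h0 hc)
  obtain ⟨p, w, hp⟩ := hBl _ h3
  obtain ⟨p', w', hp'⟩ := hBl _ h4
  have key : ∀ s t : Fin 3 → ℂ, (∑ k, s k * bl (β 5) k (cr3 s t) (cr3 s t) = 0) ∧
      ∑ k, t k * bl (β 5) k (cr3 s t) (cr3 s t) = 0 := by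
    intro s t
    obtain ⟨Θ, ζ, hs, ht, hζ, hd, hh⟩ := step2 hA hc s t
    have hζ' : (fun i => PowerSeries.constantCoeff (ζ i)) = fun i => c₀ * cr3 s t i := funext hζ
    have ha : ∀ a, ∑ k, PowerSeries.constantCoeff (Θ a k) * bl (β 5) k (cr3 s t) (cr3 s t) = 0 := by
      intro a
      have h5 : ∀ k, Θ a k * (bl (β 3) k (Θ 0) ζ + bl (β 4) k (Θ 1) ζ) =
          ((∑ i, p i • Θ 0 i) + ∑ i, p' i • Θ 1 i) * (Θ a k * ζ k) := by
        intro k
        rw [hp, hp', hd 0, hd 1, smul_zero, smul_zero]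
        ring
      have h6 := hh a
      rw [Finset.sum_congr rfl fun k _ => h5 k, ← Finset.mul_sum, hd a, mul_zero, zero_add] at h6
      have h7 : ∑ k, Θ a k * bl (β 5) k ζ ζ = 0 :=
        (mul_eq_zero.1 h6).resolve_left PowerSeries.X_ne_zero
      have h8 := congrArg PowerSeries.constantCoeff h7
      simp only [map_sum, map_mul, map_zero, cc_bl, hζ', bl_smul2] at h8
      apply mul_left_cancel₀ (pow_ne_zero 2 h0)
      rw [mul_zero, ← h8, Finset.mul_sum]
      exact Finset.sum_congr rfl fun k _ => by ring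
    refine ⟨?_, ?_⟩
    · have h9 := ha 0
      simp only [hs] at h9
      exact h9
    · have h9 := ha 1
      simp only [ht] at h9
      exact h9
  have h5 : ∀ z : Fin 3 → ℂ, ∀ k l, z k * bl (β 5) l z z = z l * bl (β 5) k z z := by
    intro z
    rcases eq_or_ne z 0 with rfl | hz
    · intro k l
      rw [Pi.zero_apply, Pi.zero_apply, zero_mul, zero_mul]
    obtain ⟨s, hs, hsz⟩ := ex_orth z hz
    obtain ⟨t, ht⟩ := ex_cr s z hs hsz
    have h6 := key s t
    rw [ht] at h6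
    have h7 := par s t (fun k => bl (β 5) k z z) h6.1 h6.2
    rw [ht] at h7
    exact h7
  obtain ⟨g, hg⟩ := hGm _ h5
  refine ⟨c₀, ![p, p'], ![w, w'], g, h0, ?_⟩
  intro A _ _ T z k
  rw [fv, hc, hp, hp', hg, Fin.sum_univ_two, Fin.sum_univ_two]
  simp only [Matrix.cons_val_zero, Matrix.cons_val_one]
  ring

end Pool.Agent.Lib.MP_776403_ag.SD.GR
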