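import Pool.Agent.Lib.MP_776403_ag.SD.GR.Spec

/-!
# The Pluecker frame exists (`S_Pd`)
-/

set_option autoImplicit false

open MvPolynomial

noncomputable section

namespace Pool.Agent.Lib.MP_776403_ag.SD.GR

open LI E2

namespace PdAux

variable {N : ℕ}

/-- `lf` as a linear map -/
def lfL : Vx N →ₗ[ℂ] Sx N where
  toFun a := lf a
  map_add' a b := by
    simp [lf, add_mul, Finset.sum_add_distrib]
  map_smul' r a := by
    simp [lf, MvPolynomial.smul_eq_C_mul, Finset.mul_sum, mul_assoc]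

/-- `dp` as a linear map in the first variable -/
def dpL (y : Vx N) : Vx N →ₗ[ℂ] ℂ where
  toFun a := dp a y
  map_add' a b := by
    simp [dp, add_mul, Finset.sum_add_distrib]
  map_smul' r a := by
    simp [dp, Finset.mul_sum, mul_assoc]

/-- the new form `u` -/
def nu (u : Vx N) (T : Fin 2 → Fin 3 → Vx N) (z : Fin 3 → Vx N) (h : Fin 2 → Fin 3 → ℂ)
    (g : Fin 3 → ℂ) : Vx N :=
  u - (∑ a, ∑ i, h a i • T a i) - ∑ i, g i • z i

theorem lf_nu (u : Vx N) (T : Fin 2 → Fin 3 → Vx N) (z : Fin 3 → Vx N) (h : Fin 2 → Fin 3 → ℂ)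
    (g : Fin 3 → ℂ) : lf (nu u T z h g) = lf u - (∑ a, ∑ i, h a i • lf (T a i)) -
      ∑ i, g i • lf (z i) := by
  have e : ∀ a : Vx N, lf a = lfL a := fun _ => rfl
  simp only [e]
  unfold nu
  rw [map_sub, map_sub, map_sum, map_sum]
  simp only [map_sum, map_smul]

theorem dp_nu (u : Vx N) (T : Fin 2 → Fin 3 → Vx N) (z : Fin 3 → Vx N) (h : Fin 2 → Fin 3 → ℂ)
    (g : Fin 3 → ℂ) (y : Vx N) : dp (nu u T z h g) y = dp u y - (∑ a, ∑ i, h a i * dp (T a i) y) -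
      ∑ i, g i * dp (z i) y := by
  have e : ∀ a : Vx N, dp a y = dpL y a := fun _ => rfl
  simp only [e]
  unfold nu
  rw [map_sub, map_sub, map_sum, map_sum]
  simp only [map_sum, map_smul, smul_eq_mul]

theorem smul_mem_ideal (I : Ideal (Sx N)) (r : ℂ) {p : Sx N} (hp : p ∈ I) : r • p ∈ I := by
  rw [MvPolynomial.smul_eq_C_mul]
  exact I.mul_mem_left _ hp

theorem alg (c : ℂ) (hc : c ≠ 0) (U Z S₁ S₂ R Q : Sx N) :
    (U - S₁ - S₂) * (c⁻¹ • Z) - R = c⁻¹ • ((U * Z - (c • R + (S₁ + S₂) * Z + Q)) + Q) := by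
  have h : (C c⁻¹ : Sx N) * C c = 1 := by
    rw [← C_mul, inv_mul_cancel₀ hc, C_1]
  simp only [MvPolynomial.smul_eq_C_mul]
  linear_combination R * h

end PdAux

open PdAux

theorem tPd (hFrm : S_Frm) (hArP : S_ArP) (hNF : S_NF) (hQn : S_Qn) : S_Pd := by
  intro I hI hhom hlin hS h5
  obtain ⟨x, u, T, z, β, D⟩ := hFrm I hI hhom hlin hS h5
  obtain ⟨c₀, h, w, g, hc, hf⟩ := hNF β (hArP I hI hhom hS x u T z β D) (hQn I hI hlin x u T z β D)
  have hci : c₀⁻¹ ≠ 0 := inv_ne_zero hc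
  have hlz : ∀ k, lf (c₀⁻¹ • z k) = c₀⁻¹ • lf (z k) := fun k => map_smul lfL c₀⁻¹ (z k)
  have hdz : ∀ (k : Fin 3) (y : Vx 9), dp (c₀⁻¹ • z k) y = c₀⁻¹ * dp (z k) y := fun k y =>
    map_smul (dpL y) c₀⁻¹ (z k)
  refine ⟨x, nu u T z h g, T, fun k => c₀⁻¹ • z k, ?_⟩
  constructor
  · exact D.xI
  · rw [dp_nu, D.ux]
    simp [D.Tx, D.zx]
  · exact D.Tx
  · intro k
    rw [hdz, D.zx, mul_zero]
  · intro v hu hT hz
    have hz' : ∀ k, dp (z k) v = 0 := fun k => by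
      have := hz k
      rw [hdz] at this
      exact (mul_eq_zero.mp this).resolve_left hci
    refine D.nz v ?_ hT hz'
    rw [dp_nu] at hu
    simpa [hT, hz'] using hu
  · intro k
    have hQ : ∑ a, w a k • ∑ i, lf (T a i) * lf (z i) ∈ I :=
      Ideal.sum_mem _ fun a _ => smul_mem_ideal I _ (D.G a)
    have h1 := I.add_mem (D.F k) hQ
    rw [hf (Sx 9) (fun a i => lf (T a i)) (fun i => lf (z i)) k] at h1
    have h2 := smul_mem_ideal I c₀⁻¹ h1
    rw [← alg c₀ hc] at h2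
    rw [lf_nu, hlz]
    exact h2
  · intro a
    have e : ∑ k, lf (T a k) * lf (c₀⁻¹ • z k) = c₀⁻¹ • ∑ k, lf (T a k) * lf (z k) := by
      rw [Finset.smul_sum]
      refine Finset.sum_congr rfl fun k _ => ?_
      rw [hlz, mul_smul_comm]
    rw [e]
    exact smul_mem_ideal I _ (D.G a)

end Pool.Agent.Lib.MP_776403_ag.SD.GR
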