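import Pool.Agent.Lib.MP_776403_ag.SD.GR.Spec

/-!
Package `SD/GR`: proportional triples of linear forms (`S_Prp`).
-/

set_option autoImplicit false

open MvPolynomial

noncomputable section

namespace Pool.Agent.Lib.MP_776403_ag.SD.GR

open LI E2

namespace PrpAux

variable {N : ℕ}

lemma eval_lf (a u : Vx N) : eval u (lf a) = dp a u := by
  unfold lf dp
  rw [map_sum]
  refine Finset.sum_congr rfl fun i _ => ?_
  rw [map_mul, eval_C, eval_X]

lemma dp_add (a u v : Vx N) : dp a (u + v) = dp a u + dp a v := by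
  unfold dp
  rw [← Finset.sum_add_distrib]
  refine Finset.sum_congr rfl fun i _ => ?_
  rw [Pi.add_apply]
  ring

lemma dp_single (a : Vx N) (i : Fin (N + 1)) : dp a (Pi.single i 1) = a i := by
  unfold dp
  rw [Finset.sum_eq_single i]
  · rw [Pi.single_eq_same, mul_one]
  · intro j _ hj
    rw [Pi.single_eq_of_ne hj, mul_zero]
  · intro h
    exact absurd (Finset.mem_univ i) h

lemma exists_dual (a : Fin 3 → Vx N) (ha : LinearIndependent ℂ a) :
    ∃ v : Fin 3 → Vx N, ∀ i j, dp (a i) (v j) = if i = j then 1 else 0 := by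
  have hrank : (Matrix.of a).rank = Fintype.card (Fin 3) :=
    LinearIndependent.rank_matrix (M := Matrix.of a) ha
  have hsurj : Function.Surjective (Matrix.of a).mulVecLin := by
    rw [← LinearMap.range_eq_top]
    refine Submodule.eq_top_of_finrank_eq ?_
    unfold Matrix.rank at hrank
    rw [hrank]
    simp
  choose v hv using fun j : Fin 3 => hsurj (Pi.single j 1)
  refine ⟨v, fun i j => ?_⟩
  have h := congrFun (hv j) i
  rw [Matrix.mulVecLin_apply] at h
  have h2 : dp (a i) (v j) = (Matrix.of a).mulVec (v j) i := by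
    unfold dp Matrix.mulVec dotProduct
    rfl
  rw [h2, h, Pi.single_apply]

end PrpAux

open PrpAux in
theorem tPrp : S_Prp := by
  intro N a b ha h
  obtain ⟨v, hv⟩ := exists_dual a ha
  have key : ∀ (j k : Fin 3) (p q : Vx N),
      dp (a j) p * dp (b k) q + dp (a j) q * dp (b k) p = dp (a k) p * dp (b j) q + dp (a k) q * dp (b j) p := by
    intro j k p q
    have e : ∀ u : Vx N, dp (a j) u * dp (b k) u = dp (a k) u * dp (b j) u := by
      intro u
      have := congrArg (eval u) (h j k)
      rwa [map_mul, map_mul, eval_lf, eval_lf, eval_lf, eval_lf] at this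
    have e1 := e (p + q)
    rw [dp_add, dp_add, dp_add, dp_add] at e1
    linear_combination e1 - e p - e q
  have h1 : ∀ (j k : Fin 3) (p : Vx N), j ≠ k →
      dp (b k) p = dp (a k) p * dp (b j) (v j) - dp (a j) p * dp (b k) (v j) := by
    intro j k p hjk
    have e := key j k p (v j)
    rw [hv j j, hv k j, if_pos rfl, if_neg (Ne.symm hjk)] at e
    linear_combination e
  have h2 : ∀ j k : Fin 3, j ≠ k → dp (b k) (v j) = 0 := by
    intro j k hjk
    have e := h1 j k (v j) hjk
    rw [hv j j, hv k j, if_pos rfl, if_neg (Ne.symm hjk)] at e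
    linear_combination e / 2
  have h3 : ∀ (j k : Fin 3) (p : Vx N), j ≠ k → dp (b k) p = dp (a k) p * dp (b j) (v j) := by
    intro j k p hjk
    rw [h1 j k p hjk, h2 j k hjk]
    ring
  have h4 : ∀ (j k : Fin 3), j ≠ k → dp (b k) (v k) = dp (b j) (v j) := by
    intro j k hjk
    rw [h3 j k (v k) hjk, hv k k, if_pos rfl, one_mul]
  refine ⟨dp (b 0) (v 0), fun k => ?_⟩
  funext i
  rw [Pi.smul_apply, smul_eq_mul, ← dp_single (b k) i, ← dp_single (a k) i]
  by_cases hk : k = 0
  · subst hk
    rw [h3 1 0 _ (by decide), h4 1 0 (by decide)]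
    ring
  · rw [h3 0 k _ (Ne.symm hk)]
    ring

end Pool.Agent.Lib.MP_776403_ag.SD.GR

end
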