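import Pool.Agent.Lib.MP_776403_ag.SD.GR.Spec

/-!
# `G(1,4)`: a quadratic map orthogonal to `s` and `t` (proof of `S_Q`)
-/

set_option autoImplicit false

open MvPolynomial

noncomputable section

namespace Pool.Agent.Lib.MP_776403_ag.SD.GR

open LI E2

namespace QAux

theorem bl_smul_left (β : Ar) (k : Fin 3) (r : ℂ) (s t : Fin 3 → ℂ) :
    bl β k (r • s) t = r * bl β k s t := by
  simp only [bl, Pi.smul_apply, smul_eq_mul, Finset.mul_sum]
  exact Finset.sum_congr rfl fun i _ => Finset.sum_congr rfl fun j _ => by ring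

theorem bl_smul_right (β : Ar) (k : Fin 3) (r : ℂ) (s t : Fin 3 → ℂ) :
    bl β k s (r • t) = r * bl β k s t := by
  simp only [bl, Pi.smul_apply, smul_eq_mul, Finset.mul_sum]
  exact Finset.sum_congr rfl fun i _ => Finset.sum_congr rfl fun j _ => by ring

/-- A quadratic map which is `0` has a skew symmetric array, and is `0` over every ring. -/
theorem zero_ring {β : Ar} (h : ∀ (s : Fin 3 → ℂ) (k : Fin 3), bl β k s s = 0) (A : Type) [CommRing A]
    [Algebra ℂ A] (s : Fin 3 → A) (k : Fin 3) : bl β k s s = 0 := by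
  have h1 : ∀ i, β k i i = 0 := by
    intro i
    have := h (Pi.single i 1) k
    simpa [bl, Pi.single_apply, Finset.sum_ite_eq', Finset.sum_ite_eq] using this
  have e01 : β k 1 0 = - β k 0 1 := by
    have := h ![1, 1, 0] k
    simp only [bl, Fin.sum_univ_three, Matrix.cons_val_zero, Matrix.cons_val_one, Matrix.cons_val,
      smul_eq_mul, h1] at this
    linear_combination this
  have e02 : β k 2 0 = - β k 0 2 := by
    have := h ![1, 0, 1] k
    simp only [bl, Fin.sum_univ_three, Matrix.cons_val_zero, Matrix.cons_val_one, Matrix.cons_val,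
      smul_eq_mul, h1] at this
    linear_combination this
  have e12 : β k 2 1 = - β k 1 2 := by
    have := h ![0, 1, 1] k
    simp only [bl, Fin.sum_univ_three, Matrix.cons_val_zero, Matrix.cons_val_one, Matrix.cons_val,
      smul_eq_mul, h1] at this
    linear_combination this
  simp only [bl, Fin.sum_univ_three, h1, e01, e02, e12, zero_smul, neg_smul]
  rw [mul_comm (s 1) (s 0), mul_comm (s 2) (s 0), mul_comm (s 2) (s 1)]
  abel

end QAux

open QAux

theorem tQ : S_Q := by
  intro q0 m q1 h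
  -- the three parts
  have hA : ∀ s t : Fin 3 → ℂ, ∑ k, t k * bl q0 k s s = 0 ∧ ∑ k, t k * bl m k s t = 0 := by
    intro s t
    have h1 := (h s t).2
    have h2 := (h ((-1 : ℂ) • s) t).2
    have h3 := (h 0 t).2
    have e0 : ∀ k, bl q0 k (0 : Fin 3 → ℂ) 0 = 0 := fun k => by simp [bl]
    have e1 : ∀ k, bl m k (0 : Fin 3 → ℂ) t = 0 := fun k => by simp [bl]
    simp only [bl_smul_left, bl_smul_right] at h2
    simp only [e0, e1, zero_add] at h3
    simp only [mul_add, Finset.sum_add_distrib] at h1 h2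
    have h4 : ∑ k, t k * (-1 * (-1 * bl q0 k s s)) = ∑ k, t k * bl q0 k s s :=
      Finset.sum_congr rfl fun k _ => by ring
    have h5 : ∑ k, t k * (-1 * bl m k s t) = - ∑ k, t k * bl m k s t := by
      rw [← Finset.sum_neg_distrib]
      exact Finset.sum_congr rfl fun k _ => by ring
    rw [h4, h5] at h2
    constructor
    · linear_combination (1 / 2) * h1 + (1 / 2) * h2 - h3
    · linear_combination (1 / 2) * h1 - (1 / 2) * h2
  have hB : ∀ s t : Fin 3 → ℂ, ∑ k, s k * bl q1 k t t = 0 ∧ ∑ k, s k * bl m k s t = 0 := by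
    intro s t
    have h1 := (h s t).1
    have h2 := (h s ((-1 : ℂ) • t)).1
    have h3 := (h s 0).1
    have e0 : ∀ k, bl q1 k (0 : Fin 3 → ℂ) 0 = 0 := fun k => by simp [bl]
    have e1 : ∀ k, bl m k s (0 : Fin 3 → ℂ) = 0 := fun k => by simp [bl]
    simp only [bl_smul_left, bl_smul_right] at h2
    simp only [e0, e1, add_zero] at h3
    simp only [mul_add, Finset.sum_add_distrib] at h1 h2
    have h4 : ∑ k, s k * (-1 * (-1 * bl q1 k t t)) = ∑ k, s k * bl q1 k t t :=
      Finset.sum_congr rfl fun k _ => by ring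
    have h5 : ∑ k, s k * (-1 * bl m k s t) = - ∑ k, s k * bl m k s t := by
      rw [← Finset.sum_neg_distrib]
      exact Finset.sum_congr rfl fun k _ => by ring
    rw [h4, h5] at h2
    constructor
    · linear_combination (1 / 2) * h1 + (1 / 2) * h2 - h3
    · linear_combination (1 / 2) * h1 - (1 / 2) * h2
  have z0 : ∀ (s : Fin 3 → ℂ) (k : Fin 3), bl q0 k s s = 0 := by
    intro s k
    have := (hA s (Pi.single k 1)).1
    simpa [Pi.single_apply] using this
  have z1 : ∀ (t : Fin 3 → ℂ) (k : Fin 3), bl q1 k t t = 0 := by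
    intro t k
    have := (hB (Pi.single k 1) t).1
    simpa [Pi.single_apply] using this
  have ms : ∀ s0 s1 s2 t0 t1 t2 : ℂ, ∑ k, (![s0, s1, s2] : Fin 3 → ℂ) k *
      bl m k ![s0, s1, s2] ![t0, t1, t2] = 0 := fun s0 s1 s2 t0 t1 t2 => (hB _ _).2
  have mt : ∀ s0 s1 s2 t0 t1 t2 : ℂ, ∑ k, (![t0, t1, t2] : Fin 3 → ℂ) k *
      bl m k ![s0, s1, s2] ![t0, t1, t2] = 0 := fun s0 s1 s2 t0 t1 t2 => (hA _ _).2
  simp only [bl, Fin.sum_univ_three, smul_eq_mul, Matrix.cons_val_zero, Matrix.cons_val_one,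
    Matrix.cons_val] at ms mt
  refine ⟨m 2 0 1, fun A _ _ s t k => ?_⟩
  rw [zero_ring z0, zero_ring z1, zero_add, add_zero]
  -- the array `m`
  have a000 := ms 1 0 0 1 0 0
  have a001 := ms 1 0 0 0 1 0
  have a002 := ms 1 0 0 0 0 1
  have a110 := ms 0 1 0 1 0 0
  have a111 := ms 0 1 0 0 1 0
  have a112 := ms 0 1 0 0 0 1
  have a220 := ms 0 0 1 1 0 0
  have a221 := ms 0 0 1 0 1 0
  have a222 := ms 0 0 1 0 0 1
  have b000 := mt 1 0 0 1 0 0
  have b010 := mt 0 1 0 1 0 0
  have b020 := mt 0 0 1 1 0 0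
  have b101 := mt 1 0 0 0 1 0
  have b111 := mt 0 1 0 0 1 0
  have b121 := mt 0 0 1 0 1 0
  have b202 := mt 1 0 0 0 0 1
  have b212 := mt 0 1 0 0 0 1
  have b222 := mt 0 0 1 0 0 1
  have c0 := ms 1 1 0 1 0 0
  have c1 := ms 1 1 0 0 1 0
  have c2 := ms 1 1 0 0 0 1
  have c3 := ms 1 0 1 1 0 0
  have c4 := ms 1 0 1 0 1 0
  have c5 := ms 1 0 1 0 0 1
  have c6 := ms 0 1 1 1 0 0
  have c7 := ms 0 1 1 0 1 0
  have c8 := ms 0 1 1 0 0 1
  have d0 := mt 1 0 0 1 1 0
  have d1 := mt 0 1 0 1 1 0
  have d2 := mt 0 0 1 1 1 0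
  have d3 := mt 1 0 0 1 0 1
  have d4 := mt 0 1 0 1 0 1
  have d5 := mt 0 0 1 1 0 1
  have d6 := mt 1 0 0 0 1 1
  have d7 := mt 0 1 0 0 1 1
  have d8 := mt 0 0 1 0 1 1
  simp only [mul_zero, mul_one, zero_mul, one_mul, add_zero, zero_add] at *
  have m000 : m 0 0 0 = 0 := by linear_combination a000
  have m001 : m 0 0 1 = 0 := by linear_combination a001
  have m002 : m 0 0 2 = 0 := by linear_combination a002
  have m110 : m 1 1 0 = 0 := by linear_combination a110
  have m111 : m 1 1 1 = 0 := by linear_combination a111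
  have m112 : m 1 1 2 = 0 := by linear_combination a112
  have m220 : m 2 2 0 = 0 := by linear_combination a220
  have m221 : m 2 2 1 = 0 := by linear_combination a221
  have m222 : m 2 2 2 = 0 := by linear_combination a222
  have m010 : m 0 1 0 = 0 := by linear_combination b010
  have m020 : m 0 2 0 = 0 := by linear_combination b020
  have m101 : m 1 0 1 = 0 := by linear_combination b101
  have m121 : m 1 2 1 = 0 := by linear_combination b121
  have m202 : m 2 0 2 = 0 := by linear_combination b202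
  have m212 : m 2 1 2 = 0 := by linear_combination b212
  have m100 : m 1 0 0 = 0 := by linear_combination c0 - m000 - m010 - m110
  have m200 : m 2 0 0 = 0 := by linear_combination c3 - m000 - m020 - m220
  have m011 : m 0 1 1 = 0 := by linear_combination c1 - m001 - m101 - m111
  have m211 : m 2 1 1 = 0 := by linear_combination c7 - m111 - m121 - m221
  have m022 : m 0 2 2 = 0 := by linear_combination c5 - m002 - m202 - m222
  have m122 : m 1 2 2 = 0 := by linear_combination c8 - m112 - m212 - m222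
  have m102 : m 1 0 2 = - m 2 0 1 := by linear_combination d6 - m101 - m202
  have m012 : m 0 1 2 = m 2 0 1 := by linear_combination c2 - m002 - m112 - m102
  have m021 : m 0 2 1 = - m 2 0 1 := by linear_combination c4 - m001 - m221
  have m120 : m 1 2 0 = m 2 0 1 := by linear_combination d2 - m020 - m121 - m021
  have m210 : m 2 1 0 = - m 2 0 1 := by linear_combination d4 - m010 - m212 - m012
  fin_cases k
  · simp only [bl, cr3, Fin.sum_univ_three, Fin.zero_eta, m000, m001, m002, m010, m011, m012, m020, m021, m022,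
      zero_smul, neg_smul]
    change _ = m 2 0 1 • (s 1 * t 2 - s 2 * t 1)
    rw [smul_sub]
    abel
  · simp only [bl, cr3, Fin.sum_univ_three, Fin.mk_one, m100, m101, m102, m110, m111, m112, m120, m121, m122,
      zero_smul, neg_smul]
    change _ = m 2 0 1 • (s 2 * t 0 - s 0 * t 2)
    rw [smul_sub]
    abel
  · simp only [bl, cr3, Fin.sum_univ_three, Fin.reduceFinMk, m200, m202, m210, m211, m212, m220, m221, m222,
      zero_smul, neg_smul]
    change _ = m 2 0 1 • (s 0 * t 1 - s 1 * t 0)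
    rw [smul_sub]
    abel

end Pool.Agent.Lib.MP_776403_ag.SD.GR
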