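import Pool.Agent.Lib.MP_776403_ag.SD.GR.Spec
import Pool.Agent.Lib.MP_776403_ag.SD.U.Zak

/-!
# The quadratic part is not zero (`S_Qn`) (helper84)
-/

set_option autoImplicit false

open MvPolynomial

noncomputable section

namespace Pool.Agent.Lib.MP_776403_ag.SD.GR

open LI E2

namespace QnAux

theorem ev_lf (a y : Vx 9) : eval y (lf a) = dp a y := by
  simp [lf, dp]

/-- the matrix -/
def Mt (u : Vx 9) (T : Fin 2 → Fin 3 → Vx 9) (z : Fin 3 → Vx 9) (β : Fin 6 → Ar) :
    Matrix (Fin 3) (Fin 3) (Sx 9) :=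
  Matrix.of fun k j => (if k = j then lf u else 0) -
    ∑ i, (β 3 k i j • lf (T 0 i) + β 4 k i j • lf (T 1 i) + β 5 k i j • lf (z i))

theorem eq_mul (u : Vx 9) (T : Fin 2 → Fin 3 → Vx 9) (z : Fin 3 → Vx 9) (β : Fin 6 → Ar)
    (hc : ∀ (s t : Fin 3 → ℂ) (k : Fin 3), bl (β 0) k s s + bl (β 1) k s t + bl (β 2) k t t = 0)
    (k : Fin 3) :
    lf u * lf (z k) - fv β k (fun a i => lf (T a i)) (fun i => lf (z i)) =
      (Mt u T z β).mulVec (fun j => lf (z j)) k := by
  apply MvPolynomial.funext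
  intro v
  have h1 := hc (fun i => dp (T 0 i) v) (fun i => dp (T 1 i) v) k
  fin_cases k <;>
  · simp only [Matrix.mulVec, dotProduct, Mt, Matrix.of_apply, fv, bl, map_sub, map_add, map_mul,
      MvPolynomial.smul_eval, ev_lf, smul_eq_mul, Fin.sum_univ_three] at h1 ⊢
    simp [ev_lf]
    simp at h1
    linear_combination (-1 : ℂ) * h1

end QnAux

open QnAux in
/-- (Qn) The quadratic part is not zero. -/
theorem tQn : S_Bas → S_Qn := by
  intro hBas I hI hlin x u T z β h
  by_contra hcon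
  push Not at hcon
  have hM := eq_mul u T z β hcon
  set M := Mt u T z β with hMd
  have hdet : eval x M.det = 1 := by
    have h1 : (eval x).mapMatrix M = 1 := by
      ext k j
      rw [RingHom.mapMatrix_apply, Matrix.map_apply, hMd]
      simp only [Mt, Matrix.of_apply, map_sub, map_sum, map_add, MvPolynomial.smul_eval, ev_lf,
        h.Tx, h.zx, mul_zero, add_zero, Finset.sum_const_zero, sub_zero]
      by_cases hkj : k = j
      · rw [if_pos hkj, hkj, Matrix.one_apply_eq, ev_lf, h.ux]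
      · rw [if_neg hkj, Matrix.one_apply_ne hkj, map_zero]
    rw [RingHom.map_det, h1, Matrix.det_one]
  have hdI : M.det ∉ I := by
    intro hd
    have := h.xI _ hd
    rw [hdet] at this
    exact one_ne_zero this
  have hz : ∀ j, lf (z j) ∈ I := by
    intro j
    have h2 : M.adjugate.mulVec (M.mulVec fun j => lf (z j)) = M.det • fun j => lf (z j) := by
      rw [Matrix.mulVec_mulVec, Matrix.adjugate_mul, Matrix.smul_mulVec, Matrix.one_mulVec]
    have h3 : M.det * lf (z j) ∈ I := by
      have h4 := congrFun h2 j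
      rw [Pi.smul_apply, smul_eq_mul] at h4
      rw [← h4]
      show ∑ k, M.adjugate j k * (M.mulVec fun j => lf (z j)) k ∈ I
      refine Ideal.sum_mem _ fun k _ => I.mul_mem_left _ ?_
      rw [← hM k]
      exact h.F k
    exact (hI.mem_or_mem h3).resolve_left hdI
  have hz0 : lf (z 0) = 0 := hlin _ (hz 0) (U.ZakAux.lf_hom _)
  obtain ⟨v, _, _, hv⟩ := hBas u T z h.nz 0 (fun _ _ => 0) (fun _ => 1)
  have h5 : dp (z 0) v = 0 := by rw [← ev_lf, hz0, map_zero]
  rw [hv 0] at h5
  exact one_ne_zero h5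

end Pool.Agent.Lib.MP_776403_ag.SD.GR
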