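import Pool.Agent.Lib.MP_776403_ag.SD.GR.Spec

/-!
# `G(1,4)`: quadrics of rank `≤ 4` in the ideal
-/

set_option autoImplicit false

open MvPolynomial

noncomputable section

namespace Pool.Agent.Lib.MP_776403_ag.SD.GR

open LI E2

namespace R4Aux

variable {N : ℕ}

theorem hom_lf (a : Vx N) : (lf a : Sx N).IsHomogeneous 1 := by
  refine IsHomogeneous.sum _ _ _ fun i _ => ?_
  have h := (isHomogeneous_C (Fin (N + 1)) (a i)).mul (isHomogeneous_X ℂ i)
  rwa [zero_add] at h

theorem pd_lf (a : Vx N) (i : Fin (N + 1)) : pderiv i (lf a : Sx N) = C (a i) := by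
  simp only [lf, map_sum, Derivation.leibniz, pderiv_C, pderiv_X, smul_eq_mul, mul_zero, add_zero]
  rw [Finset.sum_eq_single i]
  · simp
  · intro j _ hj
    rw [Pi.single_eq_of_ne hj, mul_zero]
  · intro h
    exact absurd (Finset.mem_univ i) h

theorem ev_lf (a u : Vx N) : eval u (lf a) = dp a u := by
  simp only [lf, dp, map_sum, map_mul, eval_C, eval_X]

theorem grad_lf (a b u : Vx N) : grad (lf a * lf b) u = dp a u • b + dp b u • a := by
  funext i
  simp only [grad, Derivation.leibniz, smul_eq_mul, pd_lf, map_add, map_mul, ev_lf, eval_C,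
    Pi.add_apply, Pi.smul_apply]

theorem grad_sub (F G : Sx N) (u : Vx N) : grad (F - G) u = grad F u - grad G u := by
  funext i
  simp only [grad, map_sub, Pi.sub_apply]

end R4Aux

open R4Aux in
theorem tR4 : S_Hsf → S_Rk6 → S_R4 := by
  intro hHsf hRk I hI hIh hnd hS a b c d hG
  by_contra hne
  set G : Sx 9 := lf a * lf b - lf c * lf d with hGdef
  have hG0 : G ≠ 0 := fun h => hne (sub_eq_zero.1 h)
  have hG2 : G.IsHomogeneous 2 := by
    have h1 := (hom_lf a).mul (hom_lf b)
    have h2 := (hom_lf c).mul (hom_lf d)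
    exact h1.sub h2
  have h6 := (hRk 9 3 I (by norm_num) hI hIh hnd hS G hG hG2 hG0).1
  obtain ⟨_, _, _, hq⟩ := hHsf 9
  obtain ⟨hgr, _⟩ := hq G hG2
  have hle : LinearMap.range (Hs G) ≤ Submodule.span ℂ (Set.range ![a, b, c, d]) := by
    rintro _ ⟨v, rfl⟩
    rw [← hgr v, hGdef, grad_sub, grad_lf, grad_lf]
    have ha : a ∈ Submodule.span ℂ (Set.range ![a, b, c, d]) :=
      Submodule.subset_span ⟨0, rfl⟩
    have hb : b ∈ Submodule.span ℂ (Set.range ![a, b, c, d]) :=
      Submodule.subset_span ⟨1, rfl⟩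
    have hc : c ∈ Submodule.span ℂ (Set.range ![a, b, c, d]) :=
      Submodule.subset_span ⟨2, rfl⟩
    have hd : d ∈ Submodule.span ℂ (Set.range ![a, b, c, d]) :=
      Submodule.subset_span ⟨3, rfl⟩
    exact Submodule.sub_mem _
      (Submodule.add_mem _ (Submodule.smul_mem _ _ hb) (Submodule.smul_mem _ _ ha))
      (Submodule.add_mem _ (Submodule.smul_mem _ _ hd) (Submodule.smul_mem _ _ hc))
  have h1 := Submodule.finrank_mono hle
  have h2 : Module.finrank ℂ (Submodule.span ℂ (Set.range ![a, b, c, d])) ≤ 4 := by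
    have := finrank_range_le_card (R := ℂ) ![a, b, c, d]
    simpa [Set.finrank] using this
  omega

end Pool.Agent.Lib.MP_776403_ag.SD.GR
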