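import Pool.Agent.Lib.MP_776403_ag.SD.GR.Spec
import Pool.Agent.Lib.MP_776403_ag.SD.LI.Cone
import Pool.Agent.Lib.MP_776403_ag.SD.Main

/-!
# Case `deg X = 5`, codimension `3`: `X` has no vertex
-/

set_option autoImplicit false

open MvPolynomial

noncomputable section

namespace Pool.Agent.Lib.MP_776403_ag.SD.GR

open LI E2

/-- (Ver) `X` has no vertex; `LI.tCone` is the second half of the proof. -/
theorem tVer : S_Fld → LI.S_TS → S_Ver := by
  intro hFld _ N c I hc hI hIh hnd hS x hx hx0 F hF hLI y hy
  by_contra hy0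
  have hw : (fun i => C (y i)) ∈ TF I := by
    refine (hFld N c I hI hIh hS x hx hx0 F hF hLI).2 _ fun k => ?_
    have h1 : ∑ i, pderiv i (F k) * C (y i) = dd y (F k) := by
      unfold dd
      exact Finset.sum_congr rfl fun i _ => mul_comm _ _
    rw [h1, hy k]
    exact I.zero_mem
  refine LI.tCone tNull N c I hc hI hIh hnd hS y hy0 fun G hG => ?_
  have h2 := hw G hG
  have h3 : ∑ i, pderiv i G * C (y i) = dd y G := by
    unfold dd
    exact Finset.sum_congr rfl fun i _ => mul_comm _ _
  rw [← h3]
  exact h2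

end Pool.Agent.Lib.MP_776403_ag.SD.GR
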