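import Pool.Agent.Lib.MP_776403_ag.SD.GR.Spec
import Pool.Agent.Lib.MP_776403_ag.SD.LI.Opn
import Pool.Agent.Lib.MP_776403_ag.SD.LI.TS

set_option autoImplicit false

open MvPolynomial

noncomputable section

namespace Pool.Agent.Lib.MP_776403_ag.SD.GR

open LI E2

namespace VtxAux

variable {N : ℕ}

theorem lf_zero : lf (0 : Vx N) = 0 := by
  unfold lf
  simp

/-- The dual vectors of independent covectors. -/
theorem dualV {z : Fin 3 → Vx N} (hz : LinearIndependent ℂ z) :
    ∃ n : Fin 3 → Vx N, ∀ k j, dp (z k) (n j) = if k = j then 1 else 0 := by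
  have hsur : Function.Surjective (OpnAux.ev z) := by
    rw [← LinearMap.range_eq_top]
    by_contra hne
    obtain ⟨f, hf0, hf⟩ := Submodule.exists_le_ker_of_lt_top _ (lt_top_iff_ne_top.2 hne)
    have hfx : ∀ x : Fin 3 → ℂ, f x = ∑ j, x j * f (Pi.single j 1) := by
      intro x
      conv_lhs => rw [← Finset.univ_sum_single x]
      rw [map_sum]
      refine Finset.sum_congr rfl fun j _ => ?_
      have h1 : (Pi.single j (x j) : Fin 3 → ℂ) = x j • Pi.single j (1 : ℂ) := by
        rw [← Pi.single_smul, smul_eq_mul, mul_one]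
      rw [h1, map_smul, smul_eq_mul]
    have ha : ∑ j, f (Pi.single j 1) • z j = 0 := by
      have h0 : ∀ φ : Vx N, dp φ (∑ j, f (Pi.single j 1) • z j) = 0 := by
        intro φ
        rw [OpnAux.dp_sum]
        have h2 := hf (LinearMap.mem_range_self (OpnAux.ev z) φ)
        rw [LinearMap.mem_ker, hfx] at h2
        exact h2
      funext i
      have h3 := h0 (Pi.single i 1)
      rw [TSAux.dp_comm, TSAux.dp_single] at h3
      exact h3
    have hb := Fintype.linearIndependent_iff.1 hz _ ha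
    refine hf0 (LinearMap.ext fun x => ?_)
    rw [hfx x, LinearMap.zero_apply]
    refine Finset.sum_eq_zero fun j _ => ?_
    rw [hb j, mul_zero]
  have h : ∀ j : Fin 3, ∃ v : Vx N, OpnAux.ev z v = fun k => if k = j then 1 else 0 :=
    fun j => hsur _
  choose n hn using h
  refine ⟨n, fun k j => ?_⟩
  have := congrFun (hn j) k
  rw [OpnAux.ev_apply] at this
  rw [TSAux.dp_comm]
  exact this

/-- The contraction of the field `det J e - ∑ p_j n_j` with the gradient of `H`. -/
theorem contr (D : Sx N) (e : Vx N) (n : Fin 3 → Vx N) (p : Fin 3 → Sx N) (H : Sx N) :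
    ∑ i, pderiv i H * (D * C (e i) - ∑ j, C (n j i) * p j) =
      D * dd e H - ∑ j, dd (n j) H * p j := by
  simp only [mul_sub, Finset.sum_sub_distrib, dd]
  congr 1
  · rw [Finset.mul_sum]
    exact Finset.sum_congr rfl fun i _ => by ring
  · simp only [Finset.mul_sum, Finset.sum_mul]
    rw [Finset.sum_comm]
    exact Finset.sum_congr rfl fun j _ => Finset.sum_congr rfl fun i _ => by ring

end VtxAux

open VtxAux

/-- The vertices of `G 0` and `G 1` meet only in the line of `x`. -/
theorem tVtx : E2.S_Hsf → S_Fld → S_Ver → S_Dom → S_Prp → S_R4 → S_Mnr → S_Vtx := by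
  intro hHsf hFld hVer hDom hPrp hR4 hMnr I hI hIh hnd hS x F G hG d hd
  obtain ⟨-, -, -, hQ⟩ := hHsf 9
  have hgr : ∀ k, grad (F k) x = Hs (F k) x := fun k => (hQ (F k) (hG.Fm k).2).1 x
  have hddF : ∀ k u, dd u (F k) = lf (Hs (F k) u) := fun k u => (hQ (F k) (hG.Fm k).2).2.2.2.1 u
  have hddG : ∀ a u, dd u (G a) = lf (Hs (G a) u) := fun a u => (hQ (G a) (hG.Gm a).2).2.2.2.1 u
  obtain ⟨n, hn⟩ := dualV hG.Fi
  have hFi' : LinearIndependent ℂ fun k => grad (F k) x := by
    have e : (fun k => grad (F k) x) = fun k => Hs (F k) x := funext hgr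
    rw [e]
    exact hG.Fi
  have hfld := (hFld 9 3 I hI hIh hS x hG.xI hG.x0 F (fun k => (hG.Fm k).1) hFi').2
  set J : Matrix (Fin 3) (Fin 3) (Sx 9) := Matrix.of fun k j => dd (n j) (F k) with hJ
  have hdet : eval x J.det = 1 := by
    rw [RingHom.map_det]
    have e : (eval x).mapMatrix J = 1 := by
      ext k j
      rw [RingHom.mapMatrix_apply, Matrix.map_apply, hJ, Matrix.of_apply, OpnAux.eval_dd, hgr, hn,
        Matrix.one_apply]
    rw [e, Matrix.det_one]
  have hJI : J.det ∉ I := by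
    intro h
    have := hG.xI _ h
    rw [hdet] at this
    exact one_ne_zero this
  -- the two fields
  have key : ∀ e : Vx 9, (∀ a, Hs (G a) e = 0) → ∀ a,
      ∑ j, dd (n j) (G a) * (J.adjugate.mulVec fun k => dd e (F k)) j ∈ I := by
    intro e he a
    have h1 : (fun i => J.det * C (e i) -
        ∑ j, C (n j i) * (J.adjugate.mulVec fun k => dd e (F k)) j) ∈ TF I := by
      refine hfld _ fun k => ?_
      rw [contr]
      have h2 : ∑ j, dd (n j) (F k) * (J.adjugate.mulVec fun k => dd e (F k)) j =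
          J.det * dd e (F k) := by
        have h3 : J.mulVec (J.adjugate.mulVec fun k => dd e (F k)) k = J.det * dd e (F k) := by
          rw [Matrix.mulVec_mulVec, Matrix.mul_adjugate, Matrix.smul_mulVec, Matrix.one_mulVec]
          rfl
        rw [← h3]
        rfl
      rw [h2, sub_self]
      exact I.zero_mem
    have h4 := h1 (G a) (hG.Gm a).1
    rw [contr, hddG a e, he a, lf_zero, mul_zero, zero_sub] at h4
    exact (I.neg_mem_iff).1 h4
  have hkx := key x hG.Gx
  have hkd := key d hd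
  have := hI
  obtain ⟨j₀, k₀, hjk⟩ := hMnr I hI hIh hnd hS x F G hG n hn
  set q := Ideal.Quotient.mk I with hq
  have hadj : ∀ (e : Vx 9) (a : Fin 2), ∑ j, q (dd (n j) (G a)) *
      ((q.mapMatrix J).adjugate.mulVec fun k => q (dd e (F k))) j =
      q (∑ j, dd (n j) (G a) * (J.adjugate.mulVec fun k => dd e (F k)) j) := by
    intro e a
    rw [map_sum]
    refine Finset.sum_congr rfl fun j _ => ?_
    rw [map_mul]
    congr 1
    rw [← RingHom.map_adjugate]
    simp only [Matrix.mulVec, dotProduct, map_sum, map_mul, RingHom.mapMatrix_apply,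
      Matrix.map_apply]
  have hdom := hDom (Sx 9 ⧸ I) (q.mapMatrix J) (fun i => q (dd x (F i))) (fun i => q (dd d (F i)))
    (fun j => q (dd (n j) (G 0))) (fun j => q (dd (n j) (G 1)))
    (by
      rw [← RingHom.map_det]
      exact fun h => hJI (Ideal.Quotient.eq_zero_iff_mem.1 h))
    (by rw [hadj]; exact Ideal.Quotient.eq_zero_iff_mem.2 (hkx 0))
    (by rw [hadj]; exact Ideal.Quotient.eq_zero_iff_mem.2 (hkx 1))
    (by rw [hadj]; exact Ideal.Quotient.eq_zero_iff_mem.2 (hkd 0))
    (by rw [hadj]; exact Ideal.Quotient.eq_zero_iff_mem.2 (hkd 1))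
    ⟨j₀, k₀, by
      rw [hddG, hddG, hddG, hddG, ← map_mul, ← map_mul, ← map_sub]
      exact fun h => hjk (Ideal.Quotient.eq_zero_iff_mem.1 h)⟩
  have hprop : ∀ j k, lf (Hs (F j) x) * lf (Hs (F k) d) = lf (Hs (F k) x) * lf (Hs (F j) d) := by
    intro j k
    refine hR4 I hI hIh hnd hS _ _ _ _ ?_
    have h := hdom j k
    change q (dd x (F j)) * q (dd d (F k)) = q (dd x (F k)) * q (dd d (F j)) at h
    rw [hddF, hddF, hddF, hddF, ← map_mul, ← map_mul] at h
    exact (Ideal.Quotient.eq).1 h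
  obtain ⟨μ, hμ⟩ := hPrp 9 (fun k => Hs (F k) x) (fun k => Hs (F k) d) hG.Fi hprop
  refine ⟨μ, ?_⟩
  have hy : d - μ • x = 0 := by
    refine hVer 9 3 I (by norm_num) hI hIh hnd hS x hG.xI hG.x0 F (fun k => (hG.Fm k).1) hFi' _ ?_
    intro k
    rw [hddF, map_sub, map_smul, hμ k, sub_self, lf_zero]
  exact sub_eq_zero.1 hy

end Pool.Agent.Lib.MP_776403_ag.SD.GR
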