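import Pool.Agent.Lib.MP_776403_ag.SD.GR.Spec
import Pool.Agent.Lib.MP_776403_ag.SD.GR.Vtx
import Pool.Agent.Lib.MP_776403_ag.SD.GR.ArP
import Pool.Agent.Lib.MP_776403_ag.SD.LI.Opn
import Pool.Agent.Lib.MP_776403_ag.SD.LI.TS
import Pool.Agent.Lib.MP_776403_ag.SD.Main

/-!
# Case `deg X = 5`, `n = 6`, `c = 3`, module Frm: the frame exists (helper58)
-/

set_option autoImplicit false

open MvPolynomial

noncomputable section

namespace Pool.Agent.Lib.MP_776403_ag.SD.GR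

open LI E2 LI.TSAux

namespace FrmAux

variable {N : ℕ}

theorem homlf (a : Vx N) : (lf a : Sx N).IsHomogeneous 1 :=
  IsHomogeneous.sum _ _ _ fun i _ => by
    simpa using (isHomogeneous_C (Fin (N + 1)) (a i)).mul (isHomogeneous_X ℂ i)

theorem sub_dp (a b y : Vx N) : dp (a - b) y = dp a y - dp b y := by
  have h := add_dp a ((-1 : ℂ) • b) y
  rw [smul_dp, neg_one_smul, ← sub_eq_add_neg] at h
  rw [h]
  ring

theorem dp_sub' (a y z : Vx N) : dp a (y - z) = dp a y - dp a z := by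
  rw [dp_comm, sub_dp, dp_comm y, dp_comm z]

theorem dp_ext {a : Vx N} (h : ∀ y, dp a y = 0) : a = 0 := by
  funext i
  rw [← dp_single a i]
  exact h _

/-- a covector with value `1` at `x` -/
theorem ex_u {x : Vx N} (hx : x ≠ 0) : ∃ u : Vx N, dp u x = 1 := by
  obtain ⟨i, hi⟩ := Function.ne_iff.1 hx
  refine ⟨(x i)⁻¹ • Pi.single i 1, ?_⟩
  rw [smul_dp, dp_comm, dp_single]
  exact inv_mul_cancel₀ hi

/-- the value of a bilinear form at combinations -/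
theorem bil (H : Vx N →ₗ[ℂ] Vx N) (p q : Fin 3 → Vx N) (a b : Fin 3 → ℂ) :
    dp (H (∑ i, a i • p i)) (∑ j, b j • q j) =
      ∑ i, ∑ j, dp (H (p i)) (q j) * (a i * b j) := by
  rw [map_sum, sum_dp]
  refine Finset.sum_congr rfl fun i _ => ?_
  rw [map_smul, smul_dp, OpnAux.dp_sum, Finset.mul_sum]
  exact Finset.sum_congr rfl fun j _ => by ring

theorem ev_bl (β : Ar) (k : Fin 3) (s t : Fin 3 → Sx N) (y : Vx N) :
    eval y (bl β k s t) = ∑ i, ∑ j, β k i j * (eval y (s i) * eval y (t j)) := by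
  unfold bl
  rw [map_sum]
  refine Finset.sum_congr rfl fun i _ => ?_
  rw [map_sum]
  refine Finset.sum_congr rfl fun j _ => ?_
  rw [MvPolynomial.smul_eval, map_mul]

/-- the tangent space in terms of a basis of the conormal space -/
theorem tang {I : Ideal (Sx 9)} {x : Vx 9} (h1 : Module.finrank ℂ (CN I x) = 3)
    {z : Fin 3 → Vx 9} (hz : LinearIndependent ℂ z) (hzC : ∀ k, z k ∈ CN I x) {v : Vx 9}
    (hv : ∀ k, dp (z k) v = 0) : v ∈ TS I x := by
  have hle : Submodule.span ℂ (Set.range z) ≤ CN I x := by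
    rw [Submodule.span_le]
    rintro _ ⟨k, rfl⟩
    exact hzC k
  have heq : Submodule.span ℂ (Set.range z) = CN I x := by
    refine Submodule.eq_of_le_of_finrank_eq hle ?_
    rw [h1, finrank_span_eq_card hz, Fintype.card_fin]
  rw [ts_eq, mem_orth, ← heq]
  intro ξ hm
  induction hm using Submodule.span_induction with
  | mem ξ hξ =>
    obtain ⟨k, rfl⟩ := hξ
    exact hv k
  | zero => simp [dp]
  | add a b _ _ ha hb => rw [add_dp, ha, hb, add_zero]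
  | smul r a _ ha => rw [smul_dp, ha, mul_zero]

/-- the form `T k` of the quadric with the map `H` -/
def Tk (H : Vx N →ₗ[ℂ] Vx N) (n z : Fin 3 → Vx N) (k : Fin 3) : Vx N :=
  H (n k) - (1 / 2 : ℂ) • ∑ j, dp (H (n k)) (n j) • z j

theorem dp_Tk (H : Vx N →ₗ[ℂ] Vx N) (n z : Fin 3 → Vx N) (k : Fin 3) (v : Vx N) :
    dp (Tk H n z k) v = dp (H (n k)) v - 1 / 2 * ∑ j, dp (H (n k)) (n j) * dp (z j) v := by
  unfold Tk
  rw [sub_dp, smul_dp, sum_dp]
  simp only [smul_dp]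

/-- a quadric which vanishes on the common zeros of the `z k` -/
theorem quad (G : Sx N) (hs : ∀ u v, dp (Hs G u) v = dp (Hs G v) u)
    (h2 : ∀ u, 2 * eval u G = dp (Hs G u) u)
    (hadd : ∀ u v, eval (u + v) G = eval u G + eval v G + dp (Hs G u) v)
    (n z : Fin 3 → Vx N) (hn : ∀ k j, dp (z k) (n j) = if k = j then 1 else 0)
    (h0 : ∀ v, (∀ k, dp (z k) v = 0) → eval v G = 0) :
    G = ∑ k, lf (Tk (Hs G) n z k) * lf (z k) := by
  refine MvPolynomial.funext fun v => ?_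
  rw [map_sum]
  simp only [map_mul, ArPAux.ev_lf, dp_Tk]
  set m : Vx N := ∑ k, dp (z k) v • n k with hm
  have hzm : ∀ k, dp (z k) m = dp (z k) v := by
    intro k
    rw [hm, OpnAux.dp_sum]
    simp [hn]
  have hv' : eval (v - m) G = 0 := by
    refine h0 _ fun k => ?_
    rw [dp_sub', hzm, sub_self]
  have e1 : eval v G = eval m G + dp (Hs G m) (v - m) := by
    have h := hadd m (v - m)
    rw [add_sub_cancel, hv', add_zero] at h
    exact h
  have e2 := h2 m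
  have e3 : eval v G = dp (Hs G m) v - 1 / 2 * dp (Hs G m) m := by
    rw [e1, dp_sub']
    linear_combination (1 / 2 : ℂ) * e2
  have e4 : ∀ w, dp (Hs G m) w = ∑ k, dp (z k) v * dp (Hs G (n k)) w := by
    intro w
    rw [hm, map_sum, sum_dp]
    refine Finset.sum_congr rfl fun k _ => ?_
    rw [map_smul, smul_dp]
  have e5 : ∀ k, dp (Hs G (n k)) m = ∑ j, dp (Hs G (n k)) (n j) * dp (z j) v := by
    intro k
    rw [hm, OpnAux.dp_sum]
  rw [e3, e4 v, e4 m, Finset.mul_sum, ← Finset.sum_sub_distrib]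
  refine Finset.sum_congr rfl fun k _ => ?_
  rw [← e5 k]
  ring

/-- the expansion of a quadratic form which is singular at `x` -/
theorem expand (f : Sx 9) (H : Vx 9 →ₗ[ℂ] Vx 9) (hs : ∀ u v, dp (H u) v = dp (H v) u)
    (h2 : ∀ u, 2 * eval u f = dp (H u) u) (x : Vx 9) (hx : H x = 0)
    (T : Fin 2 → Fin 3 → Vx 9) (z : Fin 3 → Vx 9) (t : Fin 2 → Fin 3 → Vx 9) (n : Fin 3 → Vx 9)
    (v : Vx 9) (r : ℂ) (hv : v = r • x + (∑ i, dp (T 0 i) v • t 0 i + ∑ i, dp (T 1 i) v • t 1 i +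
      ∑ j, dp (z j) v • n j)) (β : Fin 6 → Ar) (k : Fin 3)
    (b0 : ∀ i j, β 0 k i j = dp (H (t 0 i)) (t 0 j) / 2)
    (b1 : ∀ i j, β 1 k i j = dp (H (t 0 i)) (t 1 j))
    (b2 : ∀ i j, β 2 k i j = dp (H (t 1 i)) (t 1 j) / 2)
    (b3 : ∀ i j, β 3 k i j = dp (H (t 0 i)) (n j))
    (b4 : ∀ i j, β 4 k i j = dp (H (t 1 i)) (n j))
    (b5 : ∀ i j, β 5 k i j = dp (H (n i)) (n j) / 2) :
    eval v (fv β k (fun a i => lf (T a i)) (fun i => lf (z i))) = eval v f := by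
  unfold fv
  simp only [map_add, ev_bl, ArPAux.ev_lf, b0, b1, b2, b3, b4, b5]
  set s0 : Vx 9 := ∑ i, dp (T 0 i) v • t 0 i with hs0
  set s1 : Vx 9 := ∑ i, dp (T 1 i) v • t 1 i with hs1
  set w : Vx 9 := ∑ j, dp (z j) v • n j with hw
  have hv2 : H v = H (s0 + s1 + w) := by
    conv_lhs => rw [hv]
    rw [map_add, map_smul, hx, smul_zero, zero_add]
  have e1 : 2 * eval v f = dp (H (s0 + s1 + w)) (s0 + s1 + w) := by
    rw [h2 v, hv2, hs, hv2]
  have half : ∀ (a : Fin 3 → Fin 3 → ℂ) (c : Fin 3 → Fin 3 → ℂ),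
      ∑ i, ∑ j, a i j / 2 * c i j = (∑ i, ∑ j, a i j * c i j) / 2 := by
    intro a c
    rw [Finset.sum_div]
    refine Finset.sum_congr rfl fun i _ => ?_
    rw [Finset.sum_div]
    exact Finset.sum_congr rfl fun j _ => by ring
  rw [half, half, half, ← bil H (t 0) (t 0), ← bil H (t 0) (t 1), ← bil H (t 1) (t 1),
    ← bil H (t 0) n, ← bil H (t 1) n, ← bil H n n, ← hs0, ← hs1, ← hw]
  have e2 : dp (H (s0 + s1 + w)) (s0 + s1 + w) =
      dp (H s0) s0 + 2 * dp (H s0) s1 + dp (H s1) s1 + 2 * dp (H s0) w + 2 * dp (H s1) w +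
        dp (H w) w := by
    simp only [map_add, add_dp, dp_add]
    rw [hs s1 s0, hs w s0, hs w s1]
    ring
  rw [e2] at e1
  linear_combination (-(1 / 2 : ℂ)) * e1

end FrmAux

open FrmAux

/-- (Frm) THE FRAME EXISTS. -/
theorem tFrm : LI.S_TS → E2.S_Hsf → E2.S_TQ → S_GP → S_Vtx → S_Bas → S_Frm := by
  intro hTS hHsf hTQ hGP hVtx hBas I hI hh hnd hS h5
  obtain ⟨x, F, G, gd⟩ := hGP I hI hh hnd hS h5
  obtain ⟨hadd, hsm, hsym, hq⟩ := hHsf 9
  obtain ⟨hT1, hT2, -, -, -⟩ := hTS 9 3 I hI hh hS x gd.xI gd.x0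
  obtain ⟨hC1, hC2, -, -⟩ := mPerp 9 3 I hI hh hS x gd.xI gd.x0
  set z : Fin 3 → Vx 9 := fun k => Hs (F k) x with hz
  have hgr : ∀ k, grad (F k) x = z k := fun k => (hq (F k) (gd.Fm k).2).1 x
  have hzC : ∀ k, z k ∈ CN I x := fun k => by
    rw [← hgr]
    exact hC2 _ (gd.Fm k).1
  have hzx : ∀ k, dp (z k) x = 0 := fun k => by
    rw [← hgr]
    exact hT2 _ (gd.Fm k).1
  obtain ⟨n, hn⟩ := VtxAux.dualV gd.Fi
  obtain ⟨u, hu⟩ := ex_u gd.x0
  set T : Fin 2 → Fin 3 → Vx 9 := fun a k => Tk (Hs (G a)) n z k with hTdef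
  have hTx : ∀ a i, dp (T a i) x = 0 := by
    intro a i
    rw [hTdef]
    simp only [dp_Tk, hzx, mul_zero, Finset.sum_const_zero, sub_zero]
    rw [hsym, gd.Gx a]
    simp [dp]
  have hG : ∀ a, G a = ∑ k, lf (T a k) * lf (z k) := by
    intro a
    obtain ⟨-, h2, h3, h4, -⟩ := hq (G a) (gd.Gm a).2
    refine quad (G a) (hsym (G a)) h2 h3 n z hn fun v hv => ?_
    have hd : dd x (G a) = 0 := by
      rw [h4 x, gd.Gx a]
      exact VtxAux.lf_zero
    exact (hTQ 9 3 I hI hh hS x gd.xI gd.x0 (G a) (gd.Gm a).1 (gd.Gm a).2 hd v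
      (tang hC1 gd.Fi hzC hv)).1
  have hNz : Nz u T z := by
    intro v h1 h2 h3
    have hv : ∀ a, Hs (G a) v = 0 := by
      intro a
      rw [← (hq (G a) (gd.Gm a).2).1 v, hG a, grad_sum]
      refine Finset.sum_eq_zero fun k _ => ?_
      rw [grad_mul, ArPAux.ev_lf, ArPAux.ev_lf, h2, h3, zero_smul, zero_smul, add_zero]
    obtain ⟨μ, hμ⟩ := hVtx I hI hh hnd hS x F G gd v hv
    rw [hμ, dp_smul, hu, mul_one] at h1
    rw [hμ, h1, zero_smul]
  -- the dual basis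
  have ht : ∀ (a : Fin 2) (i : Fin 3), ∃ v : Vx 9, dp u v = 0 ∧
      (∀ b j, dp (T b j) v = if b = a ∧ j = i then 1 else 0) ∧ ∀ k, dp (z k) v = 0 := fun a i =>
    hBas u T z hNz 0 (fun b j => if b = a ∧ j = i then 1 else 0) 0
  choose t ht1 ht2 ht3 using ht
  have hn' : ∀ i : Fin 3, ∃ v : Vx 9, dp u v = 0 ∧ (∀ b j, dp (T b j) v = 0) ∧
      ∀ k, dp (z k) v = if k = i then 1 else 0 := fun i =>
    hBas u T z hNz 0 (fun _ _ => 0) (fun k => if k = i then 1 else 0)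
  choose n' hn1 hn2 hn3 using hn'
  have hdec : ∀ v : Vx 9, v = dp u v • x + (∑ i, dp (T 0 i) v • t 0 i +
      ∑ i, dp (T 1 i) v • t 1 i + ∑ j, dp (z j) v • n' j) := by
    intro v
    have h := hNz (v - (dp u v • x + (∑ i, dp (T 0 i) v • t 0 i +
      ∑ i, dp (T 1 i) v • t 1 i + ∑ j, dp (z j) v • n' j))) ?_ ?_ ?_
    · exact sub_eq_zero.1 h
    · simp only [dp_sub', dp_add, dp_smul, OpnAux.dp_sum, hu, ht1, hn1]
      simp
    · intro a i
      simp only [dp_sub', dp_add, dp_smul, OpnAux.dp_sum, hTx, ht2, hn2]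
      fin_cases a <;> simp
    · intro k
      simp only [dp_sub', dp_add, dp_smul, OpnAux.dp_sum, hzx, ht3, hn3]
      simp
  -- the quadratic forms
  set f : Fin 3 → Sx 9 := fun k => lf u * lf (z k) - F k with hf
  have hf2 : ∀ k, (f k).IsHomogeneous 2 := fun k =>
    ((homlf u).mul (homlf (z k))).sub (gd.Fm k).2
  have hfx : ∀ k, Hs (f k) x = 0 := by
    intro k
    rw [← (hq (f k) (hf2 k)).1 x, hf]
    simp only
    rw [grad_sub, grad_mul, ArPAux.ev_lf, ArPAux.ev_lf, ArPAux.grad_lf, ArPAux.grad_lf, hu, hzx,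
      hgr]
    simp
  obtain ⟨β, b0, b1, b2, b3, b4, b5⟩ : ∃ β : Fin 6 → Ar,
      (∀ k i j, β 0 k i j = dp (Hs (f k) (t 0 i)) (t 0 j) / 2) ∧
      (∀ k i j, β 1 k i j = dp (Hs (f k) (t 0 i)) (t 1 j)) ∧
      (∀ k i j, β 2 k i j = dp (Hs (f k) (t 1 i)) (t 1 j) / 2) ∧
      (∀ k i j, β 3 k i j = dp (Hs (f k) (t 0 i)) (n' j)) ∧
      (∀ k i j, β 4 k i j = dp (Hs (f k) (t 1 i)) (n' j)) ∧
      (∀ k i j, β 5 k i j = dp (Hs (f k) (n' i)) (n' j) / 2) :=
    ⟨![fun k i j => dp (Hs (f k) (t 0 i)) (t 0 j) / 2,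
      fun k i j => dp (Hs (f k) (t 0 i)) (t 1 j),
      fun k i j => dp (Hs (f k) (t 1 i)) (t 1 j) / 2,
      fun k i j => dp (Hs (f k) (t 0 i)) (n' j),
      fun k i j => dp (Hs (f k) (t 1 i)) (n' j),
      fun k i j => dp (Hs (f k) (n' i)) (n' j) / 2],
      fun _ _ _ => rfl, fun _ _ _ => rfl, fun _ _ _ => rfl, fun _ _ _ => rfl,
      fun _ _ _ => rfl, fun _ _ _ => rfl⟩
  refine ⟨x, u, T, z, β, gd.xI, hu, hTx, hzx, hNz, ?_, ?_⟩
  · intro k
    have e : fv β k (fun a i => lf (T a i)) (fun i => lf (z i)) = f k := by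
      refine MvPolynomial.funext fun v => ?_
      exact expand (f k) (Hs (f k)) (hsym (f k)) (hq (f k) (hf2 k)).2.1 x (hfx k) T z t n' v
        (dp u v) (hdec v) β k (b0 k) (b1 k) (b2 k) (b3 k) (b4 k) (b5 k)
    rw [e, hf]
    simp only [sub_sub_cancel]
    exact (gd.Fm k).1
  · intro a
    rw [← hG a]
    exact (gd.Gm a).1

end Pool.Agent.Lib.MP_776403_ag.SD.GR
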