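import Pool.Agent.Lib.MP_776403_ag.SD.GR.Spec
import Pool.Agent.Lib.MP_776403_ag.SD.FR.SpecQ

/-!
# The Grassmannian `G(1,4)`: the form used in the final statement (`FR.S_GR` from `S_GR3`)
-/

set_option autoImplicit false

open MvPolynomial

noncomputable section

namespace Pool.Agent.Lib.MP_776403_ag.SD.GR

namespace G14Aux

/-- The coordinates `i < j` of a matrix. -/
def upp : Matrix (Fin 5) (Fin 5) ℂ →ₗ[ℂ] (FR.Pij → ℂ) where
  toFun M q := M q.1.1 q.1.2
  map_add' _ _ := rfl
  map_smul' _ _ := rfl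

theorem card_Pij : Fintype.card FR.Pij = 10 := by decide

theorem skew_ext {M M' : Matrix (Fin 5) (Fin 5) ℂ} (h : M.transpose = -M)
    (h' : M'.transpose = -M') (hu : upp M = upp M') : M = M' := by
  have key : ∀ i j : Fin 5, i < j → M i j = M' i j := fun i j hij =>
    congrFun hu ⟨(i, j), hij⟩
  have hs : ∀ i j, M j i = - M i j := fun i j => congrFun (congrFun h i) j
  have hs' : ∀ i j, M' j i = - M' i j := fun i j => congrFun (congrFun h' i) j
  ext i j
  rcases lt_trichotomy i j with hij | hij | hij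
  · exact key i j hij
  · subst hij
    have h1 := hs i i
    have h2 := hs' i i
    have h3 : (2 : ℂ) * M i i = 0 := by linear_combination h1
    have h4 : (2 : ℂ) * M' i i = 0 := by linear_combination h2
    rw [(mul_eq_zero.1 h3).resolve_left two_ne_zero, (mul_eq_zero.1 h4).resolve_left two_ne_zero]
  · rw [hs j i, hs' j i, key j i hij]

theorem wdg_skew (a b : Fin 5 → ℂ) : (wdg a b).transpose = - wdg a b := by
  ext i j
  simp [wdg]

end G14Aux

open G14Aux

/-- (G14) `FR.S_GR` from `S_GR3`. -/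
theorem tG14 (h : S_GR3) : FR.S_GR := by
  intro I hI hh hnd hsm h5
  obtain ⟨P, hP, hskew, hz⟩ := h I hI hh hnd hsm h5
  let T₀ : Vx 9 →ₗ[ℂ] (FR.Pij → ℂ) := upp.comp P
  have hinj : Function.Injective T₀ := by
    intro y y' hy
    exact hP (skew_ext (hskew y) (hskew y') hy)
  have hfr : Module.finrank ℂ (Vx 9) = Module.finrank ℂ (FR.Pij → ℂ) := by
    rw [Module.finrank_fintype_fun_eq_card, Module.finrank_fintype_fun_eq_card, card_Pij,
      Fintype.card_fin]
  let T : Vx 9 ≃ₗ[ℂ] (FR.Pij → ℂ) := LinearEquiv.ofInjectiveOfFinrankEq T₀ hinj hfr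
  have hT : ∀ y, T y = upp (P y) := fun y => rfl
  refine ⟨T, ?_⟩
  ext p
  constructor
  · rintro ⟨y, hy, rfl⟩
    obtain ⟨a, b, hab⟩ := (hz y).1 hy
    refine ⟨a, b, fun q => ?_⟩
    rw [hT, hab]
    rfl
  · rintro ⟨u, v, huv⟩
    obtain ⟨y, rfl⟩ := T.surjective p
    refine ⟨y, (hz y).2 ⟨u, v, ?_⟩, rfl⟩
    refine skew_ext (hskew y) (wdg_skew u v) ?_
    funext q
    have h1 := huv q
    rw [hT] at h1
    exact h1

end Pool.Agent.Lib.MP_776403_ag.SD.GR
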