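import Pool.Agent.Lib.MP_776403_ag.SD.GR.Spec
import Pool.Agent.Lib.MP_776403_ag.SD.U.Zak

/-!
# Case `deg X = 5`, `n = 6`, codimension `3`: `X` is the Grassmannian `G(1,4)` (proof of `S_GR3`)
-/

set_option autoImplicit false

open MvPolynomial

noncomputable section

namespace Pool.Agent.Lib.MP_776403_ag.SD.GR

open LI E2

namespace GR3Aux

open U.ZakAux

variable (u : Vx 9) (T : Fin 2 → Fin 3 → Vx 9) (z : Fin 3 → Vx 9)

/-- the matrix of the values -/
def Pv (y : Vx 9) : Matrix (Fin 5) (Fin 5) ℂ :=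
  Pm (dp u y) (fun a i => dp (T a i) y) (fun k => dp (z k) y)

theorem Pm_add (r r' : ℂ) (A A' : Fin 2 → Fin 3 → ℂ) (Z Z' : Fin 3 → ℂ) :
    Pm (r + r') (fun a i => A a i + A' a i) (fun k => Z k + Z' k) = Pm r A Z + Pm r' A' Z' := by
  ext i j
  fin_cases i <;> fin_cases j <;> simp [Pm] <;> ring

theorem Pm_smul (c r : ℂ) (A : Fin 2 → Fin 3 → ℂ) (Z : Fin 3 → ℂ) :
    Pm (c * r) (fun a i => c * A a i) (fun k => c * Z k) = c • Pm r A Z := by
  ext i j
  fin_cases i <;> fin_cases j <;> simp [Pm]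

theorem Pm_transpose (r : ℂ) (A : Fin 2 → Fin 3 → ℂ) (Z : Fin 3 → ℂ) :
    (Pm r A Z).transpose = -Pm r A Z := by
  ext i j
  fin_cases i <;> fin_cases j <;> simp [Pm]

/-- the linear map -/
def Plm : Vx 9 →ₗ[ℂ] Matrix (Fin 5) (Fin 5) ℂ where
  toFun := Pv u T z
  map_add' := by
    intro y y'
    unfold Pv
    simp only [dp_add_right]
    exact Pm_add _ _ (fun a i => dp (T a i) y) (fun a i => dp (T a i) y')
      (fun k => dp (z k) y) (fun k => dp (z k) y')
  map_smul' := by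
    intro c y
    unfold Pv
    simp only [dp_smul_right]
    exact Pm_smul c _ (fun a i => dp (T a i) y) (fun k => dp (z k) y)

theorem Plm_apply (y : Vx 9) : Plm u T z y =
    Pm (dp u y) (fun a i => dp (T a i) y) (fun k => dp (z k) y) := rfl

variable {u T z}

theorem Plm_inj (h : Nz u T z) : Function.Injective (Plm u T z) := by
  rw [injective_iff_map_eq_zero]
  intro y hy
  rw [Plm_apply] at hy
  have e : ∀ i j, Pm (dp u y) (fun a i => dp (T a i) y) (fun k => dp (z k) y) i j = 0 := by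
    intro i j
    rw [hy]
    rfl
  have h01 := e 0 1
  have h02 := e 0 2
  have h03 := e 0 3
  have h04 := e 0 4
  have h12 := e 1 2
  have h13 := e 1 3
  have h14 := e 1 4
  have h23 := e 2 3
  have h42 := e 4 2
  have h34 := e 3 4
  simp [Pm] at h01 h02 h03 h04 h12 h13 h14 h23 h42 h34
  refine h y h01 (fun a i => ?_) (fun k => ?_)
  · fin_cases a <;> fin_cases i
    · exact h02
    · exact h03
    · exact h04
    · exact h12
    · exact h13
    · exact h14
  · fin_cases k
    · exact h34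
    · exact h42
    · exact h23

end GR3Aux

open GR3Aux U.ZakAux in
/-- (GR3) `X` IS THE GRASSMANNIAN `G(1,4)`. -/
theorem tGR3 (h1 : S_Pd) (h2 : S_Dec) (h3 : S_Cls) : S_GR3 := by
  intro I hI hIh hnd hsm hfr
  obtain ⟨x, u, T, z, hP⟩ := h1 I hI hIh hnd hsm hfr
  refine ⟨Plm u T z, Plm_inj hP.nz, fun y => ?_, fun y => ⟨fun hy => ?_, ?_⟩⟩
  · rw [Plm_apply]
    exact Pm_transpose _ _ _
  · rw [Plm_apply]
    refine (h2 _ _ _).1 ⟨fun k => ?_, fun a => ?_⟩
    · have h := hy _ (hP.F k)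
      rw [map_sub, map_mul, U.ZakAux.eval_lf, U.ZakAux.eval_lf] at h
      unfold cr3 at h ⊢
      rw [map_sub, map_mul, map_mul, U.ZakAux.eval_lf, U.ZakAux.eval_lf, U.ZakAux.eval_lf,
        U.ZakAux.eval_lf] at h
      linear_combination h
    · have h := hy _ (hP.G a)
      rw [map_sum] at h
      rw [← h]
      refine Finset.sum_congr rfl fun k _ => ?_
      rw [map_mul, U.ZakAux.eval_lf, U.ZakAux.eval_lf]
  · rintro ⟨a, b, hab⟩
    rw [Plm_apply] at hab
    exact h3 I hI hIh hsm x u T z hP y a b hab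

end Pool.Agent.Lib.MP_776403_ag.SD.GR
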