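import Pool.Agent.Lib.MP_776403_ag.SD.E2.Main
import Pool.Agent.Lib.MP_776403_ag.SD.GR.ArP
import Pool.Agent.Lib.MP_776403_ag.SD.GR.Arc
import Pool.Agent.Lib.MP_776403_ag.SD.GR.Bas
import Pool.Agent.Lib.MP_776403_ag.SD.GR.Bl
import Pool.Agent.Lib.MP_776403_ag.SD.GR.Cls
import Pool.Agent.Lib.MP_776403_ag.SD.GR.Dec
import Pool.Agent.Lib.MP_776403_ag.SD.GR.Dom
import Pool.Agent.Lib.MP_776403_ag.SD.GR.Fld
import Pool.Agent.Lib.MP_776403_ag.SD.GR.Frm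
import Pool.Agent.Lib.MP_776403_ag.SD.GR.G14
import Pool.Agent.Lib.MP_776403_ag.SD.GR.GP
import Pool.Agent.Lib.MP_776403_ag.SD.GR.GR3
import Pool.Agent.Lib.MP_776403_ag.SD.GR.Gm
import Pool.Agent.Lib.MP_776403_ag.SD.GR.KT
import Pool.Agent.Lib.MP_776403_ag.SD.GR.Mnr
import Pool.Agent.Lib.MP_776403_ag.SD.GR.NF
import Pool.Agent.Lib.MP_776403_ag.SD.GR.Pd
import Pool.Agent.Lib.MP_776403_ag.SD.GR.Prp
import Pool.Agent.Lib.MP_776403_ag.SD.GR.Q
import Pool.Agent.Lib.MP_776403_ag.SD.GR.Qn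
import Pool.Agent.Lib.MP_776403_ag.SD.GR.R4
import Pool.Agent.Lib.MP_776403_ag.SD.GR.Ver
import Pool.Agent.Lib.MP_776403_ag.SD.GR.Vtx

/-!
# Case `deg X = 5`, `n = 6`: closed forms (helper43)
-/

set_option autoImplicit false

open MvPolynomial

noncomputable section

namespace Pool.Agent.Lib.MP_776403_ag.SD.GR

open LI E2

theorem mR4 : S_R4 := tR4 mHsf mRk6

theorem mKT : S_KT := tKT mTS mHsf mTQ mRk6

theorem mGP : S_GP := tGP mTS mHsf mKT

theorem mVer : S_Ver := tVer tFld mTS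

theorem mMnr : S_Mnr := tMnr mHsf mR4 mKT tPrp

theorem mVtx : S_Vtx := tVtx mHsf tFld mVer tDom tPrp mR4 mMnr

theorem mFrm : S_Frm := tFrm mTS mHsf mTQ mGP mVtx tBas

theorem mArP : S_ArP := tArP tBas tArc

theorem mNF : S_NF := tNF tQ tBl tGm

theorem mQn : S_Qn := tQn tBas

theorem mPd : S_Pd := tPd mFrm mArP mNF mQn

theorem mCls : S_Cls := tCls tFld tBas tDec

/-- `X` is the Grassmannian `G(1,4)`. -/
theorem mGR3 : S_GR3 := tGR3 mPd tDec mCls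

/-- `X` is the Grassmannian `G(1,4)`, the form of the final statement. -/
theorem mGR : FR.S_GR := tG14 mGR3

end Pool.Agent.Lib.MP_776403_ag.SD.GR
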